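import Pool.Agent.H634.TC.Stm

set_option autoImplicit false

/-!
Assembly, part 1: the group.
-/

namespace Pool.Agent.H634.TC

open Nat.Partrec (Code)
open Pool.Agent.Helper227 (pre S1 chi)

theorem TR_refl (hS : S_SHF) (x : ℕ → Bool) : TR x x := hS x x 0 0 fun _ => rfl

theorem TR_trans (hR : S_RED) {x y z : ℕ → Bool} (h : TR x y) (h' : TR y z) : TR x z := by
  rw [← hR] at h h' ⊢
  exact Nat.RecursiveIn.subst h' (by
    intro g hg
    rw [Set.mem_singleton_iff] at hg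
    rw [hg]
    exact h)

theorem TE_refl (hS : S_SHF) (x : ℕ → Bool) : TE x x := ⟨TR_refl hS x, TR_refl hS x⟩

theorem TE_symm {x y : ℕ → Bool} (h : TE x y) : TE y x := ⟨h.2, h.1⟩

theorem TE_trans (hR : S_RED) {x y z : ℕ → Bool} (h : TE x y) (h' : TE y z) : TE x z :=
  ⟨TR_trans hR h.1 h'.1, TR_trans hR h'.2 h.2⟩

/-- extension of homeomorphisms between closed thin sets -/
theorem ext_hm (h1 : S_EX1) (h2 : S_EX2) {D C C' : Set (ℕ → ℕ)} {f f' : (ℕ → ℕ) → (ℕ → ℕ)}
    (hD : D.Nonempty) (hE : Evn D) (hC : IsClosed C) (hC' : IsClosed C') (nC : C.Nonempty)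
    (nC' : C'.Nonempty) (tC : Thin C) (tC' : Thin C') (m : Set.MapsTo f C C')
    (m' : Set.MapsTo f' C' C) (c : ContinuousOn f C) (c' : ContinuousOn f' C')
    (i : ∀ y ∈ C, f' (f y) = y) (i' : ∀ y ∈ C', f (f' y) = y) :
    ∃ g : Hm, (∀ y ∈ C, g y = f y) ∧ ∀ v, v ∉ C → E0st D v (g v) := by
  obtain ⟨β, hβ⟩ := h1 D C C' f f' hD hE tC tC' m m' i i'
  obtain ⟨g, hg1, hg2⟩ := h2 D C C' f f' hC hC' nC nC' m m' c c' i i' β hβ
  refine ⟨g, hg1, fun v hv => ?_⟩
  obtain ⟨_, n, e1, e2⟩ := hg2 v hv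
  exact E0st_of_agree e1 e2

/-- the shift of the kernel of a cylinder to `D` -/
theorem shift_hm (h1 : S_EX1) (h2 : S_EX2) (h3 : S_KRN) {D : Set (ℕ → ℕ)} (cD : IsClosed D)
    (hD : D.Nonempty) (hE : Evn D) (s : List ℕ) :
    ∃ g : Hm, (∀ v ∈ Ker D s, g v = app (stl D s) (dr s.length v)) ∧
      ∀ v, v ∉ Ker D s → E0st D v (g v) := by
  obtain ⟨k1, k2, k3⟩ := h3 D cD hD hE s
  have hc : ∀ (σ : List ℕ) (n : ℕ), Continuous fun v : ℕ → ℕ => app σ (dr n v) := by
    intro σ n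
    refine continuous_pi fun i => ?_
    unfold app dr
    by_cases h : i < σ.length
    · simp only [h, if_true]
      exact continuous_const
    · simp only [h, if_false]
      exact continuous_apply _
  have hcl : IsClosed {v : ℕ → ℕ | v ∈ D ∧ pr v (stl D s).length = stl D s} := by
    have h0 : IsClosed {v : ℕ → ℕ | pr v (stl D s).length = stl D s} := by
      have : {v : ℕ → ℕ | pr v (stl D s).length = stl D s} =
          ⋂ i : Fin (stl D s).length, {v : ℕ → ℕ | v i = (stl D s).getD i 0} := by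
        ext v
        simp only [Set.mem_setOf_eq, Set.mem_iInter]
        constructor
        · intro h i
          have h5 := congrArg (fun l => l.getD (i : ℕ) 0) h
          simp only [pr_getD v i.2] at h5
          exact h5
        · intro h
          apply List.ext_getElem
          · simp
          · intro i h1 h2
            have := h ⟨i, h2⟩
            simp only at this
            simp [pr, this, h2]
      rw [this]
      exact isClosed_iInter fun i => isClosed_eq (continuous_apply _) continuous_const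
    exact cD.inter h0
  refine ext_hm h1 h2 (C' := {v : ℕ → ℕ | v ∈ D ∧ pr v (stl D s).length = stl D s})
    (f' := fun v => app s (dr (stl D s).length v)) hD hE k1 hcl k2 ?_ k3 ?_ ?_ ?_
    (hc _ _).continuousOn (hc _ _).continuousOn ?_ ?_
  · obtain ⟨v, hv⟩ := k2
    exact ⟨_, hv.2, pr_app _ _⟩
  · exact thin_of_subset hE fun v hv => hv.1
  · intro v hv
    exact ⟨hv.2, pr_app _ _⟩
  · intro v hv
    refine ⟨pr_app _ _, ?_⟩
    rw [dr_app, app_dr hv.2]
    exact hv.1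
  · intro v hv
    rw [dr_app, app_dr hv.1]
  · intro v hv
    rw [dr_app, app_dr hv.2]

theorem RR_of_E0st (hM : S_MR) (hS : S_SHF) {v w : ℕ → ℕ} (h : E0st DD v w) : RR v w := by
  by_cases hv : InZ DD v
  · obtain ⟨y, hy⟩ := hv
    have hw := hy.of_E0st h
    obtain ⟨x, rfl⟩ := hy.1
    refine Or.inl ⟨⟨_, hy⟩, ⟨_, hw⟩, ?_⟩
    rw [hM.2 v x hy, hM.2 w x hw]
    exact TE_refl hS x
  · exact Or.inr ⟨hv, fun hw => hv (hw.of_E0st (E0st_symm h)), h⟩

theorem RR_equiv (hR : S_RED) (hS : S_SHF) : Equivalence RR := by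
  refine ⟨fun v => ?_, ?_, ?_⟩
  · by_cases hv : InZ DD v
    · exact Or.inl ⟨hv, hv, TE_refl hS _⟩
    · exact Or.inr ⟨hv, hv, E0st_refl v⟩
  · rintro v w (⟨h1, h2, h3⟩ | ⟨h1, h2, h3⟩)
    · exact Or.inl ⟨h2, h1, TE_symm h3⟩
    · exact Or.inr ⟨h2, h1, E0st_symm h3⟩
  · rintro u v w (⟨h1, h2, h3⟩ | ⟨h1, h2, h3⟩) (⟨h1', h2', h3'⟩ | ⟨h1', h2', h3'⟩)
    · exact Or.inl ⟨h1, h2', TE_trans hR h3 h3'⟩
    · exact absurd h2 h1'
    · exact absurd h1' h2
    · exact Or.inr ⟨h1, h2', E0st_trans h3 h3'⟩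

theorem Val_dx (x : ℕ → Bool) : Val DD (dx x) (dx x) := Val_self ⟨x, rfl⟩

theorem RR_of_Val (hM : S_MR) (hS : S_SHF) {v w y : ℕ → ℕ} (h : Val DD v y) (h' : Val DD w y) :
    RR v w := by
  obtain ⟨x, rfl⟩ := h.1
  refine Or.inl ⟨⟨_, h⟩, ⟨_, h'⟩, ?_⟩
  rw [hM.2 v x h, hM.2 w x h']
  exact TE_refl hS x

/-- the group -/
theorem group_action (hR : S_RED) (hS : S_SHF) (hM : S_MR) (h1 : S_EX1) (h2 : S_EX2) (h3 : S_KRN)
    (h4 : S_DCL) (h5 : S_KCL) (h6 : S_KCT) (h7 : S_SWP) (h8 : S_GRP) :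
    ∃ (G : Type) (_ : Group G) (_ : Countable G) (_ : MulAction G (ℕ → ℕ)),
      (∀ g : G, Continuous (fun y : ℕ → ℕ => g • y)) ∧ ∀ v w, (∃ g : G, g • v = w) ↔ RR v w := by
  classical
  have e1 : ∀ s : List ℕ, ∃ g : Hm, (∀ v, RR v (g v)) ∧
      ∀ v ∈ Ker DD s, g v = app (stl DD s) (dr s.length v) := by
    intro s
    obtain ⟨g, hg1, hg2⟩ := shift_hm h1 h2 h3 h4 DD_nonempty Evn_DD s
    refine ⟨g, fun v => ?_, hg1⟩
    by_cases hv : v ∈ Ker DD s
    · rw [hg1 v hv]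
      exact RR_of_Val hM hS (Val_of_Ker hv) (Val_self hv.2)
    · exact RR_of_E0st hM hS (hg2 v hv)
  have e2 : ∀ q : ℕ × ℕ, ∃ g : Hm, (∀ v, RR v (g v)) ∧
      ∀ x y, Red q.1 x y → Red q.2 y x → g (dx x) = dx y := by
    rintro ⟨a, b⟩
    obtain ⟨f, hf1, hf2⟩ := h6 a b
    obtain ⟨f', hf1', hf2'⟩ := h6 b a
    by_cases hne : (KK a b).Nonempty
    · have hne' : (KK b a).Nonempty := by
        obtain ⟨d, x, y, rfl, hx, hy⟩ := hne
        exact ⟨dx y, y, x, rfl, hy, hx⟩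
      have hsub : ∀ a b, KK a b ⊆ DD := by
        rintro a b d ⟨x, y, rfl, _, _⟩
        exact ⟨x, rfl⟩
      obtain ⟨g, hg1, hg2⟩ := ext_hm (D := DD) (C := KK a b) (C' := KK b a) (f := f) (f' := f')
        h1 h2 DD_nonempty Evn_DD
        (h5 a b) (h5 b a) hne hne' (thin_of_subset Evn_DD (hsub a b))
        (thin_of_subset Evn_DD (hsub b a))
        (by
          rintro d ⟨x, y, rfl, hx, hy⟩
          rw [hf2 x y hx hy]
          exact ⟨y, x, rfl, hy, hx⟩)
        (by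
          rintro d ⟨x, y, rfl, hx, hy⟩
          rw [hf2' x y hx hy]
          exact ⟨y, x, rfl, hy, hx⟩) hf1 hf1'
        (by
          rintro d ⟨x, y, rfl, hx, hy⟩
          rw [hf2 x y hx hy, hf2' y x hy hx])
        (by
          rintro d ⟨x, y, rfl, hx, hy⟩
          rw [hf2' x y hx hy, hf2 y x hy hx])
      refine ⟨g, fun v => ?_, fun x y hx hy => ?_⟩
      · by_cases hv : v ∈ KK a b
        · rw [hg1 v hv]
          obtain ⟨x, y, rfl, hx, hy⟩ := hv
          rw [hf2 x y hx hy]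
          refine Or.inl ⟨⟨_, Val_dx x⟩, ⟨_, Val_dx y⟩, ?_⟩
          rw [hM.2 _ x (Val_dx x), hM.2 _ y (Val_dx y)]
          exact ⟨⟨a, hx⟩, ⟨b, hy⟩⟩
        · exact RR_of_E0st hM hS (hg2 v hv)
      · rw [hg1 _ ⟨x, y, rfl, hx, hy⟩]
        exact hf2 x y hx hy
    · refine ⟨Homeomorph.refl _, fun v => (RR_equiv hR hS).refl v, fun x y hx hy => ?_⟩
      exact absurd ⟨_, x, y, rfl, hx, hy⟩ hne
  have e3 : ∀ q : List ℕ × List ℕ, ∃ g : Hm, (∀ v, RR v (g v)) ∧
      (q.1.length = q.2.length → stl DD q.1 = stl DD q.2 → ∀ u, g (app q.1 u) = app q.2 u) := by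
    rintro ⟨s, t⟩
    by_cases h : s.length = t.length ∧ stl DD s = stl DD t
    · obtain ⟨g, hg1, hg2⟩ := h7 DD s t h.1 h.2
      refine ⟨g, fun v => ?_, fun _ _ => hg1⟩
      obtain ⟨n, e1, e2⟩ := hg2 v
      exact RR_of_E0st hM hS (E0st_of_agree e1 e2)
    · exact ⟨Homeomorph.refl _, fun v => (RR_equiv hR hS).refl v, fun h' h'' => absurd ⟨h', h''⟩ h⟩
  choose g1 a1 b1 using e1
  choose g2 a2 b2 using e2
  choose g3 a3 b3 using e3
  let gi : List ℕ ⊕ ((ℕ × ℕ) ⊕ (List ℕ × List ℕ)) → Hm :=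
    Sum.elim g1 (Sum.elim g2 g3)
  have hgi : ∀ i v, RR v (gi i v) := by
    rintro (s | q | q) v
    · exact a1 s v
    · exact a2 q v
    · exact a3 q v
  let gens : ℕ → Hm := fun n =>
    ((Encodable.decode (α := List ℕ ⊕ ((ℕ × ℕ) ⊕ (List ℕ × List ℕ))) n).map gi).getD
      (Homeomorph.refl _)
  have hgens : ∀ i, gens (Encodable.encode i) = gi i := by
    intro i
    simp [gens]
  refine h8 gens RR (RR_equiv hR hS) ?_ ?_
  · intro n v
    simp only [gens]
    cases h : Encodable.decode (α := List ℕ ⊕ ((ℕ × ℕ) ⊕ (List ℕ × List ℕ))) n with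
    | none => exact (RR_equiv hR hS).refl v
    | some i => exact hgi i v
  · have step : ∀ i v, Relation.EqvGen (fun a b => ∃ n, gens n a = b) v (gi i v) := fun i v =>
      Relation.EqvGen.rel _ _ ⟨Encodable.encode i, by rw [hgens]⟩
    have toD : ∀ v x, Val DD v (dx x) →
        Relation.EqvGen (fun a b => ∃ n, gens n a = b) v (dx x) := by
      intro v x h
      obtain ⟨s, hs, hx⟩ := exists_Ker h
      have := step (Sum.inl s) v
      have e : gi (Sum.inl s) v = dx x := by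
        change g1 s v = dx x
        rw [b1 s v hs, hx]
      rw [e] at this
      exact this
    rintro v w (⟨⟨y, hy⟩, ⟨y', hy'⟩, h⟩ | ⟨_, _, h⟩)
    · obtain ⟨x, rfl⟩ := hy.1
      obtain ⟨x', rfl⟩ := hy'.1
      rw [hM.2 v x hy, hM.2 w x' hy'] at h
      obtain ⟨⟨a, ha⟩, ⟨b, hb⟩⟩ := h
      have := step (Sum.inr (Sum.inl (a, b))) (dx x)
      have e : gi (Sum.inr (Sum.inl (a, b))) (dx x) = dx x' := b2 (a, b) x x' ha hb
      rw [e] at this
      exact (toD v x hy).trans _ _ _ (this.trans _ _ _ ((toD w x' hy').symm _ _))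
    · obtain ⟨N, hN⟩ := h
      have e : gi (Sum.inr (Sum.inr (pr v N, pr w N))) v = w := by
        change g3 (pr v N, pr w N) v = w
        have h5 := b3 (pr v N, pr w N) (by simp) (by
          change stl DD (pr v N) = stl DD (pr w N)
          rw [← st_eq_stl, ← st_eq_stl]
          exact (hN N le_rfl).2) (dr N v)
        rw [app_pr] at h5
        rw [h5]
        have : dr N v = dr N w := by
          funext i
          exact (hN (N + i) (by omega)).1
        rw [this]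
        exact app_pr w N
      have := step (Sum.inr (Sum.inr (pr v N, pr w N))) v
      rw [e] at this
      exact this

end Pool.Agent.H634.TC
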