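import Pool.Agent.H634.TC.Asm1

set_option autoImplicit false

/-!
Assembly, part 2: reals of different degrees, and the coding of the free part.
-/

namespace Pool.Agent.H634.TC

open Nat.Partrec (Code)
open Pool.Agent.Helper227 (pre S1 chi)

theorem pre_of_prefix {x : ℕ → Bool} {σ τ : List Bool} (h : σ <+: τ)
    (hx : pre x τ.length = τ) : pre x σ.length = σ := by
  have h1 : σ <+: pre x τ.length := by rw [hx]; exact h
  exact (Pool.Agent.Helper227.pre_eq_of_prefix h1).symm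

/-- a reduction of eventual equality to Turing equivalence -/
theorem psi (hR : S_RED) (hS : S_SHF) (h1 : S_ND) (h2 : S_NC) (h3 : S_BLK) :
    ∃ (ψ : (ℕ → Bool) → (ℕ → Bool)) (c : ℕ → Bool), Continuous ψ ∧ Function.Injective ψ ∧
      (∀ z z', TE (ψ z) (ψ z') ↔ ∃ N, ∀ n, N ≤ n → z n = z' n) ∧ ∀ z, ¬ TR (ψ z) c := by
  obtain ⟨c, hc⟩ := h2
  obtain ⟨ψ, c1, c2, c3, c4, c5⟩ := h3
    (fun a σ τ => ∀ x y : ℕ → Bool, pre x σ.length = σ → pre y τ.length = τ →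
      ¬ Red a x y ∧ ¬ Red a y x)
    (fun a σ => ∀ x : ℕ → Bool, pre x σ.length = σ → ¬ Red a x c)
    (by
      intro a σ τ
      obtain ⟨σ', τ', e1, e2, e3⟩ := h1 a σ τ
      obtain ⟨τ'', σ'', e4, e5, e6⟩ := h1 a τ' σ'
      refine ⟨σ'', τ'', e1.trans e5, e2.trans e4, fun x y hx hy => ⟨?_, ?_⟩⟩
      · exact e3 x y (pre_of_prefix e5 hx) (pre_of_prefix e4 hy)
      · exact e6 y x hy hx)
    (by
      intro a σ τ σ' τ' h e1 e2 x y hx hy
      exact h x y (pre_of_prefix e1 hx) (pre_of_prefix e2 hy))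
    (by
      intro a σ
      exact hc a σ)
    (by
      intro a σ σ' h e1 x hx
      exact h x (pre_of_prefix e1 hx))
  refine ⟨ψ, c, c1, c2, fun z z' => ⟨?_, ?_⟩, ?_⟩
  · rintro ⟨⟨a, ha⟩, _⟩
    by_contra hcon
    push Not at hcon
    obtain ⟨n, hn, hne⟩ := hcon a
    cases h5 : z n <;> cases h6 : z' n
    · rw [h5, h6] at hne; exact hne rfl
    · obtain ⟨k, hk⟩ := c3 z z' n h5 h6 a hn
      exact (hk (ψ z) (ψ z') (by simp) (by simp)).1 ha
    · obtain ⟨k, hk⟩ := c3 z' z n h6 h5 a hn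
      exact (hk (ψ z') (ψ z) (by simp) (by simp)).2 ha
    · rw [h5, h6] at hne; exact hne rfl
  · intro h
    obtain ⟨N, hN⟩ := c5 z z' h
    exact ⟨hS _ _ N N fun i => (hN _ (by omega)).symm, hS _ _ N N fun i => hN _ (by omega)⟩
  · rintro z ⟨a, ha⟩
    obtain ⟨k, hk⟩ := c4 z a
    exact hk (ψ z) (by simp) ha

/-- the coding of the free part -/
theorem psi2 (hR : S_RED) (hS : S_SHF) (h1 : S_ND) (h2 : S_NC) (h3 : S_BLK) (h4 : S_CD) :
    ∃ (ψ : ℕ → (ℕ → ℕ) → (ℕ → Bool)) (c : ℕ → Bool),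
      Measurable (fun q : ℕ × (ℕ → ℕ) => ψ q.1 q.2) ∧
      (∀ n n' v v', ψ n v = ψ n' v' → n = n' ∧ v = v') ∧
      (∀ n n' v v', TE (ψ n v) (ψ n' v') ↔ (n = n' ∧ E0st DD v v')) ∧
      ∀ n v, ¬ TR (ψ n v) c := by
  obtain ⟨ψ, c, c1, c2, c3, c4⟩ := psi hR hS h1 h2 h3
  refine ⟨fun n v => ψ (cd n v), c, c1.measurable.comp h4.1, fun n n' v v' h => ?_,
    fun n n' v v' => ?_, fun n v => c4 _⟩
  · exact h4.2.1 n n' v v' (c2 h)
  · rw [c3, h4.2.2]

end Pool.Agent.H634.TC
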