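import Pool.Agent.H634.TC.Asm2

set_option autoImplicit false

/-!
Assembly, part 3: the Borel isomorphism.
-/

namespace Pool.Agent.H634.TC

open Nat.Partrec (Code)
open Pool.Agent.Helper227 (pre S1 chi)

/-! ### Multiplicities -/

/-- an element of the class of `v` which codes `k` and `v` -/
noncomputable def kb (k : ℕ) (v : ℕ → ℕ) : ℕ → ℕ := fun i =>
  if i = 0 then 2 * Nat.pair (Encodable.encode (dl DD [] (v 0))) (Nat.pair k (v 0)) + 1 else v i

theorem kb_meas : Measurable fun q : ℕ × (ℕ → ℕ) => kb q.1 q.2 := by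
  refine measurable_pi_iff.2 fun i => ?_
  by_cases h : i = 0
  · subst h
    have h1 : Measurable fun q : ℕ × ℕ =>
        2 * Nat.pair (Encodable.encode (dl DD [] q.2)) (Nat.pair q.1 q.2) + 1 :=
      measurable_of_countable _
    exact h1.comp (measurable_fst.prodMk ((measurable_pi_apply 0).comp measurable_snd))
  · simp only [kb, h, if_false]
    exact (measurable_pi_apply i).comp measurable_snd

theorem kb_inj {k k' : ℕ} {v v' : ℕ → ℕ} (h : kb k v = kb k' v') : k = k' ∧ v = v' := by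
  have h0 := congrFun h 0
  simp only [kb, if_true] at h0
  have h1 : Nat.pair (Encodable.encode (dl DD [] (v 0))) (Nat.pair k (v 0)) =
      Nat.pair (Encodable.encode (dl DD [] (v' 0))) (Nat.pair k' (v' 0)) := by omega
  rw [Nat.pair_eq_pair, Nat.pair_eq_pair] at h1
  refine ⟨h1.2.1, funext fun i => ?_⟩
  by_cases hi : i = 0
  · rw [hi]; exact h1.2.2
  · have := congrFun h i
    simpa [kb, hi] using this

theorem kb_E0st (k : ℕ) (v : ℕ → ℕ) : E0st DD v (kb k v) := by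
  refine E0st_of_agree (n := 1) ?_ fun i hi => ?_
  · change dl DD [] (v 0) = dl DD [] (kb k v 0)
    have h : kb k v 0 = 2 * Nat.pair (Encodable.encode (dl DD [] (v 0))) (Nat.pair k (v 0)) + 1 := by
      simp [kb]
    rw [h, dl_odd Evn_DD [] (a := 2 * Nat.pair (Encodable.encode (dl DD [] (v 0)))
      (Nat.pair k (v 0)) + 1) (by omega), dec_code (dl_mem DD_nonempty _ _)]
  · have : i ≠ 0 := by omega
    simp [kb, this]

/-- a real of the degree of `x` which codes `k` and `x` -/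
def ka (k : ℕ) (x : ℕ → Bool) : ℕ → Bool := fun n =>
  if n < k then true else if n = k then false else x (n - k - 1)

theorem ka_meas : Measurable fun q : ℕ × (ℕ → Bool) => ka q.1 q.2 := by
  refine measurable_from_prod_countable_right fun k => ?_
  refine measurable_pi_iff.2 fun n => ?_
  unfold ka
  by_cases h : n < k
  · simp only [h, if_true]
    exact measurable_const
  · by_cases h' : n = k
    · simp only [h', lt_irrefl, if_false, if_true]
      exact measurable_const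
    · simp only [h, h', if_false]
      exact measurable_pi_apply _

theorem ka_ge (k : ℕ) (x : ℕ → Bool) (i : ℕ) : ka k x (k + 1 + i) = x i := by
  unfold ka
  rw [if_neg (by omega), if_neg (by omega)]
  congr 1
  omega

theorem ka_inj {k k' : ℕ} {x x' : ℕ → Bool} (h : ka k x = ka k' x') : k = k' ∧ x = x' := by
  have h1 : k = k' := by
    rcases lt_trichotomy k k' with h2 | h2 | h2
    · have := congrFun h k
      simp [ka, h2] at this
    · exact h2
    · have := congrFun h k'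
      simp [ka, h2] at this
  subst h1
  refine ⟨rfl, funext fun i => ?_⟩
  rw [← ka_ge k x i, h, ka_ge]

theorem ka_TE (hS : S_SHF) (k : ℕ) (x : ℕ → Bool) : TE x (ka k x) :=
  ⟨hS _ _ (k + 1) 0 fun i => by rw [ka_ge, Nat.zero_add],
    hS _ _ 0 (k + 1) fun i => by rw [ka_ge, Nat.zero_add]⟩

/-! ### The correspondence of the classes -/

/-- the class of `v` corresponds to the degree of `x` -/
def Rl (ψ : ℕ → (ℕ → ℕ) → (ℕ → Bool)) (x : ℕ → Bool) (v : ℕ → ℕ) : Prop :=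
  (InZ DD v ∧ (∀ n u, ¬ InZ DD u → ¬ TE (r0 v) (ψ n u)) ∧ TE x (r0 v)) ∨
  (InZ DD v ∧ ∃ n u, ¬ InZ DD u ∧ TE (r0 v) (ψ n u) ∧ TE x (ψ (n + 1) u)) ∨
  (¬ InZ DD v ∧ TE x (ψ 0 v))

section
variable {ψ : ℕ → (ℕ → ℕ) → (ℕ → Bool)}

theorem Rl_TE (hR : S_RED) {x y : ℕ → Bool} {v : ℕ → ℕ} (h : Rl ψ x v) (h' : TE x y) :
    Rl ψ y v := by
  rcases h with ⟨h1, h2, h3⟩ | ⟨h1, n, u, h2, h3, h4⟩ | ⟨h1, h2⟩
  · exact Or.inl ⟨h1, h2, TE_trans hR (TE_symm h') h3⟩
  · exact Or.inr (Or.inl ⟨h1, n, u, h2, h3, TE_trans hR (TE_symm h') h4⟩)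
  · exact Or.inr (Or.inr ⟨h1, TE_trans hR (TE_symm h') h2⟩)

variable (hψ : ∀ n n' v v', TE (ψ n v) (ψ n' v') ↔ (n = n' ∧ E0st DD v v'))
include hψ

theorem Rl_RR (hR : S_RED) {x : ℕ → Bool} {v w : ℕ → ℕ} (h : Rl ψ x v)
    (h' : RR v w) : Rl ψ x w := by
  rcases h' with ⟨g1, g2, g3⟩ | ⟨g1, g2, g3⟩
  · rcases h with ⟨h1, h2, h3⟩ | ⟨h1, n, u, h2, h3, h4⟩ | ⟨h1, h2⟩
    · exact Or.inl ⟨g2, fun n u hu hc => h2 n u hu (TE_trans hR g3 hc), TE_trans hR h3 g3⟩
    · exact Or.inr (Or.inl ⟨g2, n, u, h2, TE_trans hR (TE_symm g3) h3, h4⟩)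
    · exact absurd g1 h1
  · rcases h with ⟨h1, h2, h3⟩ | ⟨h1, n, u, h2, h3, h4⟩ | ⟨h1, h2⟩
    · exact absurd h1 g1
    · exact absurd h1 g1
    · exact Or.inr (Or.inr ⟨g2, TE_trans hR h2 ((hψ 0 0 v w).2 ⟨rfl, g3⟩)⟩)

theorem Rl_iff (hR : S_RED) {x y : ℕ → Bool} {v w : ℕ → ℕ} (h : Rl ψ x v) (h' : Rl ψ y w) :
    TE x y ↔ RR v w := by
  rcases h with ⟨h1, h2, h3⟩ | ⟨h1, n, u, h2, h3, h4⟩ | ⟨h1, h2⟩ <;>
  rcases h' with ⟨h1', h2', h3'⟩ | ⟨h1', n', u', h2', h3', h4'⟩ | ⟨h1', h2'⟩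
  · constructor
    · intro h
      exact Or.inl ⟨h1, h1', TE_trans hR (TE_symm h3) (TE_trans hR h h3')⟩
    · rintro (⟨_, _, h⟩ | ⟨g, _⟩)
      · exact TE_trans hR h3 (TE_trans hR h (TE_symm h3'))
      · exact absurd h1 g
  · constructor
    · intro h
      exact absurd (TE_trans hR (TE_symm h3) (TE_trans hR h h4')) (h2 _ _ h2')
    · rintro (⟨_, _, h⟩ | ⟨g, _⟩)
      · exact absurd (TE_trans hR h h3') (h2 _ _ h2')
      · exact absurd h1 g
  · constructor
    · intro h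
      exact absurd (TE_trans hR (TE_symm h3) (TE_trans hR h h2')) (h2 _ _ h1')
    · rintro (⟨_, g, h⟩ | ⟨g, _⟩)
      · exact absurd g h1'
      · exact absurd h1 g
  · constructor
    · intro h
      exact absurd (TE_trans hR (TE_symm h3') (TE_trans hR (TE_symm h) h4)) (h2' _ _ h2)
    · rintro (⟨_, _, h⟩ | ⟨g, _⟩)
      · exact absurd (TE_trans hR (TE_symm h) h3) (h2' _ _ h2)
      · exact absurd h1 g
  · constructor
    · intro h
      have h5 := (hψ _ _ _ _).1 (TE_trans hR (TE_symm h4) (TE_trans hR h h4'))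
      have h6 : TE (ψ n u) (ψ n' u') := (hψ _ _ _ _).2 ⟨by omega, h5.2⟩
      exact Or.inl ⟨h1, h1', TE_trans hR h3 (TE_trans hR h6 (TE_symm h3'))⟩
    · rintro (⟨_, _, h⟩ | ⟨g, _⟩)
      · have h5 := (hψ _ _ _ _).1 (TE_trans hR (TE_symm h3) (TE_trans hR h h3'))
        have h6 : TE (ψ (n + 1) u) (ψ (n' + 1) u') := (hψ _ _ _ _).2 ⟨by omega, h5.2⟩
        exact TE_trans hR h4 (TE_trans hR h6 (TE_symm h4'))
      · exact absurd h1 g
  · constructor
    · intro h
      have h5 := (hψ _ _ _ _).1 (TE_trans hR (TE_symm h4) (TE_trans hR h h2'))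
      omega
    · rintro (⟨_, g, _⟩ | ⟨g, _⟩)
      · exact absurd g h1'
      · exact absurd h1 g
  · constructor
    · intro h
      exact absurd (TE_trans hR (TE_symm h3') (TE_trans hR (TE_symm h) h2)) (h2' _ _ h1)
    · rintro (⟨g, _, _⟩ | ⟨_, g, _⟩)
      · exact absurd g h1
      · exact absurd h1' g
  · constructor
    · intro h
      have h5 := (hψ _ _ _ _).1 (TE_trans hR (TE_symm h2) (TE_trans hR h h4'))
      omega
    · rintro (⟨g, _, _⟩ | ⟨_, g, _⟩)
      · exact absurd g h1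
      · exact absurd h1' g
  · constructor
    · intro h
      have h5 := (hψ _ _ _ _).1 (TE_trans hR (TE_symm h2) (TE_trans hR h h2'))
      exact Or.inr ⟨h1, h1', h5.2⟩
    · rintro (⟨g, _, _⟩ | ⟨_, _, g⟩)
      · exact absurd g h1
      · exact TE_trans hR h2 (TE_trans hR ((hψ 0 0 v w).2 ⟨rfl, g⟩) (TE_symm h2'))

end

/-! ### The isomorphism -/

/-- the Borel isomorphism -/
theorem exists_iso (hR : S_RED) (hS : S_SHF) (hM : S_MR) (hMD : S_MD) (hMR : S_MRED)
    (hZ : MeasurableSet {v : ℕ → ℕ | InZ DD v}) (hRho : S_RHO) (hSB : S_SB)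
    {ψ : ℕ → (ℕ → ℕ) → (ℕ → Bool)} (mψ : Measurable (fun q : ℕ × (ℕ → ℕ) => ψ q.1 q.2))
    (iψ : ∀ n n' v v', ψ n v = ψ n' v' → n = n' ∧ v = v')
    (hψ : ∀ n n' v v', TE (ψ n v) (ψ n' v') ↔ (n = n' ∧ E0st DD v v'))
    (G : Type) [Group G] [Countable G] [MulAction G (ℕ → ℕ)]
    (hc : ∀ g : G, Continuous (fun y : ℕ → ℕ => g • y))
    (hG : ∀ v w, (∃ g : G, g • v = w) ↔ RR v w) :
    ∃ Φ : (ℕ → Bool) ≃ᵐ (ℕ → ℕ), ∀ x, Rl ψ x (Φ x) := by
  classical
  obtain ⟨Ws, ρ1, ρ2, m0, m1, m2, w1, w2⟩ := hRho ψ mψ iψ hZ hMR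
  let p : (ℕ → Bool) → (ℕ → ℕ) := fun x =>
    if x ∈ Ws then (if ρ1 x = 0 then ρ2 x else dx (ψ (ρ1 x - 1) (ρ2 x))) else dx x
  let r : (ℕ → ℕ) → (ℕ → Bool) := fun v =>
    if InZ DD v then (if r0 v ∈ Ws then ψ (ρ1 (r0 v) + 1) (ρ2 (r0 v)) else r0 v) else ψ 0 v
  have mp : Measurable p := by
    refine Measurable.ite m0 (Measurable.ite (measurableSet_eq_fun m1 measurable_const) m2 ?_) hMD
    refine hMD.comp (mψ.comp (Measurable.prodMk ?_ m2))
    exact (measurable_of_countable fun n : ℕ => n - 1).comp m1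
  have mr : Measurable r := by
    refine Measurable.ite hZ (Measurable.ite (hM.1 m0) ?_ hM.1) ?_
    · refine mψ.comp (Measurable.prodMk ?_ (m2.comp hM.1))
      exact (measurable_of_countable fun n : ℕ => n + 1).comp (m1.comp hM.1)
    · exact mψ.comp (measurable_const.prodMk measurable_id)
  have rdx : ∀ x, r0 (dx x) = x := fun x => hM.2 _ x (Val_dx x)
  have zdx : ∀ x, InZ DD (dx x) := fun x => ⟨_, Val_dx x⟩
  have hp : ∀ x, Rl ψ x (p x) := by
    intro x
    by_cases hx : x ∈ Ws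
    · obtain ⟨g1, g2⟩ := w1 x hx
      by_cases h0 : ρ1 x = 0
      · have : p x = ρ2 x := by simp [p, hx, h0]
        rw [this]
        rw [h0] at g2
        exact Or.inr (Or.inr ⟨g1, g2⟩)
      · have : p x = dx (ψ (ρ1 x - 1) (ρ2 x)) := by simp [p, hx, h0]
        rw [this]
        refine Or.inr (Or.inl ⟨zdx _, ρ1 x - 1, ρ2 x, g1, ?_, ?_⟩)
        · rw [rdx]; exact TE_refl hS _
        · rw [show ρ1 x - 1 + 1 = ρ1 x by omega]; exact g2
    · have : p x = dx x := by simp [p, hx]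
      rw [this]
      refine Or.inl ⟨zdx _, fun n u hu => ?_, ?_⟩
      · rw [rdx]; exact w2 x hx n u hu
      · rw [rdx]; exact TE_refl hS _
  have hr : ∀ v, Rl ψ (r v) v := by
    intro v
    by_cases hv : InZ DD v
    · by_cases hx : r0 v ∈ Ws
      · have : r v = ψ (ρ1 (r0 v) + 1) (ρ2 (r0 v)) := by simp [r, hv, hx]
        rw [this]
        obtain ⟨g1, g2⟩ := w1 _ hx
        exact Or.inr (Or.inl ⟨hv, _, _, g1, g2, TE_refl hS _⟩)
      · have : r v = r0 v := by simp [r, hv, hx]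
        rw [this]
        exact Or.inl ⟨hv, fun n u hu => w2 _ hx n u hu, TE_refl hS _⟩
    · have : r v = ψ 0 v := by simp [r, hv]
      rw [this]
      exact Or.inr (Or.inr ⟨hv, TE_refl hS _⟩)
  have hrp : ∀ x, TE (r (p x)) x := fun x =>
    (Rl_iff hψ hR (hr (p x)) (hp x)).2 ((RR_equiv hR hS).refl _)
  have hpr : ∀ v, RR (p (r v)) v := fun v =>
    (Rl_iff hψ hR (hp (r v)) (hr v)).1 (TE_refl hS _)
  have ex1 : ∀ x, ∃ e, Red e (r (p x)) x := fun x => (hrp x).1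
  obtain ⟨en, hen⟩ := exists_surjective_nat G
  have ex2 : ∀ v, ∃ m, en m • p (r v) = v := by
    intro v
    obtain ⟨g, hg⟩ := (hG _ _).2 (hpr v)
    obtain ⟨m, rfl⟩ := hen g
    exact ⟨m, hg⟩
  have mk1 : Measurable fun x => Nat.find (ex1 x) := by
    refine measurable_find ex1 fun e => ?_
    exact (hMR e).preimage ((mr.comp mp).prodMk measurable_id)
  have mk2 : Measurable fun v => Nat.find (ex2 v) := by
    refine measurable_find ex2 fun m => ?_
    exact measurableSet_eq_fun ((hc (en m)).measurable.comp (mp.comp mr)) measurable_id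
  refine hSB (Rl ψ) (fun x => kb (Nat.find (ex1 x)) (p x)) (fun v => ka (Nat.find (ex2 v)) (r v))
    (kb_meas.comp (mk1.prodMk mp)) (ka_meas.comp (mk2.prodMk mr)) ?_ ?_ ?_ ?_
  · intro x x' h
    obtain ⟨h1, h2⟩ := kb_inj h
    have g1 := Nat.find_spec (ex1 x)
    have g2 := Nat.find_spec (ex1 x')
    rw [← h1, ← h2] at g2
    exact g1.unique g2
  · intro v v' h
    obtain ⟨h1, h2⟩ := ka_inj h
    have g1 := Nat.find_spec (ex2 v)
    have g2 := Nat.find_spec (ex2 v')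
    rw [← h1, ← h2] at g2
    exact g1.symm.trans g2
  · intro x
    exact Rl_RR hψ hR (hp x) (RR_of_E0st hM hS (kb_E0st _ _))
  · intro v
    exact Rl_TE hR (hr v) (ka_TE hS _ _)

end Pool.Agent.H634.TC
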