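import Pool.Agent.H634.TC.Asm3

set_option autoImplicit false

/-!
Assembly, part 4: the theorem.
-/

namespace Pool.Agent.H634.TC

open Nat.Partrec (Code)
open Pool.Agent.Helper227 (pre S1 chi)

theorem lift_ind (x : ℕ → Bool) :
    (PFun.lift ((Jp x).indicator (fun _ => (1 : ℕ))) : ℕ →. ℕ) = chi (jb x) := by
  classical
  funext n
  change Part.some _ = Part.some _
  congr 1
  by_cases h : n ∈ Jp x
  · simp [jb, h]
  · simp [jb, h]

/-- the jumps of Turing comparable reals -/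
theorem jb_le (hR : S_RED) (hJ : S_JRE) (hU : S_JRU) (hC : S_COL) {x y : ℕ → Bool}
    (h : TR x y) : Nat.RecursiveIn {chi (jb x)} (chi (jb y)) := by
  classical
  obtain ⟨f, hf, hf2⟩ := hJ y
  have hf' : Nat.RecursiveIn {chi x} f := Nat.RecursiveIn.subst hf (by
    intro g hg
    rw [Set.mem_singleton_iff] at hg
    rw [hg]
    exact (hR x y).2 h)
  obtain ⟨e, he⟩ := hU x (Jp y) ⟨f, hf', hf2⟩
  refine hC _ _ e fun n => ?_
  simp only [jb]
  congr 1
  exact propext (he n)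

/-- recursiveness is transitive -/
theorem rec_trans {f g h : ℕ →. ℕ} (h1 : Nat.RecursiveIn {g} f) (h2 : Nat.RecursiveIn {h} g) :
    Nat.RecursiveIn {h} f := Nat.RecursiveIn.subst h1 (by
  intro k hk
  rw [Set.mem_singleton_iff] at hk
  rw [hk]
  exact h2)

/-- the theorem -/
theorem main_of (hR : S_RED) (hS : S_SHF) (h1 : S_ND) (h2 : S_NC) (h3 : S_BLK) (h4 : S_CD)
    (hM : S_MR) (hMD : S_MD) (hMR : S_MRED) (hZ : S_MZ) (hRho : S_RHO) (hSB : S_SB)
    (hJ : S_JRE) (hU : S_JRU) (hC : S_COL) (hA : S_DGA) (hB : S_DGB) (hDC : S_DGC)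
    (k1 : S_EX1) (k2 : S_EX2) (k3 : S_KRN) (k4 : S_DCL) (k5 : S_KCL) (k6 : S_KCT) (k7 : S_SWP)
    (k8 : S_GRP) :
    ∃ (G : Type) (_ : Group G) (_ : Countable G) (_ : MulAction G (ℕ → ℕ)),
      (∀ g : G, Continuous (fun y : ℕ → ℕ => g • y)) ∧
      ∃ Φ : (ℕ → Bool) ≃ᵐ (ℕ → ℕ),
        (∀ x y : ℕ → Bool,
          (RecursiveIn {PFun.lift (fun n => (x n).toNat)} (PFun.lift (fun n => (y n).toNat)) ∧
           RecursiveIn {PFun.lift (fun n => (y n).toNat)} (PFun.lift (fun n => (x n).toNat)))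
            ↔ ∃ g : G, g • Φ x = Φ y) ∧
        ∃ z : ℕ → Bool, ∀ x : ℕ → Bool,
          RecursiveIn {PFun.lift (fun n => (x n).toNat)} (PFun.lift (fun n => (z n).toNat)) →
          ∃ A : Set ℕ,
            (∃ f : ℕ →. ℕ, RecursiveIn {PFun.lift (fun n => (x n).toNat)} f ∧
                ∀ n, n ∈ A ↔ (f n).Dom) ∧
            (∀ B : Set ℕ,
              (∃ f : ℕ →. ℕ, RecursiveIn {PFun.lift (fun n => (x n).toNat)} f ∧
                  ∀ n, n ∈ B ↔ (f n).Dom) →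
              RecursiveIn {PFun.lift (A.indicator (fun _ => (1 : ℕ)))}
                (PFun.lift (B.indicator (fun _ => (1 : ℕ))))) ∧
            RecursiveIn {PFun.lift (A.indicator (fun _ => (1 : ℕ)))} (PFun.lift (Φ x)) ∧
            RecursiveIn {PFun.lift (Φ x)} (PFun.lift (A.indicator (fun _ => (1 : ℕ)))) := by
  classical
  obtain ⟨ψ, c, mψ, iψ, hψ, hcψ⟩ := psi2 hR hS h1 h2 h3 h4
  obtain ⟨G, i1, i2, i3, hc, hG⟩ := group_action hR hS hM k1 k2 k3 k4 k5 k6 k7 k8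
  obtain ⟨Φ, hΦ⟩ := exists_iso hR hS hM hMD hMR (hZ k4) hRho hSB mψ iψ hψ G hc hG
  have key : ∀ x y : ℕ → Bool, RecursiveIn {(PFun.lift (fun n => (x n).toNat) : ℕ →. ℕ)}
      (PFun.lift (fun n => (y n).toNat) : ℕ →. ℕ) ↔ TR x y := fun x y => by
    rw [RecursiveIn.iff_nat]
    exact hR x y
  refine ⟨G, i1, i2, i3, hc, Φ, fun x y => ?_, c, fun x hx => ?_⟩
  · rw [key, key, hG]
    exact Rl_iff hψ hR (hΦ x) (hΦ y)
  · rw [key] at hx
    have hbad : ∀ n u, ¬ TE x (ψ n u) := fun n u h =>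
      hcψ n u (TR_trans hR h.2 hx)
    rcases hΦ x with ⟨⟨y', hy'⟩, -, g3⟩ | ⟨-, n, u, -, -, g⟩ | ⟨-, g⟩
    rotate_left
    · exact absurd g (hbad _ _)
    · exact absurd g (hbad _ _)
    obtain ⟨y, rfl⟩ := hy'.1
    rw [hM.2 _ y hy'] at g3
    obtain ⟨-, N, K, -, hNK⟩ := hy'
    refine ⟨Jp x, ?_, ?_, ?_, ?_⟩
    · obtain ⟨f, hf, hf2⟩ := hJ x
      exact ⟨f, by rw [RecursiveIn.iff_nat]; exact hf, hf2⟩
    · rintro B ⟨f, hf, hf2⟩
      rw [RecursiveIn.iff_nat] at hf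
      obtain ⟨e, he⟩ := hU x B ⟨f, hf, hf2⟩
      rw [RecursiveIn.iff_nat, lift_ind]
      have hB' : (PFun.lift (B.indicator (fun _ => (1 : ℕ))) : ℕ →. ℕ) =
          chi (fun n => decide (n ∈ B)) := by
        funext n
        change Part.some _ = Part.some _
        congr 1
        by_cases h : n ∈ B
        · simp [h]
        · simp [h]
      rw [hB']
      refine hC _ _ e fun n => ?_
      simp only [jb]
      congr 1
      exact propext (he n)
    · rw [RecursiveIn.iff_nat, lift_ind]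
      exact rec_trans (hB (Φ x) (dx y) N K hNK) (rec_trans (hA y) (jb_le hR hJ hU hC g3.1))
    · rw [RecursiveIn.iff_nat, lift_ind]
      exact rec_trans (jb_le hR hJ hU hC g3.2) (rec_trans (hDC y)
        (hB (dx y) (Φ x) K N fun i => (hNK i).symm))

end Pool.Agent.H634.TC
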