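import Pool.Agent.H634.TC.Defs

set_option autoImplicit false

/-!
Basic facts.
-/

namespace Pool.Agent.H634.TC

open Nat.Partrec (Code)
open Pool.Agent.Helper227 (pre S1 chi)

/-! ### Indices -/

theorem W_prim {α : Type*} [Primcodable α] {s e y : α → ℕ} (hs : Primrec s) (he : Primrec e)
    (hy : Primrec y) : Primrec fun a => W (s a) (e a) (y a) := by
  have h1 : Primrec fun a =>
      Code.evaln (s a) (Denumerable.ofNat Code (e a)) (y a) :=
    Code.primrec_evaln.comp ((hs.pair ((Primrec.ofNat Code).comp he)).pair hy)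
  exact Primrec.option_isSome.comp h1

/-- computably enumerable predicates have indices -/
theorem exists_index {α : Type*} [Primcodable α] {p : α → Prop} (hp : S1 p) :
    ∃ e : ℕ, ∀ a : α, p a ↔ ∃ s, W s e (Encodable.encode a) = true := by
  obtain ⟨c, hc⟩ := Nat.Partrec.Code.exists_code.1 hp.re
  refine ⟨Encodable.encode c, fun a => ?_⟩
  unfold W
  rw [Denumerable.ofNat_encode]
  have h1 : (c.eval (Encodable.encode a)).Dom ↔ p a := by
    rw [hc]
    simp [Part.assert]
  rw [← h1]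
  constructor
  · intro h
    obtain ⟨y, hy⟩ := Part.dom_iff_mem.1 h
    obtain ⟨k, hk⟩ := Nat.Partrec.Code.evaln_complete.1 hy
    exact ⟨k, Option.isSome_iff_exists.2 ⟨y, hk⟩⟩
  · rintro ⟨n, hn⟩
    obtain ⟨y, hy⟩ := Option.isSome_iff_exists.1 hn
    exact Part.dom_iff_mem.2 ⟨y, Nat.Partrec.Code.evaln_sound hy⟩

/-- every c.e. graph is one of the graphs `GE e` -/
theorem exists_GE {G : List Bool × ℕ × ℕ → Prop} (hG : S1 G) :
    ∃ e, ∀ σ n m, GE e σ n m ↔ G (σ, n, m) := by
  obtain ⟨e, he⟩ := exists_index hG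
  exact ⟨e, fun σ n m => (he (σ, n, m)).symm⟩

theorem GE_S1 (e : ℕ) : S1 fun z : List Bool × ℕ × ℕ => GE e z.1 z.2.1 z.2.2 := by
  unfold GE
  refine S1.ex (S1.of_prim ?_)
  exact Primrec.eq.comp (W_prim Primrec.snd (Primrec.const e)
    (Primrec.encode.comp (Primrec.fst))) (Primrec.const true)

/-- the values of a functional are unique -/
theorem Red.unique {e : ℕ} {x y y' : ℕ → Bool} (h : Red e x y) (h' : Red e x y') : y = y' := by
  funext n
  have h1 := (h' n _).1 ((h n _).2 rfl)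
  cases h2 : y n <;> cases h3 : y' n <;> simp_all

/-! ### Lists and sequences -/

@[simp] theorem pr_length (v : ℕ → ℕ) (n : ℕ) : (pr v n).length = n := by simp [pr]

@[simp] theorem pr_zero (v : ℕ → ℕ) : pr v 0 = [] := rfl

theorem pr_succ (v : ℕ → ℕ) (n : ℕ) : pr v (n + 1) = pr v n ++ [v n] := by
  simp [pr, List.range_succ]

theorem pr_eq_iff {v w : ℕ → ℕ} {n : ℕ} : pr v n = pr w n ↔ ∀ i < n, v i = w i := by
  simp [pr, List.map_inj_left]

theorem pr_getElem? (v : ℕ → ℕ) {n i : ℕ} (h : i < n) : (pr v n)[i]? = some (v i) := by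
  simp [pr, h]

theorem pr_getD (v : ℕ → ℕ) {n i : ℕ} (h : i < n) : (pr v n).getD i 0 = v i := by
  simp [List.getD, pr_getElem? v h]

theorem take_pr (v : ℕ → ℕ) {m n : ℕ} (h : m ≤ n) : (pr v n).take m = pr v m := by
  rw [pr, pr, ← List.map_take, List.take_range, min_eq_left h]

theorem pr_mem_Tr {C : Set (ℕ → ℕ)} {y : ℕ → ℕ} (h : y ∈ C) (n : ℕ) : pr y n ∈ Tr C :=
  ⟨y, h, by rw [pr_length]⟩

theorem nil_mem_Tr {C : Set (ℕ → ℕ)} (h : C.Nonempty) : [] ∈ Tr C := by
  obtain ⟨y, hy⟩ := h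
  exact ⟨y, hy, rfl⟩

theorem mem_Tr_of_append {C : Set (ℕ → ℕ)} {σ τ : List ℕ} (h : σ ++ τ ∈ Tr C) : σ ∈ Tr C := by
  obtain ⟨y, hy, h⟩ := h
  refine ⟨y, hy, ?_⟩
  have h1 := congrArg (List.take σ.length) h
  rw [take_pr _ (by simp), List.take_left] at h1
  exact h1

theorem app_lt {σ : List ℕ} {u : ℕ → ℕ} {n : ℕ} (h : n < σ.length) :
    app σ u n = σ.getD n 0 := by simp [app, h]

theorem app_ge (σ : List ℕ) (u : ℕ → ℕ) (i : ℕ) : app σ u (σ.length + i) = u i := by
  simp [app]

@[simp] theorem pr_app (σ : List ℕ) (u : ℕ → ℕ) : pr (app σ u) σ.length = σ := by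
  apply List.ext_getElem
  · simp
  · intro i h1 h2
    simp [pr, app, h2]

@[simp] theorem dr_app (σ : List ℕ) (u : ℕ → ℕ) : dr σ.length (app σ u) = u := by
  funext i
  exact app_ge σ u i

theorem app_pr (v : ℕ → ℕ) (n : ℕ) : app (pr v n) (dr n v) = v := by
  funext i
  unfold app dr
  rw [pr_length]
  split_ifs with h
  · exact pr_getD v h
  · congr 1
    omega

theorem app_dr {v : ℕ → ℕ} {s : List ℕ} (h : pr v s.length = s) :
    app s (dr s.length v) = v := by
  conv_lhs => rw [← h]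
  rw [pr_length]
  exact app_pr v _

/-! ### States -/

variable {D : Set (ℕ → ℕ)}

theorem dec_mem (hD : D.Nonempty) (a : ℕ) : dec D a ∈ Tr D := by
  unfold dec
  split_ifs with h
  · exact h
  · exact nil_mem_Tr hD

/-- the odd letters which jump to `ρ` -/
theorem dec_code {ρ : List ℕ} (hρ : ρ ∈ Tr D) (n : ℕ) :
    dec D (2 * Nat.pair (Encodable.encode ρ) n + 1) = ρ := by
  unfold dec
  have h : (2 * Nat.pair (Encodable.encode ρ) n + 1) / 2 = Nat.pair (Encodable.encode ρ) n := by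
    omega
  rw [h]
  simp [hρ]

theorem dl_mem (hD : D.Nonempty) (τ : List ℕ) (a : ℕ) : dl D τ a ∈ Tr D := by
  unfold dl
  split_ifs with h
  · exact h
  · exact dec_mem hD a

theorem dl_odd (hE : Evn D) (τ : List ℕ) {a : ℕ} (ha : a % 2 = 1) : dl D τ a = dec D a := by
  unfold dl
  rw [if_neg]
  rintro ⟨y, hy, h⟩
  have h1 := congrArg (fun l => l.getD τ.length 0) h
  simp only [List.length_append, List.length_singleton, pr_getD y (Nat.lt_succ_self _)] at h1
  simp only [List.getD, List.getElem?_append_right (le_refl _), Nat.sub_self] at h1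
  simp at h1
  have := hE y hy τ.length
  omega

theorem dl_normal {τ : List ℕ} {a : ℕ} (h : τ ++ [a] ∈ Tr D) : dl D τ a = τ ++ [a] := by
  unfold dl
  rw [if_pos h]

@[simp] theorem stl_nil : stl D [] = [] := rfl

theorem stl_append_singleton (s : List ℕ) (a : ℕ) : stl D (s ++ [a]) = dl D (stl D s) a := by
  simp [stl]

theorem st_eq_stl (v : ℕ → ℕ) (n : ℕ) : st D v n = stl D (pr v n) := by
  induction n with
  | zero => rfl
  | succ n ih => rw [pr_succ, stl_append_singleton, ← ih]; rfl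

theorem st_mem (hD : D.Nonempty) (v : ℕ → ℕ) (n : ℕ) : st D v n ∈ Tr D := by
  cases n with
  | zero => exact nil_mem_Tr hD
  | succ n => exact dl_mem hD _ _

theorem stl_mem (hD : D.Nonempty) (s : List ℕ) : stl D s ∈ Tr D := by
  rcases List.eq_nil_or_concat s with rfl | ⟨t, a, rfl⟩
  · exact nil_mem_Tr hD
  · rw [List.concat_eq_append, stl_append_singleton]
    exact dl_mem hD _ _

/-- the same state and the same letters from `n` on give the same states from `n` on -/
theorem st_agree {v w : ℕ → ℕ} {n : ℕ} (h : st D v n = st D w n) (h1 : ∀ i, n ≤ i → w i = v i)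
    {i : ℕ} (hi : n ≤ i) : st D v i = st D w i := by
  induction i, hi using Nat.le_induction with
  | base => exact h
  | succ i hi ih =>
    change dl D (st D v i) (v i) = dl D (st D w i) (w i)
    rw [ih, h1 i hi]

theorem E0st_of_agree {v w : ℕ → ℕ} {n : ℕ} (h : st D v n = st D w n)
    (h1 : ∀ i, n ≤ i → w i = v i) : E0st D v w :=
  ⟨n, fun i hi => ⟨(h1 i hi).symm, st_agree h h1 hi⟩⟩

theorem E0st_refl (v : ℕ → ℕ) : E0st D v v := ⟨0, fun _ _ => ⟨rfl, rfl⟩⟩

theorem E0st_symm {v w : ℕ → ℕ} (h : E0st D v w) : E0st D w v := by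
  obtain ⟨N, h⟩ := h
  exact ⟨N, fun i hi => ⟨(h i hi).1.symm, (h i hi).2.symm⟩⟩

theorem E0st_trans {u v w : ℕ → ℕ} (h : E0st D u v) (h' : E0st D v w) : E0st D u w := by
  obtain ⟨N, h⟩ := h
  obtain ⟨N', h'⟩ := h'
  exact ⟨max N N', fun i hi => ⟨((h i (le_trans (le_max_left _ _) hi)).1).trans
    (h' i (le_trans (le_max_right _ _) hi)).1, ((h i (le_trans (le_max_left _ _) hi)).2).trans
    (h' i (le_trans (le_max_right _ _) hi)).2⟩⟩

/-- the states of a sequence which reads `y` -/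
theorem st_of_val {v y : ℕ → ℕ} (hy : y ∈ D) {N K : ℕ} (h : st D v N = pr y K)
    (h1 : ∀ i, v (N + i) = y (K + i)) (i : ℕ) : st D v (N + i) = pr y (K + i) := by
  induction i with
  | zero => exact h
  | succ i ih =>
    change dl D (st D v (N + i)) (v (N + i)) = _
    rw [ih, h1, dl_normal]
    · rw [← pr_succ]; rfl
    · rw [← pr_succ]; exact pr_mem_Tr hy _

theorem Val.unique {v y y' : ℕ → ℕ} (h : Val D v y) (h' : Val D v y') : y = y' := by
  obtain ⟨hy, N, K, h1, h2⟩ := h
  obtain ⟨hy', N', K', h1', h2'⟩ := h'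
  have h3 : ∀ j, pr y (K + N' + j) = pr y' (K' + N + j) := by
    intro j
    have e1 := st_of_val hy h1 h2 (N' + j)
    have e2 := st_of_val hy' h1' h2' (N + j)
    rw [show N' + (N + j) = N + (N' + j) by omega] at e2
    rw [e1] at e2
    rw [Nat.add_assoc, Nat.add_assoc]
    exact e2
  have h4 : K + N' = K' + N := by
    have := congrArg List.length (h3 0)
    simpa using this
  funext i
  have h5 := h3 (i + 1)
  rw [h4] at h5
  exact pr_eq_iff.1 h5 i (by omega)

theorem Val.of_E0st {v w y : ℕ → ℕ} (h : Val D v y) (h' : E0st D v w) : Val D w y := by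
  obtain ⟨hy, N, K, h1, h2⟩ := h
  obtain ⟨M, hM⟩ := h'
  refine ⟨hy, N + M, K + M, ?_, fun i => ?_⟩
  · rw [← (hM _ (by omega)).2, st_of_val hy h1 h2]
  · rw [← (hM _ (by omega)).1, Nat.add_assoc, h2, Nat.add_assoc]

theorem Val_self {y : ℕ → ℕ} (hy : y ∈ D) : Val D y y := ⟨hy, 0, 0, rfl, fun _ => rfl⟩

theorem InZ.of_E0st {v w : ℕ → ℕ} (h : InZ D v) (h' : E0st D v w) : InZ D w := by
  obtain ⟨y, hy⟩ := h
  exact ⟨y, hy.of_E0st h'⟩

/-- sequences in the kernel of the cylinder of `s` -/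
theorem Val_of_Ker {s : List ℕ} {v : ℕ → ℕ} (hv : v ∈ Ker D s) :
    Val D v (app (stl D s) (dr s.length v)) := by
  refine ⟨hv.2, s.length, (stl D s).length, ?_, fun i => ?_⟩
  · rw [st_eq_stl, hv.1, pr_app]
  · rw [app_ge]; rfl

theorem exists_Ker {v y : ℕ → ℕ} (h : Val D v y) :
    ∃ s : List ℕ, v ∈ Ker D s ∧ app (stl D s) (dr s.length v) = y := by
  obtain ⟨hy, N, K, h1, h2⟩ := h
  have h3 : app (stl D (pr v N)) (dr (pr v N).length v) = y := by
    rw [← st_eq_stl, h1, pr_length]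
    have h4 : dr N v = dr K y := by
      funext i
      exact h2 i
    rw [h4, app_pr]
  exact ⟨pr v N, ⟨by rw [pr_length], by rw [h3]; exact hy⟩, h3⟩

/-- subsets of `D` are thin -/
theorem thin_of_subset (hE : Evn D) {K : Set (ℕ → ℕ)} (hK : K ⊆ D) : Thin K := by
  intro σ _
  have h0 : {a : ℕ | a % 2 = 1 ∧ σ ++ [a] ∈ Tr K} = (∅ : Set ℕ) := ?_
  · rw [h0]
    exact Set.finite_empty
  ext a
  simp only [Set.mem_setOf_eq, Set.mem_empty_iff_false, iff_false, not_and]
  rintro ha ⟨y, hy, h⟩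
  have h1 := congrArg (fun l => l.getD σ.length 0) h
  simp only [List.length_append, List.length_singleton, pr_getD y (Nat.lt_succ_self _)] at h1
  simp only [List.getD, List.getElem?_append_right (le_refl _), Nat.sub_self] at h1
  simp at h1
  have := hE y (hK hy) σ.length
  omega

theorem Evn_DD : Evn DD := by
  rintro _ ⟨x, rfl⟩ n
  unfold dx
  split_ifs <;> omega

theorem DD_nonempty : DD.Nonempty := ⟨_, fun _ => false, rfl⟩

theorem dx_even (x : ℕ → Bool) (n : ℕ) : dx x (2 * n) = 2 * (x n).toNat := by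
  unfold dx
  rw [if_pos (by omega), show 2 * n / 2 = n by omega]

theorem dx_odd (x : ℕ → Bool) (n : ℕ) : dx x (2 * n + 1) = 2 * cx x n := by
  unfold dx
  rw [if_neg (by omega), show (2 * n + 1) / 2 = n by omega]

theorem cx_eq_zero {x : ℕ → Bool} {n : ℕ} : cx x n = 0 ↔ n ∉ Jp x := by
  unfold cx Jp
  split_ifs with h
  · simp only [Set.mem_setOf_eq]
    constructor
    · intro h1; omega
    · intro h1; exact absurd h h1
  · simp only [Set.mem_setOf_eq, true_iff]
    exact h

theorem cx_eq_succ {x : ℕ → Bool} {n k : ℕ} :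
    cx x n = 1 + k ↔ Cert x n k ∧ ∀ k' < k, ¬ Cert x n k' := by
  classical
  unfold cx
  split_ifs with h
  · constructor
    · intro h1
      have h2 : Nat.find h = k := by omega
      have := (Nat.find_eq_iff h).1 h2
      exact ⟨this.1, fun k' hk' => this.2 k' hk'⟩
    · rintro ⟨h1, h2⟩
      have : Nat.find h = k := (Nat.find_eq_iff h).2 ⟨h1, fun k' hk' => h2 k' hk'⟩
      omega
  · constructor
    · intro h1; omega
    · rintro ⟨h1, _⟩
      exact absurd ⟨k, h1⟩ h

theorem dx_injective : Function.Injective dx := by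
  intro x y h
  funext n
  have h1 := congrFun h (2 * n)
  rw [dx_even, dx_even] at h1
  cases h2 : x n <;> cases h3 : y n <;> simp_all

end Pool.Agent.H634.TC
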