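import Pool.Graph.R_seed8.Helper227.Use

set_option autoImplicit false

/-!
Turing equivalence as the orbit equivalence relation of a continuous action on Baire space, with
the jump: definitions.
-/

namespace Pool.Agent.H634.TC

open Nat.Partrec (Code)
open Pool.Agent.Helper227 (pre S1 chi)

/-! ### Computations with an oracle -/

/-- stage `s` of the `e`-th c.e. set -/
def W (s e y : ℕ) : Bool := (Code.evaln s (Denumerable.ofNat Code e) y).isSome

/-- the `e`-th c.e. set contains `(σ, n, m)` -/
def GE (e : ℕ) (σ : List Bool) (n m : ℕ) : Prop := ∃ r, W r e (Encodable.encode (σ, n, m)) = true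

/-- the `e`-th computation with oracle `x` gives the value `m` at the argument `n` -/
def Ev (e : ℕ) (x : ℕ → Bool) (n m : ℕ) : Prop := ∃ s, GE e (pre x s) n m

/-- the `e`-th functional takes `x` to `y` -/
def Red (e : ℕ) (x y : ℕ → Bool) : Prop := ∀ n m, Ev e x n m ↔ m = (y n).toNat

/-- Turing reducibility `y ≤ x` -/
def TR (x y : ℕ → Bool) : Prop := ∃ e, Red e x y

/-- Turing equivalence -/
def TE (x y : ℕ → Bool) : Prop := TR x y ∧ TR y x

/-- `k = ⟨s, r⟩` certifies that `n = ⟨e, i⟩` belongs to the jump of `x` -/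
def Cert (x : ℕ → Bool) (n k : ℕ) : Prop :=
  W k.unpair.2 n.unpair.1 (Encodable.encode (pre x k.unpair.1, n.unpair.2, 0)) = true

/-- the jump of `x` -/
def Jp (x : ℕ → Bool) : Set ℕ := {n | ∃ k, Cert x n k}

open Classical in
/-- `0` outside the jump, and one more than the least certificate inside -/
noncomputable def cx (x : ℕ → Bool) (n : ℕ) : ℕ := if h : ∃ k, Cert x n k then 1 + Nat.find h else 0

/-- the code of the jump of `x` in Baire space -/
noncomputable def dx (x : ℕ → Bool) (n : ℕ) : ℕ :=
  if n % 2 = 0 then 2 * (x (n / 2)).toNat else 2 * cx x (n / 2)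

/-! ### Sequences of natural numbers -/

/-- initial segment of length `n` -/
def pr (v : ℕ → ℕ) (n : ℕ) : List ℕ := (List.range n).map v

/-- the tree of a set of sequences -/
def Tr (C : Set (ℕ → ℕ)) : Set (List ℕ) := {σ | ∃ y ∈ C, pr y σ.length = σ}

/-- `σ` followed by `u` -/
def app (σ : List ℕ) (u : ℕ → ℕ) : ℕ → ℕ := fun n => if n < σ.length then σ.getD n 0 else u (n - σ.length)

/-- the tail of `v` from `n` on -/
def dr (n : ℕ) (v : ℕ → ℕ) : ℕ → ℕ := fun i => v (n + i)

/-! ### The automaton of a set `D` of sequences of even numbers -/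

open Classical in
/-- the state to which the letter `a` jumps -/
noncomputable def dec (D : Set (ℕ → ℕ)) (a : ℕ) : List ℕ :=
  if (Encodable.decode (α := List ℕ) (a / 2).unpair.1).getD [] ∈ Tr D then
    (Encodable.decode (α := List ℕ) (a / 2).unpair.1).getD [] else []

open Classical in
/-- the transition function: a normal step if possible, otherwise a jump -/
noncomputable def dl (D : Set (ℕ → ℕ)) (τ : List ℕ) (a : ℕ) : List ℕ :=
  if τ ++ [a] ∈ Tr D then τ ++ [a] else dec D a

/-- the state after reading the first `n` letters of `v` -/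
noncomputable def st (D : Set (ℕ → ℕ)) (v : ℕ → ℕ) : ℕ → List ℕ
  | 0 => []
  | n + 1 => dl D (st D v n) (v n)

/-- the state after reading the word `s` -/
noncomputable def stl (D : Set (ℕ → ℕ)) (s : List ℕ) : List ℕ := s.foldl (dl D) []

/-- from some point on `v` reads the element `y` of `D` -/
def Val (D : Set (ℕ → ℕ)) (v y : ℕ → ℕ) : Prop :=
  y ∈ D ∧ ∃ N K, st D v N = pr y K ∧ ∀ i, v (N + i) = y (K + i)

/-- `v` reads an element of `D` from some point on -/
def InZ (D : Set (ℕ → ℕ)) (v : ℕ → ℕ) : Prop := ∃ y, Val D v y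

/-- eventually the same letters and the same states -/
def E0st (D : Set (ℕ → ℕ)) (v w : ℕ → ℕ) : Prop := ∃ N, ∀ i, N ≤ i → v i = w i ∧ st D v i = st D w i

/-- all entries are even -/
def Evn (D : Set (ℕ → ℕ)) : Prop := ∀ y ∈ D, ∀ n, y n % 2 = 0

/-- below every node there are only finitely many odd letters in the tree -/
def Thin (C : Set (ℕ → ℕ)) : Prop := ∀ σ ∈ Tr C, {a : ℕ | a % 2 = 1 ∧ σ ++ [a] ∈ Tr C}.Finite

/-- the kernel of the cylinder of `s` -/
def Ker (D : Set (ℕ → ℕ)) (s : List ℕ) : Set (ℕ → ℕ) :=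
  {v | pr v s.length = s ∧ app (stl D s) (dr s.length v) ∈ D}

/-! ### The set `D` of codes of jumps -/

/-- the set of codes of jumps -/
def DD : Set (ℕ → ℕ) := Set.range dx

open Classical in
/-- the real read by `v` -/
noncomputable def r0 (v : ℕ → ℕ) : ℕ → Bool := fun n =>
  decide (∃ N, ∀ i, N ≤ i → (st DD v i)[2 * n]? = some 2)

/-- the orbit equivalence relation which we want -/
def RR (v w : ℕ → ℕ) : Prop :=
  (InZ DD v ∧ InZ DD w ∧ TE (r0 v) (r0 w)) ∨ (¬ InZ DD v ∧ ¬ InZ DD w ∧ E0st DD v w)

end Pool.Agent.H634.TC
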