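import Pool.Agent.H634.TC.Stm

set_option autoImplicit false

/-!
Project TJ, leaf ACC: uniform universality of the jump.
-/

namespace Pool.Agent.H634.TC

open Nat.Partrec (Code)
open Pool.Agent.Helper227 (pre S1 chi)

theorem t_ACC : S_ACC := by
  intro H hH
  have hG : S1 (fun z : List Bool × ℕ × ℕ => H (z.1, z.2.1) ∧ z.2.2 = 0) := by
    refine S1.and ?_ ?_
    · exact S1.comp (f := fun z : List Bool × ℕ × ℕ => (z.1, z.2.1)) hH
        (Primrec.pair Primrec.fst (Primrec.fst.comp Primrec.snd))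
    · exact S1.of_prim (Primrec.eq.comp (Primrec.snd.comp Primrec.snd) (Primrec.const 0))
  obtain ⟨e, he⟩ := exists_GE hG
  refine ⟨e, fun x i => ?_⟩
  have h1 : Nat.pair e i ∈ Jp x ↔ ∃ k, Cert x (Nat.pair e i) k := Iff.rfl
  rw [h1]
  constructor
  · rintro ⟨s, hs⟩
    obtain ⟨r, hr⟩ := (he (pre x s) i 0).2 ⟨hs, rfl⟩
    refine ⟨Nat.pair s r, ?_⟩
    unfold Cert
    rw [Nat.unpair_pair, Nat.unpair_pair]
    exact hr
  · rintro ⟨k, hk⟩
    unfold Cert at hk
    rw [Nat.unpair_pair] at hk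
    exact ⟨k.unpair.1, ((he (pre x k.unpair.1) i 0).1 ⟨k.unpair.2, hk⟩).1⟩

end Pool.Agent.H634.TC
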