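import Pool.Agent.H634.TC.Stm

set_option autoImplicit false

namespace Pool.Agent.H634.TC

open Pool.Agent.Helper227 (pre)

namespace BLKL

/-- finitely many dense monotone requirements can be met -/
theorem meet {ι : Type} (l : List ι) (R : ι → List Bool → List Bool → Prop)
    (hd : ∀ i ∈ l, ∀ p q, ∃ p' q', p <+: p' ∧ q <+: q' ∧ R i p' q')
    (hm : ∀ i ∈ l, ∀ p q p' q', R i p q → p <+: p' → q <+: q' → R i p' q') :
    ∀ p q, ∃ p' q', p <+: p' ∧ q <+: q' ∧ ∀ i ∈ l, R i p' q' := by
  induction l with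
  | nil =>
    intro p q
    exact ⟨p, q, List.prefix_refl _, List.prefix_refl _, by simp⟩
  | cons i l ih =>
    intro p q
    obtain ⟨p', q', hp, hq, h⟩ := ih (fun j hj => hd j (List.mem_cons_of_mem _ hj))
      (fun j hj => hm j (List.mem_cons_of_mem _ hj)) p q
    obtain ⟨p'', q'', hp', hq', h'⟩ := hd i List.mem_cons_self p' q'
    refine ⟨p'', q'', hp.trans hp', hq.trans hq', ?_⟩
    intro j hj
    rcases List.mem_cons.mp hj with rfl | hj'
    · exact h'
    · exact hm j hj _ _ _ _ (h j hj') hp' hq'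

theorem append_prefix {σ p σ' : List Bool} (h : σ ++ p <+: σ') : ∃ p', p <+: p' ∧ σ' = σ ++ p' := by
  obtain ⟨t, ht⟩ := h
  exact ⟨p ++ t, List.prefix_append _ _, by rw [← ht, List.append_assoc]⟩

theorem prefix_append_left {σ p p' : List Bool} (h : p <+: p') : σ ++ p <+: σ ++ p' := by
  obtain ⟨t, ht⟩ := h
  exact ⟨t, by rw [← ht, List.append_assoc]⟩

theorem step {P : ℕ → List Bool → List Bool → Prop} {Q : ℕ → List Bool → Prop}
    (h1 : ∀ n σ τ, ∃ σ' τ', σ <+: σ' ∧ τ <+: τ' ∧ P n σ' τ')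
    (h2 : ∀ n σ τ σ' τ', P n σ τ → σ <+: σ' → τ <+: τ' → P n σ' τ')
    (h3 : ∀ n σ, ∃ σ', σ <+: σ' ∧ Q n σ')
    (h4 : ∀ n σ σ', Q n σ → σ <+: σ' → Q n σ') (n : ℕ) (U : List (List Bool)) :
    ∃ pq : List Bool × List Bool, pq.1.length = pq.2.length ∧ [false] <+: pq.1 ∧ [true] <+: pq.2 ∧
      ∀ a ≤ n, ∀ σ ∈ U, ∀ τ ∈ U, P a (σ ++ pq.1) (τ ++ pq.2) ∧ Q a (σ ++ pq.1) ∧ Q a (σ ++ pq.2) := by
  obtain ⟨p, q, hp, hq, h⟩ := meet ((List.range (n + 1)).product (U.product U))
    (fun x p q => P x.1 (x.2.1 ++ p) (x.2.2 ++ q) ∧ Q x.1 (x.2.1 ++ p) ∧ Q x.1 (x.2.1 ++ q))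
    (by
      rintro ⟨a, σ, τ⟩ _ p q
      simp only
      obtain ⟨σ1, τ1, hσ1, hτ1, hP⟩ := h1 a (σ ++ p) (τ ++ q)
      obtain ⟨p1, hp1, rfl⟩ := append_prefix hσ1
      obtain ⟨q1, hq1, rfl⟩ := append_prefix hτ1
      obtain ⟨σ2, hσ2, hQ2⟩ := h3 a (σ ++ p1)
      obtain ⟨p2, hp2, rfl⟩ := append_prefix hσ2
      obtain ⟨σ3, hσ3, hQ3⟩ := h3 a (σ ++ q1)
      obtain ⟨q2, hq2, rfl⟩ := append_prefix hσ3
      exact ⟨p2, q2, hp1.trans hp2, hq1.trans hq2,
        h2 a _ _ _ _ hP (prefix_append_left hp2) (prefix_append_left hq2), hQ2, hQ3⟩)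
    (by
      rintro ⟨a, σ, τ⟩ _ p q p' q' ⟨hP, hQ, hQ'⟩ hp hq
      exact ⟨h2 a _ _ _ _ hP (prefix_append_left hp) (prefix_append_left hq),
        h4 a _ _ hQ (prefix_append_left hp), h4 a _ _ hQ' (prefix_append_left hq)⟩)
    [false] [true]
  -- padding
  set p' := p ++ List.replicate (q.length - p.length) false with hp'
  set q' := q ++ List.replicate (p.length - q.length) false with hq'
  have hpp : p <+: p' := List.prefix_append _ _
  have hqq : q <+: q' := List.prefix_append _ _
  refine ⟨(p', q'), ?_, hp.trans hpp, hq.trans hqq, ?_⟩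
  · simp only [hp', hq', List.length_append, List.length_replicate]
    omega
  · intro a ha σ hσ τ hτ
    obtain ⟨hP, hQ, hQ'⟩ := h (a, σ, τ) (by
      rw [List.pair_mem_product, List.pair_mem_product, List.mem_range]
      exact ⟨by omega, hσ, hτ⟩)
    exact ⟨h2 a _ _ _ _ hP (prefix_append_left hpp) (prefix_append_left hqq),
      h4 a _ _ hQ (prefix_append_left hpp), h4 a _ _ hQ' (prefix_append_left hqq)⟩

/-- the list of all words of the stage `n` -/
def UU (f : ℕ → List (List Bool) → List Bool × List Bool) : ℕ → List (List Bool)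
  | 0 => [[]]
  | n + 1 => (UU f n).map (· ++ (f n (UU f n)).1) ++ (UU f n).map (· ++ (f n (UU f n)).2)

/-- block number `n` -/
def bl (f : ℕ → List (List Bool) → List Bool × List Bool) (n : ℕ) (b : Bool) : List Bool :=
  if b then (f n (UU f n)).2 else (f n (UU f n)).1

/-- concatenation of the first `n` blocks -/
def SS (f : ℕ → List (List Bool) → List Bool × List Bool) (z : ℕ → Bool) : ℕ → List Bool
  | 0 => []
  | n + 1 => SS f z n ++ bl f n (z n)

/-- its length -/
def ln (f : ℕ → List (List Bool) → List Bool × List Bool) : ℕ → ℕ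
  | 0 => 0
  | n + 1 => ln f n + (f n (UU f n)).1.length

section
variable (f : ℕ → List (List Bool) → List Bool × List Bool)

theorem SS_mem (z : ℕ → Bool) (n : ℕ) : SS f z n ∈ UU f n := by
  induction n with
  | zero => simp [SS, UU]
  | succ n ih =>
    rw [SS, UU, List.mem_append, List.mem_map, List.mem_map]
    cases h : z n
    · left
      exact ⟨_, ih, by simp [bl]⟩
    · right
      exact ⟨_, ih, by simp [bl]⟩

theorem SS_len (hf : ∀ n U, (f n U).1.length = (f n U).2.length) (z : ℕ → Bool) (n : ℕ) :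
    (SS f z n).length = ln f n := by
  induction n with
  | zero => rfl
  | succ n ih =>
    rw [SS, ln, List.length_append, ih, bl]
    split_ifs
    · rw [hf]
    · rfl

theorem SS_prefix (z : ℕ → Bool) {m n : ℕ} (h : m ≤ n) : SS f z m <+: SS f z n := by
  induction n, h using Nat.le_induction with
  | base => exact List.prefix_refl _
  | succ n _ ih => exact ih.trans (List.prefix_append _ _)

theorem le_ln (hf : ∀ n U, [false] <+: (f n U).1) (n : ℕ) : n ≤ ln f n := by
  induction n with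
  | zero => exact Nat.zero_le _
  | succ n ih =>
    have h1 := (hf n (UU f n)).length_le
    rw [List.length_singleton] at h1
    rw [ln]
    omega

/-- the embedding -/
def psi (z : ℕ → Bool) (i : ℕ) : Bool := (SS f z (i + 1)).getD i false

theorem getD_prefix {σ τ : List Bool} (h : σ <+: τ) {i : ℕ} (hi : i < σ.length) :
    τ.getD i false = σ.getD i false := by
  obtain ⟨t, rfl⟩ := h
  rw [List.getD_append _ _ _ _ hi]

theorem psi_eq (hf : ∀ n U, (f n U).1.length = (f n U).2.length) (hf' : ∀ n U, [false] <+: (f n U).1)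
    (z : ℕ → Bool) (n i : ℕ) (hi : i < ln f n) : psi f z i = (SS f z n).getD i false := by
  rw [psi]
  have h1 : i < ln f (i + 1) := lt_of_lt_of_le (Nat.lt_succ_self i) (le_ln f hf' (i + 1))
  rcases le_total (i + 1) n with h | h
  · exact (getD_prefix (SS_prefix f z h) (by rw [SS_len f hf]; exact h1)).symm
  · exact getD_prefix (SS_prefix f z h) (by rw [SS_len f hf]; exact hi)

theorem pre_psi (hf : ∀ n U, (f n U).1.length = (f n U).2.length)
    (hf' : ∀ n U, [false] <+: (f n U).1) (z : ℕ → Bool) (n : ℕ) :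
    pre (psi f z) (ln f n) = SS f z n := by
  apply List.ext_getElem
  · rw [Pool.Agent.Helper227.length_pre, SS_len f hf]
  · intro i h1 h2
    rw [Pool.Agent.Helper227.getElem_pre]
    rw [Pool.Agent.Helper227.length_pre] at h1
    rw [psi_eq f hf hf' z n i h1, List.getD_eq_getElem _ _ h2]

theorem SS_loc (n : ℕ) : IsLocallyConstant (fun z : ℕ → Bool => SS f z n) := by
  induction n with
  | zero => exact IsLocallyConstant.const _
  | succ n ih =>
    have h1 : IsLocallyConstant (fun z : ℕ → Bool => z n) :=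
      (IsLocallyConstant.iff_continuous _).mpr (continuous_apply n)
    exact ih.comp₂ h1 (fun s b => s ++ bl f n b)

theorem psi_cont : Continuous (psi f) := by
  apply continuous_pi
  intro i
  exact (((SS_loc f (i + 1)).comp (fun s => s.getD i false))).continuous

theorem psi_first (hf : ∀ n U, (f n U).1.length = (f n U).2.length)
    (hf' : ∀ n U, [false] <+: (f n U).1) (hf'' : ∀ n U, [true] <+: (f n U).2)
    (z : ℕ → Bool) (n : ℕ) : psi f z (ln f n) = z n := by
  have h1 : ln f n < ln f (n + 1) := by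
    have h1 := (hf' n (UU f n)).length_le
    rw [List.length_singleton] at h1
    rw [ln]
    omega
  rw [psi_eq f hf hf' z (n + 1) _ h1, SS, List.getD_append_right _ _ _ _ (by rw [SS_len f hf]),
    SS_len f hf, Nat.sub_self, bl]
  cases h : z n
  · obtain ⟨t, ht⟩ := hf' n (UU f n)
    simp [← ht]
  · obtain ⟨t, ht⟩ := hf'' n (UU f n)
    simp [← ht]

theorem SS_drop (hf : ∀ n U, (f n U).1.length = (f n U).2.length)
    {z z' : ℕ → Bool} {N : ℕ} (h : ∀ n, N ≤ n → z n = z' n) {n : ℕ} (hn : N ≤ n) :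
    (SS f z n).drop (ln f N) = (SS f z' n).drop (ln f N) := by
  induction n, hn using Nat.le_induction with
  | base =>
    rw [List.drop_eq_nil_of_le (by rw [SS_len f hf]), List.drop_eq_nil_of_le (by rw [SS_len f hf])]
  | succ n hn ih =>
    have h1 : ln f N ≤ (SS f z n).length := by
      rw [← SS_len f hf z N]
      exact (SS_prefix f z hn).length_le
    have h2 : ln f N ≤ (SS f z' n).length := by
      rw [← SS_len f hf z' N]
      exact (SS_prefix f z' hn).length_le
    rw [SS, SS, List.drop_append_of_le_length h1, List.drop_append_of_le_length h2, ih, h n hn]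

theorem psi_tail (hf : ∀ n U, (f n U).1.length = (f n U).2.length)
    (hf' : ∀ n U, [false] <+: (f n U).1)
    {z z' : ℕ → Bool} {N : ℕ} (h : ∀ n, N ≤ n → z n = z' n) {i : ℕ} (hi : ln f N ≤ i) :
    psi f z i = psi f z' i := by
  have h0 := le_ln f hf' N
  have h1 := SS_drop f hf h (n := i + 1) (by omega)
  have h2 : ∀ s : List Bool, s.getD i false = (s.drop (ln f N)).getD (i - ln f N) false := by
    intro s
    rw [List.getD_eq_getElem?_getD, List.getD_eq_getElem?_getD, List.getElem?_drop,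
      Nat.add_sub_cancel' hi]
  rw [psi, psi, h2, h2 (SS f z' (i + 1)), h1]

end

end BLKL

open BLKL in
theorem t_BLK : S_BLK := by
  intro P Q h1 h2 h3 h4
  choose f hf using fun (n : ℕ) (U : List (List Bool)) => step h1 h2 h3 h4 n U
  have e1 : ∀ n U, (f n U).1.length = (f n U).2.length := fun n U => (hf n U).1
  have e2 : ∀ n U, [false] <+: (f n U).1 := fun n U => (hf n U).2.1
  have e3 : ∀ n U, [true] <+: (f n U).2 := fun n U => (hf n U).2.2.1
  refine ⟨psi f, psi_cont f, ?_, ?_, ?_, ?_⟩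
  · intro z z' h
    funext n
    rw [← psi_first f e1 e2 e3 z n, ← psi_first f e1 e2 e3 z' n, h]
  · intro z z' n hz hz' a ha
    refine ⟨ln f (n + 1), ?_⟩
    rw [pre_psi f e1 e2, pre_psi f e1 e2, SS, SS, hz, hz']
    have := ((hf n (UU f n)).2.2.2 a ha _ (SS_mem f z n) _ (SS_mem f z' n)).1
    simpa [bl] using this
  · intro z n
    refine ⟨ln f (n + 1), ?_⟩
    rw [pre_psi f e1 e2, SS]
    have := ((hf n (UU f n)).2.2.2 n le_rfl _ (SS_mem f z n) _ (SS_mem f z n)).2
    cases h : z n
    · simpa [bl] using this.1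
    · simpa [bl] using this.2
  · rintro z z' ⟨N, h⟩
    exact ⟨ln f N, fun i hi => psi_tail f e1 e2 h hi⟩

end Pool.Agent.H634.TC
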