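import Pool.Agent.H634.TC.Stm

set_option autoImplicit false

/-!
The codes `cd n v`.
-/

namespace Pool.Agent.H634.TC

namespace CDL

open Classical in
/-- the `i`-th value of the code -/
noncomputable def uu (n : ℕ) (v : ℕ → ℕ) (i : ℕ) : ℕ :=
  Nat.pair n (Nat.pair (v i) (Encodable.encode (st DD v i)))

theorem cd_eq (n : ℕ) (v : ℕ → ℕ) (k : ℕ) : cd n v k = decide (k.unpair.2 = uu n v k.unpair.1) := rfl

theorem cd_pair (n : ℕ) (v : ℕ → ℕ) (i j : ℕ) : cd n v (Nat.pair i j) = decide (j = uu n v i) := by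
  rw [cd_eq, Nat.unpair_pair]

theorem uu_eq {n n' : ℕ} {v v' : ℕ → ℕ} {i : ℕ} :
    uu n v i = uu n' v' i ↔ n = n' ∧ v i = v' i ∧ st DD v i = st DD v' i := by
  unfold uu
  rw [Nat.pair_eq_pair, Nat.pair_eq_pair, Encodable.encode_inj]

theorem uu_of_cd {n n' : ℕ} {v v' : ℕ → ℕ} {i : ℕ}
    (h : cd n v (Nat.pair i (uu n v i)) = cd n' v' (Nat.pair i (uu n v i))) :
    uu n v i = uu n' v' i := by
  rw [cd_pair, cd_pair, decide_eq_true (rfl : uu n v i = uu n v i)] at h
  exact of_decide_eq_true h.symm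

theorem measurable_st (i : ℕ) : Measurable fun v : ℕ → ℕ => Encodable.encode (st DD v i) := by
  induction i with
  | zero => exact measurable_const
  | succ i ih =>
    have h1 : (fun v : ℕ → ℕ => Encodable.encode (st DD v (i + 1))) =
        (fun p : ℕ × ℕ => Encodable.encode
          (dl DD ((Encodable.decode (α := List ℕ) p.1).getD []) p.2)) ∘
          fun v : ℕ → ℕ => (Encodable.encode (st DD v i), v i) := by
      funext v
      simp only [Function.comp_apply, Encodable.encodek, Option.getD_some]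
      rfl
    rw [h1]
    exact Measurable.of_discrete.comp (ih.prodMk (measurable_pi_apply i))

theorem measurable_uu (i : ℕ) : Measurable fun q : ℕ × (ℕ → ℕ) => uu q.1 q.2 i := by
  have h1 : (fun q : ℕ × (ℕ → ℕ) => uu q.1 q.2 i) =
      (fun p : ℕ × ℕ × ℕ => Nat.pair p.1 (Nat.pair p.2.1 p.2.2)) ∘
        fun q : ℕ × (ℕ → ℕ) => (q.1, q.2 i, Encodable.encode (st DD q.2 i)) := rfl
  rw [h1]
  refine Measurable.of_discrete.comp (measurable_fst.prodMk (Measurable.prodMk ?_ ?_))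
  · exact (measurable_pi_apply i).comp measurable_snd
  · exact (measurable_st i).comp measurable_snd

theorem eventually_agree (n : ℕ) (v v' : ℕ → ℕ) (h : E0st DD v v') :
    ∃ N, ∀ k, N ≤ k → cd n v k = cd n v' k := by
  obtain ⟨N0, hN0⟩ := h
  refine ⟨∑ i ∈ Finset.range N0, (Nat.pair i (uu n v i) + Nat.pair i (uu n v' i)) + 1, ?_⟩
  intro k hk
  rw [cd_eq, cd_eq]
  rcases Nat.lt_or_ge k.unpair.1 N0 with hlt | hge
  · have h1 : Nat.pair k.unpair.1 (uu n v k.unpair.1) + Nat.pair k.unpair.1 (uu n v' k.unpair.1) ≤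
        ∑ i ∈ Finset.range N0, (Nat.pair i (uu n v i) + Nat.pair i (uu n v' i)) :=
      Finset.single_le_sum (f := fun i => Nat.pair i (uu n v i) + Nat.pair i (uu n v' i))
        (fun i _ => Nat.zero_le _) (Finset.mem_range.mpr hlt)
    have h2 : k.unpair.2 ≠ uu n v k.unpair.1 := by
      intro hcon
      have h3 := Nat.pair_unpair k
      rw [hcon] at h3
      omega
    have h2' : k.unpair.2 ≠ uu n v' k.unpair.1 := by
      intro hcon
      have h3 := Nat.pair_unpair k
      rw [hcon] at h3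
      omega
    rw [decide_eq_false h2, decide_eq_false h2']
  · have h1 : uu n v k.unpair.1 = uu n v' k.unpair.1 :=
      uu_eq.mpr ⟨rfl, (hN0 _ hge).1, (hN0 _ hge).2⟩
    rw [h1]

end CDL

theorem t_CD : S_CD := by
  refine ⟨?_, ?_, ?_⟩
  · rw [measurable_pi_iff]
    intro k
    have h1 : (fun q : ℕ × (ℕ → ℕ) => cd q.1 q.2 k) =
        (fun j : ℕ => decide (k.unpair.2 = j)) ∘ fun q : ℕ × (ℕ → ℕ) => CDL.uu q.1 q.2 k.unpair.1 :=
      rfl
    rw [h1]
    exact Measurable.of_discrete.comp (CDL.measurable_uu _)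
  · intro n n' v v' h
    have h1 : ∀ i, CDL.uu n v i = CDL.uu n' v' i := fun i => CDL.uu_of_cd (by rw [h])
    exact ⟨(CDL.uu_eq.mp (h1 0)).1, funext fun i => (CDL.uu_eq.mp (h1 i)).2.1⟩
  · intro n n' v v'
    constructor
    · rintro ⟨N, hN⟩
      have h1 : ∀ i, N ≤ i → CDL.uu n v i = CDL.uu n' v' i := fun i hi =>
        CDL.uu_of_cd (hN _ (hi.trans (Nat.left_le_pair _ _)))
      exact ⟨(CDL.uu_eq.mp (h1 N le_rfl)).1, N, fun i hi => (CDL.uu_eq.mp (h1 i hi)).2⟩
    · rintro ⟨rfl, h⟩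
      exact CDL.eventually_agree n v v' h

end Pool.Agent.H634.TC
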