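import Pool.Agent.H634.TC.Stm

set_option autoImplicit false

/-!
Leaf CMP: composition of a functional with a c.e. predicate.
-/

namespace Pool.Agent.H634.TC

open Nat.Partrec (Code)
open Pool.Agent.Helper227 (pre S1 chi length_pre take_pre pre_getD)

namespace CMPL

/-- the composed predicate -/
def H' (a : ℕ) (H : List Bool × ℕ → Prop) (z : List Bool × ℕ) : Prop :=
  ∃ τ : List Bool, H (τ, z.2) ∧ ∀ j < τ.length, ∃ s', s' ≤ z.1.length ∧
    GE a (z.1.take s') j (τ.getD j false).toNat

theorem H'_S1 (a : ℕ) (H : List Bool × ℕ → Prop) (hH : S1 H) : S1 (H' a H) := by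
  unfold H'
  refine S1.ex (p := fun (z : List Bool × ℕ) (τ : List Bool) => H (τ, z.2) ∧
    ∀ j < τ.length, ∃ s', s' ≤ z.1.length ∧ GE a (z.1.take s') j (τ.getD j false).toNat) ?_
  refine S1.and (hH.comp (f := fun x : (List Bool × ℕ) × List Bool => (x.2, x.1.2))
    (Primrec.snd.pair (Primrec.snd.comp Primrec.fst))) ?_
  refine S1.all_lt (p := fun (x : (List Bool × ℕ) × List Bool) (j : ℕ) =>
    ∃ s', s' ≤ x.1.1.length ∧ GE a (x.1.1.take s') j (x.2.getD j false).toNat)
    (f := fun x => x.2.length) ?_ (Primrec.list_length.comp Primrec.snd)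
  refine S1.ex (p := fun (y : ((List Bool × ℕ) × List Bool) × ℕ) (s' : ℕ) =>
    s' ≤ y.1.1.1.length ∧ GE a (y.1.1.1.take s') y.2 (y.1.2.getD y.2 false).toNat) ?_
  have hf : Primrec fun w : (((List Bool × ℕ) × List Bool) × ℕ) × ℕ => w.1.1.1.1 :=
    Primrec.fst.comp (Primrec.fst.comp (Primrec.fst.comp Primrec.fst))
  have ht : Primrec fun w : (((List Bool × ℕ) × List Bool) × ℕ) × ℕ => w.1.1.2 :=
    Primrec.snd.comp (Primrec.fst.comp Primrec.fst)
  have hj : Primrec fun w : (((List Bool × ℕ) × List Bool) × ℕ) × ℕ => w.1.2 :=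
    Primrec.snd.comp Primrec.fst
  have hs : Primrec fun w : (((List Bool × ℕ) × List Bool) × ℕ) × ℕ => w.2 := Primrec.snd
  refine S1.and (S1.of_prim (Primrec.nat_le.comp hs (Primrec.list_length.comp hf))) ?_
  refine (GE_S1 a).comp (f := fun w : (((List Bool × ℕ) × List Bool) × ℕ) × ℕ =>
    (w.1.1.1.1.take w.2, w.1.2, (w.1.1.2.getD w.1.2 false).toNat)) ?_
  refine (Primrec.list_take.comp hs hf).pair (hj.pair ?_)
  exact (Primrec.dom_bool Bool.toNat).comp ((Primrec.list_getD false).comp ht hj)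

theorem H'_iff (a : ℕ) (H : List Bool × ℕ → Prop) (x y : ℕ → Bool) (i : ℕ) (hR : Red a x y) :
    (∃ s, H (pre y s, i)) ↔ ∃ s, H' a H (pre x s, i) := by
  constructor
  · rintro ⟨t, ht⟩
    have h1 : ∀ j, ∃ s, GE a (pre x s) j (y j).toNat := fun j => (hR j _).2 rfl
    choose s hs using h1
    refine ⟨(Finset.range t).sup s, pre y t, ht, fun j hj => ?_⟩
    rw [length_pre] at hj
    have hle : s j ≤ (Finset.range t).sup s := Finset.le_sup (Finset.mem_range.2 hj)
    refine ⟨s j, ?_, ?_⟩
    · change s j ≤ (pre x ((Finset.range t).sup s)).length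
      rw [length_pre]; exact hle
    · change GE a ((pre x ((Finset.range t).sup s)).take (s j)) j ((pre y t).getD j false).toNat
      rw [take_pre x _ _ hle, pre_getD y t j false hj]
      exact hs j
  · rintro ⟨s, τ, hτ, hall⟩
    refine ⟨τ.length, ?_⟩
    have h1 : pre y τ.length = τ := by
      apply List.ext_getElem
      · rw [length_pre]
      · intro j h1 h2
        obtain ⟨s', hs', hge⟩ := hall j h2
        change s' ≤ (pre x s).length at hs'
        rw [length_pre] at hs'
        change GE a ((pre x s).take s') j (τ.getD j false).toNat at hge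
        rw [take_pre x _ _ hs'] at hge
        have h3 := (hR j _).1 ⟨s', hge⟩
        have h4 : τ.getD j false = τ[j] := by simp [List.getD, h2]
        rw [h4] at h3
        have h5 : (pre y τ.length)[j] = y j := by simp [pre]
        rw [h5]
        cases h6 : τ[j] <;> cases h7 : y j <;> simp_all
    rw [h1]
    exact hτ

end CMPL

/-- Leaf CMP -/
theorem t_CMP (h : S_ACC) : S_CMP := by
  intro a H hH
  obtain ⟨e, he⟩ := h (CMPL.H' a H) (CMPL.H'_S1 a H hH)
  exact ⟨e, fun x y i hR => (CMPL.H'_iff a H x y i hR).trans (he x i)⟩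

end Pool.Agent.H634.TC
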