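import Pool.Agent.H634.TC.Stm

set_option autoImplicit false

/-!
The set of codes of jumps is closed.
-/

namespace Pool.Agent.H634.TC

open Nat.Partrec (Code)
open Pool.Agent.Helper227 (pre S1 chi)

namespace DCLL

theorem pre_congr {x y : ℕ → Bool} {s : ℕ} (h : ∀ i < s, x i = y i) : pre x s = pre y s := by
  unfold pre
  refine List.map_congr_left fun i hi => h i (List.mem_range.1 hi)

theorem cert_congr {x y : ℕ → Bool} {n k : ℕ} (h : ∀ i < k.unpair.1, x i = y i) :
    Cert x n k ↔ Cert y n k := by
  unfold Cert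
  rw [pre_congr h]

/-- points of the range close to a point of the closure -/
theorem approx {d : ℕ → ℕ} (hd : d ∈ closure DD) (F : Finset ℕ) :
    ∃ x, ∀ i ∈ F, dx x i = d i := by
  have hU : {v : ℕ → ℕ | ∀ i ∈ F, v i = d i} ∈ nhds d := by
    have hopen : IsOpen {v : ℕ → ℕ | ∀ i ∈ F, v i = d i} := by
      have : {v : ℕ → ℕ | ∀ i ∈ F, v i = d i} = ⋂ i ∈ F, (fun v : ℕ → ℕ => v i) ⁻¹' {d i} := by
        ext v; simp
      rw [this]
      exact isOpen_biInter_finset fun i _ => (isOpen_discrete _).preimage (continuous_apply i)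
    exact hopen.mem_nhds fun i _ => rfl
  obtain ⟨v, hv, x, rfl⟩ := mem_closure_iff_nhds.1 hd _ hU
  exact ⟨x, hv⟩

theorem toNat_inj {a b : Bool} (h : 2 * a.toNat = 2 * b.toNat) : a = b := by
  cases a <;> cases b <;> simp_all

end DCLL

open DCLL

theorem t_DCL : S_DCL := by
  unfold S_DCL
  refine isClosed_of_closure_subset fun d hd => ?_
  set x : ℕ → Bool := fun n => decide (d (2 * n) = 2) with hx
  -- even places
  have hev : ∀ n, d (2 * n) = 2 * (x n).toNat := by
    intro n
    obtain ⟨x', hx'⟩ := approx hd {2 * n}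
    have h1 := hx' (2 * n) (Finset.mem_singleton_self _)
    rw [dx_even] at h1
    cases h : x' n
    · have h2 : d (2 * n) = 0 := by rw [← h1, h]; rfl
      simp [hx, h2]
    · have h2 : d (2 * n) = 2 := by rw [← h1, h]; rfl
      simp [hx, h2]
  have hod : ∀ n, d (2 * n + 1) = 2 * cx x n := by
    intro n
    -- the approximations agree with x
    have key : ∀ k, ∃ x', (∀ i < k, x' i = x i) ∧ 2 * cx x' n = d (2 * n + 1) := by
      intro k
      obtain ⟨x', hx'⟩ := approx hd (insert (2 * n + 1) ((Finset.range k).image fun i => 2 * i))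
      refine ⟨x', fun i hi => ?_, ?_⟩
      · have h1 := hx' (2 * i) (Finset.mem_insert_of_mem
          (Finset.mem_image_of_mem _ (Finset.mem_range.2 hi)))
        rw [dx_even, hev i] at h1
        exact toNat_inj h1
      · have h1 := hx' (2 * n + 1) (Finset.mem_insert_self _ _)
        rw [dx_odd] at h1
        exact h1
    obtain ⟨x₀, -, hx₀⟩ := key 0
    rcases Nat.eq_zero_or_pos (cx x₀ n) with h0 | h0
    · -- never certified
      have hd0 : d (2 * n + 1) = 0 := by rw [← hx₀, h0]
      rw [hd0]
      have : cx x n = 0 := by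
        rw [cx_eq_zero]
        rintro ⟨k, hk⟩
        obtain ⟨x', h1, h2⟩ := key k.unpair.1
        have h3 : cx x' n = 0 := by omega
        rw [cx_eq_zero] at h3
        exact h3 ⟨k, (cert_congr h1).2 hk⟩
      rw [this]
    · obtain ⟨k, hk⟩ : ∃ k, cx x₀ n = 1 + k := ⟨cx x₀ n - 1, by omega⟩
      obtain ⟨x', h1, h2⟩ := key (k + 1)
      have h3 : cx x' n = 1 + k := by omega
      rw [cx_eq_succ] at h3
      have h4 : cx x n = 1 + k := by
        rw [cx_eq_succ]
        refine ⟨(cert_congr fun i hi => h1 i ?_).1 h3.1, fun k' hk' hc =>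
          h3.2 k' hk' ((cert_congr fun i hi => h1 i ?_).2 hc)⟩
        · have := Nat.unpair_left_le k
          omega
        · have := Nat.unpair_left_le k'
          omega
      rw [h4]
      omega
  refine ⟨x, ?_⟩
  funext m
  rcases Nat.even_or_odd' m with ⟨n, rfl | rfl⟩
  · rw [dx_even, hev]
  · rw [dx_odd, hod]

end Pool.Agent.H634.TC
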