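import Pool.Agent.H634.TC.Stm

set_option autoImplicit false

/-!
The code of the jump of `x` is recursive in the jump of `x`.
-/

namespace Pool.Agent.H634.TC

open Nat.Partrec (Code)
open Pool.Agent.Helper227 (pre S1 chi)

namespace DGAL

open Pool.Agent.Helper227

/-- the certificate predicate, with the string `τ` for the real -/
def CC (τ : List Bool) (h k : ℕ) : Prop :=
  W k.unpair.2 h.unpair.1 (Encodable.encode (τ.take k.unpair.1, h.unpair.2, 0)) = true

theorem CC_prim {α : Type*} [Primcodable α] {τ : α → List Bool} {h k : α → ℕ} (hτ : Primrec τ)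
    (hh : Primrec h) (hk : Primrec k) : PrimrecPred fun a => CC (τ a) (h a) (k a) := by
  unfold CC
  have hku : Primrec fun a => (k a).unpair := Primrec.unpair.comp hk
  have hhu : Primrec fun a => (h a).unpair := Primrec.unpair.comp hh
  refine Primrec.eq.comp (W_prim (Primrec.snd.comp hku) (Primrec.fst.comp hhu)
    (Primrec.encode.comp ?_)) (Primrec.const true)
  exact (Primrec.list_take.comp (Primrec.fst.comp hku) hτ).pair
    ((Primrec.snd.comp hhu).pair (Primrec.const 0))

/-- a bit of the real -/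
def G1 (e : ℕ) (z : List Bool × ℕ × ℕ) : Prop :=
  z.2.1 % 2 = 0 ∧ (z.1[Nat.pair e (z.2.1 / 2)]?).map (fun b => 2 * b.toNat) = some z.2.2

/-- not in the jump -/
def G2 (z : List Bool × ℕ × ℕ) : Prop :=
  z.2.1 % 2 = 1 ∧ z.1[z.2.1 / 2]? = some false ∧ z.2.2 = 0

/-- in the jump, with the least certificate -/
def G3 (e : ℕ) (z : List Bool × ℕ × ℕ) : Prop := ∃ τ : List Bool, ∃ k : ℕ,
  (z.2.1 % 2 = 1 ∧ ∀ i < τ.length, z.1[Nat.pair e i]? = some (τ.getD i false)) ∧
  (k ≤ τ.length ∧ z.2.2 = 2 * (1 + k)) ∧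
  CC τ (z.2.1 / 2) k ∧ ∀ k' < k, ¬ CC τ (z.2.1 / 2) k'

theorem G1_S1 (e : ℕ) : S1 (G1 e) := by
  unfold G1
  have h1 : Primrec fun z : List Bool × ℕ × ℕ => z.2.1 := Primrec.fst.comp Primrec.snd
  refine S1.of_prim (PrimrecPred.and ?_ ?_)
  · exact Primrec.eq.comp (Primrec.nat_mod.comp h1 (Primrec.const 2)) (Primrec.const 0)
  · refine Primrec.eq.comp (Primrec.option_map (Primrec.list_getElem?.comp Primrec.fst
      (Primrec₂.natPair.comp (Primrec.const e) (Primrec.nat_div.comp h1 (Primrec.const 2))))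
      ((Primrec.dom_bool (fun b => 2 * b.toNat)).comp Primrec.snd))
      (Primrec.option_some.comp (Primrec.snd.comp Primrec.snd))

theorem G2_S1 : S1 G2 := by
  unfold G2
  have h1 : Primrec fun z : List Bool × ℕ × ℕ => z.2.1 := Primrec.fst.comp Primrec.snd
  refine S1.of_prim (PrimrecPred.and ?_ (PrimrecPred.and ?_ ?_))
  · exact Primrec.eq.comp (Primrec.nat_mod.comp h1 (Primrec.const 2)) (Primrec.const 1)
  · exact Primrec.eq.comp (Primrec.list_getElem?.comp Primrec.fst
      (Primrec.nat_div.comp h1 (Primrec.const 2))) (Primrec.const (some false))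
  · exact Primrec.eq.comp (Primrec.snd.comp Primrec.snd) (Primrec.const 0)

theorem G3_S1 (e : ℕ) : S1 (G3 e) := by
  unfold G3
  refine S1.ex (S1.ex (S1.of_prim ?_))
  have hz : Primrec fun y : ((List Bool × ℕ × ℕ) × List Bool) × ℕ => y.1.1 :=
    Primrec.fst.comp Primrec.fst
  have hσ : Primrec fun y : ((List Bool × ℕ × ℕ) × List Bool) × ℕ => y.1.1.1 :=
    Primrec.fst.comp hz
  have hn : Primrec fun y : ((List Bool × ℕ × ℕ) × List Bool) × ℕ => y.1.1.2.1 :=
    Primrec.fst.comp (Primrec.snd.comp hz)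
  have hm : Primrec fun y : ((List Bool × ℕ × ℕ) × List Bool) × ℕ => y.1.1.2.2 :=
    Primrec.snd.comp (Primrec.snd.comp hz)
  have hτ : Primrec fun y : ((List Bool × ℕ × ℕ) × List Bool) × ℕ => y.1.2 :=
    Primrec.snd.comp Primrec.fst
  have hk : Primrec fun y : ((List Bool × ℕ × ℕ) × List Bool) × ℕ => y.2 := Primrec.snd
  have hh : Primrec fun y : ((List Bool × ℕ × ℕ) × List Bool) × ℕ => y.1.1.2.1 / 2 :=
    Primrec.nat_div.comp hn (Primrec.const 2)
  refine PrimrecPred.and (PrimrecPred.and ?_ ?_) (PrimrecPred.and (PrimrecPred.and ?_ ?_)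
    (PrimrecPred.and ?_ ?_))
  · exact Primrec.eq.comp (Primrec.nat_mod.comp hn (Primrec.const 2)) (Primrec.const 1)
  · refine PP.all_lt (α := ((List Bool × ℕ × ℕ) × List Bool) × ℕ)
      (p := fun y i => y.1.1.1[Nat.pair e i]? = some (y.1.2.getD i false)) ?_
      (Primrec.list_length.comp hτ)
    exact Primrec.eq.comp (Primrec.list_getElem?.comp (hσ.comp Primrec.fst)
      (Primrec₂.natPair.comp (Primrec.const e) Primrec.snd))
      (Primrec.option_some.comp ((Primrec.list_getD false).comp (hτ.comp Primrec.fst) Primrec.snd))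
  · exact Primrec.nat_le.comp hk (Primrec.list_length.comp hτ)
  · exact Primrec.eq.comp hm (Primrec.nat_double.comp (Primrec.nat_add.comp (Primrec.const 1) hk))
  · exact CC_prim hτ hh hk
  · refine PP.all_lt (α := ((List Bool × ℕ × ℕ) × List Bool) × ℕ)
      (p := fun y k' => ¬ CC y.1.2 (y.1.1.2.1 / 2) k') ?_ hk
    exact PrimrecPred.not (CC_prim (hτ.comp Primrec.fst) (hh.comp Primrec.fst) Primrec.snd)

theorem CC_iff {x : ℕ → Bool} {t h k : ℕ} (hk : k ≤ t) : CC (pre x t) h k ↔ Cert x h k := by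
  unfold CC Cert
  rw [take_pre x t k.unpair.1 (le_trans (Nat.unpair_left_le k) hk)]

theorem jb_iff {x : ℕ → Bool} {n : ℕ} : jb x n = true ↔ n ∈ Jp x := by
  classical
  unfold jb
  exact decide_eq_true_iff

theorem jb_false {x : ℕ → Bool} {n : ℕ} : jb x n = false ↔ n ∉ Jp x := by
  rw [← jb_iff, Bool.not_eq_true]

end DGAL

open DGAL in
/-- **DGA.** -/
theorem t_DGA (h1 : S_ACC) : S_DGA := by
  intro x
  obtain ⟨e, he⟩ := h1 (fun z => z.1[z.2]? = some true) (S1.of_prim
    (Primrec.eq.comp (Primrec.list_getElem?.comp Primrec.fst Primrec.snd)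
      (Primrec.const (some true))))
  have hx : ∀ i, jb x (Nat.pair e i) = x i := by
    intro i
    have h2 : x i = true ↔ Nat.pair e i ∈ Jp x := by
      rw [← he x i]
      constructor
      · intro h
        exact ⟨i + 1, by
          show (pre x (i + 1))[i]? = some true
          rw [Pool.Agent.Helper227.pre_getElem? _ _ _ (Nat.lt_succ_self i), h]⟩
      · rintro ⟨s, hs⟩
        by_cases h : i < s
        · have hs' : (pre x s)[i]? = some true := hs
          rw [Pool.Agent.Helper227.pre_getElem? _ _ _ h] at hs'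
          exact Option.some.inj hs'
        · have hs' : (pre x s)[i]? = some true := hs
          rw [Pool.Agent.Helper227.pre_getElem?_none _ _ _ (by omega)] at hs'
          cases hs'
    rw [Bool.eq_iff_iff, jb_iff]
    exact h2.symm
  have hget : ∀ s i b, (pre (jb x) s)[i]? = some b → i < s ∧ jb x i = b := by
    intro s i b h
    by_cases hi : i < s
    · rw [Pool.Agent.Helper227.pre_getElem? _ _ _ hi] at h
      exact ⟨hi, Option.some.inj h⟩
    · rw [Pool.Agent.Helper227.pre_getElem?_none _ _ _ (by omega)] at h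
      cases h
  refine Pool.Agent.Helper227.recIn_of_graph
    (G := fun z => G1 e z ∨ G2 z ∨ G3 e z) ((G1_S1 e).or (G2_S1.or (G3_S1 e))) ?_
  intro n m
  have hmem : m ∈ (PFun.lift (dx x) : ℕ →. ℕ) n ↔ m = dx x n := Part.mem_some_iff
  rw [hmem]
  constructor
  · rintro rfl
    rcases Nat.mod_two_eq_zero_or_one n with hn | hn
    · refine ⟨Nat.pair e (n / 2) + 1, Or.inl ⟨hn, ?_⟩⟩
      show ((pre (jb x) (Nat.pair e (n / 2) + 1))[Nat.pair e (n / 2)]?).map
        (fun b => 2 * b.toNat) = some (dx x n)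
      rw [Pool.Agent.Helper227.pre_getElem? _ _ _ (Nat.lt_succ_self _), hx]
      unfold dx
      rw [if_pos hn]
      rfl
    · have hdx : dx x n = 2 * cx x (n / 2) := by
        unfold dx
        rw [if_neg (by omega)]
      by_cases hJ : n / 2 ∈ Jp x
      · have hc : cx x (n / 2) ≠ 0 := fun h => (cx_eq_zero.1 h) hJ
        obtain ⟨k, hk⟩ : ∃ k, cx x (n / 2) = 1 + k := ⟨cx x (n / 2) - 1, by omega⟩
        obtain ⟨hk1, hk2⟩ := cx_eq_succ.1 hk
        refine ⟨Nat.pair e k, Or.inr (Or.inr ⟨pre x k, k, ⟨hn, ?_⟩, ⟨?_, ?_⟩, ?_, ?_⟩)⟩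
        · intro i hi
          rw [Pool.Agent.Helper227.length_pre] at hi
          show (pre (jb x) (Nat.pair e k))[Nat.pair e i]? = some ((pre x k).getD i false)
          rw [Pool.Agent.Helper227.pre_getElem? _ _ _ (Nat.pair_lt_pair_right e hi), hx,
            Pool.Agent.Helper227.pre_getD _ _ _ _ hi]
        · rw [Pool.Agent.Helper227.length_pre]
        · show dx x n = 2 * (1 + k)
          rw [hdx, hk]
        · exact (CC_iff le_rfl).2 hk1
        · intro k' hk' hcc
          exact hk2 k' hk' ((CC_iff hk'.le).1 hcc)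
      · have hc : cx x (n / 2) = 0 := cx_eq_zero.2 hJ
        refine ⟨n / 2 + 1, Or.inr (Or.inl ⟨hn, ?_, ?_⟩)⟩
        · show (pre (jb x) (n / 2 + 1))[n / 2]? = some false
          rw [Pool.Agent.Helper227.pre_getElem? _ _ _ (Nat.lt_succ_self _), jb_false.2 hJ]
        · show dx x n = 0
          rw [hdx, hc]
  · rintro ⟨s, h | h | h⟩
    · obtain ⟨hn, h⟩ := h
      have h' : ((pre (jb x) s)[Nat.pair e (n / 2)]?).map (fun b => 2 * b.toNat) = some m := h
      obtain ⟨b, hb, hbm⟩ := Option.map_eq_some_iff.1 h'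
      obtain ⟨-, hb2⟩ := hget _ _ _ hb
      rw [hx] at hb2
      unfold dx
      rw [if_pos hn, hb2]
      exact hbm.symm
    · obtain ⟨hn, h, hm⟩ := h
      have hn' : n % 2 = 1 := hn
      obtain ⟨-, hb2⟩ := hget _ _ _ h
      have hJ : n / 2 ∉ Jp x := jb_false.1 hb2
      unfold dx
      rw [if_neg (by omega), cx_eq_zero.2 hJ]
      exact hm
    · obtain ⟨τ, k, ⟨hn, hτ⟩, ⟨hk, hm⟩, hc1, hc2⟩ := h
      have hn' : n % 2 = 1 := hn
      have hτx : τ = pre x τ.length := by
        apply List.ext_getElem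
        · rw [Pool.Agent.Helper227.length_pre]
        · intro i h1 h2
          rw [Pool.Agent.Helper227.getElem_pre]
          obtain ⟨-, h4⟩ := hget _ _ _ (hτ i h1)
          rw [hx] at h4
          rw [h4]
          simp [List.getD, h1]
      rw [hτx] at hc1 hc2
      have h5 : cx x (n / 2) = 1 + k := by
        refine cx_eq_succ.2 ⟨(CC_iff hk).1 hc1, fun k' hk' h6 => hc2 k' hk' ?_⟩
        exact (CC_iff (le_trans hk'.le hk)).2 h6
      unfold dx
      rw [if_neg (by omega), h5]
      exact hm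

end Pool.Agent.H634.TC
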