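import Pool.Agent.H634.TC.Stm

set_option autoImplicit false

namespace Pool.Agent.H634.TC

namespace DGBL

theorem primF (L : List ℕ) (N : ℕ) :
    Nat.Primrec (fun p : ℕ => if (Nat.unpair p).1 < N then L.getD (Nat.unpair p).1 0 else
      (Nat.unpair p).2) := by
  refine Primrec.nat_iff.1 (Primrec.ite ?_ ?_ ?_)
  · exact Primrec.nat_lt.comp (Primrec.fst.comp Primrec.unpair) (Primrec.const N)
  · exact (Primrec.list_getD 0).comp (Primrec.const L) (Primrec.fst.comp Primrec.unpair)
  · exact Primrec.snd.comp Primrec.unpair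

end DGBL

theorem t_DGB : S_DGB := by
  intro v y N K h
  have hi : Nat.RecursiveIn {(PFun.lift y : ℕ →. ℕ)} (fun n : ℕ => Part.some (n - N + K)) :=
    Nat.Primrec.recursiveIn (Primrec.nat_iff.1 (Primrec.nat_add.comp
      (Primrec.nat_sub.comp Primrec.id (Primrec.const N)) (Primrec.const K)))
  have hy : Nat.RecursiveIn {(PFun.lift y : ℕ →. ℕ)} (fun n : ℕ => Part.some (y (n - N + K))) := by
    refine (Nat.RecursiveIn.comp (Nat.RecursiveIn.oracle (PFun.lift y) (Set.mem_singleton _))
      hi).of_eq fun n => ?_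
    exact Part.bind_some _ _
  have hid : Nat.RecursiveIn {(PFun.lift y : ℕ →. ℕ)} (fun n : ℕ => Part.some n) :=
    Nat.Primrec.recursiveIn (Primrec.nat_iff.1 Primrec.id)
  have hF : Nat.RecursiveIn {(PFun.lift y : ℕ →. ℕ)} (fun p : ℕ => Part.some
      (if (Nat.unpair p).1 < N then ((List.range N).map v).getD (Nat.unpair p).1 0 else
        (Nat.unpair p).2)) := Nat.Primrec.recursiveIn (DGBL.primF _ N)
  refine (Nat.RecursiveIn.comp hF (Nat.RecursiveIn.pair hid hy)).of_eq fun n => ?_
  simp only [Seq.seq, Part.map_eq_map, Part.map_some, Part.bind_some]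
  refine (Part.bind_some _ _).trans ?_
  change Part.some _ = Part.some (v n)
  congr 1
  rw [Nat.unpair_pair]
  by_cases hn : n < N
  · rw [if_pos hn]
    simp [List.getD, hn]
  · rw [if_neg hn]
    have h1 := h (n - N)
    rw [show N + (n - N) = n by omega, show K + (n - N) = n - N + K by omega] at h1
    exact h1.symm

end Pool.Agent.H634.TC
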