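import Pool.Agent.H634.TC.Stm

set_option autoImplicit false

namespace Pool.Agent.H634.TC

open Nat.Partrec (Code)
open Pool.Agent.Helper227 (pre S1 chi)

/-- composition of a total oracle with primitive recursive functions on both sides -/
theorem DGCL.prim_oracle_prim {O : Set (ℕ →. ℕ)} {f g h : ℕ → ℕ}
    (hf : Nat.RecursiveIn O (fun n => Part.some (f n))) (hg : Primrec g) (hh : Primrec h) :
    Nat.RecursiveIn O (fun n => Part.some (h (f (g n)))) := by
  have hg' : Nat.RecursiveIn O (fun n : ℕ => Part.some (g n)) :=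
    Nat.Primrec.recursiveIn (Primrec.nat_iff.1 hg)
  have hh' : Nat.RecursiveIn O (fun n : ℕ => Part.some (h n)) :=
    Nat.Primrec.recursiveIn (Primrec.nat_iff.1 hh)
  have h1 : Nat.RecursiveIn O (fun n : ℕ => Part.some (f (g n))) :=
    (Nat.RecursiveIn.comp hf hg').of_eq fun n => Part.bind_some _ _
  exact (Nat.RecursiveIn.comp hh' h1).of_eq fun n => Part.bind_some _ _

theorem t_DGC : S_DGC := by
  intro x
  have ho : Nat.RecursiveIn {(PFun.lift (dx x) : ℕ →. ℕ)} (fun n => Part.some (dx x n)) :=
    Nat.RecursiveIn.oracle (PFun.lift (dx x) : ℕ →. ℕ) (Set.mem_singleton _)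
  have hg : Primrec (fun n : ℕ => 2 * n + 1) :=
    Primrec.succ.comp (Primrec.nat_mul.comp (Primrec.const 2) Primrec.id)
  have hh : Primrec (fun n : ℕ => if n = 0 then 0 else 1) :=
    Primrec.ite (Primrec.eq.comp Primrec.id (Primrec.const 0)) (Primrec.const 0) (Primrec.const 1)
  refine (DGCL.prim_oracle_prim ho hg hh).of_eq fun n => ?_
  show Part.some _ = Part.some _
  congr 1
  rw [dx_odd]
  by_cases h : n ∈ Jp x
  · have hc : cx x n ≠ 0 := fun h0 => cx_eq_zero.1 h0 h
    have hj : jb x n = true := by simp [jb, h]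
    rw [if_neg (by omega), hj]
    rfl
  · have hc : cx x n = 0 := cx_eq_zero.2 h
    have hj : jb x n = false := by simp [jb, h]
    rw [if_pos (by omega), hj]
    rfl

theorem t_COL : S_COL := by
  intro z w e hw
  have ho : Nat.RecursiveIn {chi z} (fun n => Part.some (z n).toNat) :=
    Nat.RecursiveIn.oracle (chi z) (Set.mem_singleton _)
  have hg : Primrec (fun n : ℕ => Nat.pair e n) := Primrec₂.natPair.comp (Primrec.const e) Primrec.id
  refine (DGCL.prim_oracle_prim ho hg Primrec.id).of_eq fun n => ?_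
  show Part.some _ = Part.some _
  rw [hw n]
  rfl

end Pool.Agent.H634.TC
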