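import Pool.Agent.H634.TC.Stm

set_option autoImplicit false

namespace Pool.Agent.H634.TC

namespace EX1L

/-- the letters which may be used -/
def Lset (D C' : Set (ℕ → ℕ)) (σ ρ : List ℕ) : Set ℕ :=
  {a | a % 2 = 1 ∧ dec D a = ρ ∧ σ ++ [a] ∉ Tr C'}

theorem Lset_infinite {D C' : Set (ℕ → ℕ)} {σ ρ : List ℕ} (hT : Thin C') (hσ : σ ∈ Tr C')
    (hρ : ρ ∈ Tr D) : (Lset D C' σ ρ).Infinite := by
  have h1 : (Set.range fun n : ℕ => 2 * Nat.pair (Encodable.encode ρ) n + 1).Infinite := by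
    apply Set.infinite_range_of_injective
    intro m n h
    have h2 : Nat.pair (Encodable.encode ρ) m = Nat.pair (Encodable.encode ρ) n := by
      have h3 : 2 * Nat.pair (Encodable.encode ρ) m + 1 = 2 * Nat.pair (Encodable.encode ρ) n + 1 := h
      omega
    exact (Nat.pair_eq_pair.1 h2).2
  have h2 : (Set.range (fun n : ℕ => 2 * Nat.pair (Encodable.encode ρ) n + 1) \
      {a : ℕ | a % 2 = 1 ∧ σ ++ [a] ∈ Tr C'}).Infinite := h1.sdiff (hT σ hσ)
  refine h2.mono ?_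
  rintro a ⟨⟨n, rfl⟩, ha⟩
  have h3 : (2 * Nat.pair (Encodable.encode ρ) n + 1) % 2 = 1 := by omega
  exact ⟨h3, dec_code hρ n, fun h => ha ⟨h3, h⟩⟩

open Classical in
/-- an injection into the set of letters -/
noncomputable def emb (D C' : Set (ℕ → ℕ)) (σ ρ : List ℕ) : ℕ → ℕ :=
  if h : (Lset D C' σ ρ).Infinite then fun n => (h.natEmbedding _ n : ℕ) else id

theorem emb_mem {D C' : Set (ℕ → ℕ)} {σ ρ : List ℕ} (h : (Lset D C' σ ρ).Infinite) (n : ℕ) :
    emb D C' σ ρ n ∈ Lset D C' σ ρ := by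
  unfold emb
  rw [dif_pos h]
  exact (h.natEmbedding _ n).2

theorem emb_inj (D C' : Set (ℕ → ℕ)) (σ ρ : List ℕ) : Function.Injective (emb D C' σ ρ) := by
  unfold emb
  split_ifs with h
  · intro m n hmn
    exact (h.natEmbedding _).injective (Subtype.ext hmn)
  · exact Function.injective_id

theorem one {D C C' : Set (ℕ → ℕ)} {f : (ℕ → ℕ) → (ℕ → ℕ)} (hD : D.Nonempty) (hE : Evn D)
    (hT : Thin C') (hf : Set.MapsTo f C C') :
    ∃ j : Pc C → Pc C', Function.Injective j ∧ ∀ p : Pc C,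
      stl D (p.1.1 ++ [p.1.2]) = stl D ((j p).1.1 ++ [(j p).1.2]) ∧
      ∃ y ∈ C, pr y p.1.1.length = p.1.1 ∧ pr (f y) p.1.1.length = (j p).1.1 := by
  have hy : ∀ p : Pc C, ∃ y ∈ C, pr y p.1.1.length = p.1.1 := fun p => p.2.1
  choose y hyC hyp using hy
  have hσ : ∀ p : Pc C, pr (f (y p)) p.1.1.length ∈ Tr C' := fun p =>
    pr_mem_Tr (hf (hyC p)) _
  have hinf : ∀ p : Pc C, (Lset D C' (pr (f (y p)) p.1.1.length)
      (stl D (p.1.1 ++ [p.1.2]))).Infinite := fun p =>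
    Lset_infinite hT (hσ p) (stl_mem hD _)
  set a' : Pc C → ℕ := fun p => emb D C' (pr (f (y p)) p.1.1.length)
    (stl D (p.1.1 ++ [p.1.2])) (Encodable.encode (p.1.1, p.1.2)) with ha'
  have ham : ∀ p : Pc C, a' p ∈ Lset D C' (pr (f (y p)) p.1.1.length)
      (stl D (p.1.1 ++ [p.1.2])) := fun p => emb_mem (hinf p) _
  refine ⟨fun p => ⟨(pr (f (y p)) p.1.1.length, a' p), hσ p, (ham p).2.2⟩, ?_, ?_⟩
  · intro p q hpq
    have h1 : (pr (f (y p)) p.1.1.length, a' p) = (pr (f (y q)) q.1.1.length, a' q) :=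
      congrArg Subtype.val hpq
    have h2 : pr (f (y p)) p.1.1.length = pr (f (y q)) q.1.1.length := congrArg Prod.fst h1
    have h3 : a' p = a' q := congrArg Prod.snd h1
    have h4 : stl D (p.1.1 ++ [p.1.2]) = stl D (q.1.1 ++ [q.1.2]) := by
      rw [← (ham p).2.1, ← (ham q).2.1, h3]
    have h5 : emb D C' (pr (f (y q)) q.1.1.length) (stl D (q.1.1 ++ [q.1.2]))
        (Encodable.encode (p.1.1, p.1.2)) = emb D C' (pr (f (y q)) q.1.1.length)
        (stl D (q.1.1 ++ [q.1.2])) (Encodable.encode (q.1.1, q.1.2)) := by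
      have h6 : a' p = emb D C' (pr (f (y p)) p.1.1.length) (stl D (p.1.1 ++ [p.1.2]))
        (Encodable.encode (p.1.1, p.1.2)) := rfl
      rw [h2, h4] at h6
      rw [← h6, h3]
    have h6 := Encodable.encode_injective (emb_inj _ _ _ _ h5)
    exact Subtype.ext h6
  · intro p
    refine ⟨?_, y p, hyC p, hyp p, rfl⟩
    change stl D (p.1.1 ++ [p.1.2]) = stl D (pr (f (y p)) p.1.1.length ++ [a' p])
    rw [stl_append_singleton (pr (f (y p)) p.1.1.length) (a' p), dl_odd hE _ (ham p).1, (ham p).2.1]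

end EX1L

theorem t_EX1 : S_EX1 := by
  intro D C C' f f' hD hE hT hT' hf hf' hff hff'
  obtain ⟨j, hj, hjR⟩ := EX1L.one hD hE hT' hf
  obtain ⟨j', hj', hjR'⟩ := EX1L.one hD hE hT hf'
  obtain ⟨h, hb, hR⟩ := Function.Embedding.schroeder_bernstein_of_rel hj hj'
    (fun (p : Pc C) (q : Pc C') => stl D (p.1.1 ++ [p.1.2]) = stl D (q.1.1 ++ [q.1.2]) ∧
      ∃ y ∈ C, pr y p.1.1.length = p.1.1 ∧ pr (f y) p.1.1.length = q.1.1) hjR (by
      intro q
      obtain ⟨h1, y, hy, h2, h3⟩ := hjR' q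
      refine ⟨h1.symm, f' y, hf' hy, ?_, ?_⟩
      · rw [← h3, pr_length]
      · rw [← h3, pr_length, hff' y hy, h2])
  exact ⟨Equiv.ofBijective h hb, hR⟩

end Pool.Agent.H634.TC
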