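import Pool.Agent.H634.TC.Stm

set_option autoImplicit false

namespace Pool.Agent.H634.TC

open Topology Filter

namespace EX2L

theorem cyl_nhds (x : ℕ → ℕ) (n : ℕ) : ∀ᶠ v in 𝓝 x, pr v n = pr x n := by
  have h : ∀ᶠ v in 𝓝 x, ∀ i ∈ Finset.range n, v i = x i := by
    rw [Filter.eventually_all_finset]
    intro i _
    have h1 : Tendsto (fun v : ℕ → ℕ => v i) (𝓝 x) (𝓝 (x i)) := (continuous_apply i).continuousAt
    rw [nhds_discrete ℕ] at h1
    exact tendsto_pure.1 h1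
  filter_upwards [h] with v hv
  rw [pr_eq_iff]
  intro i hi
  exact hv i (Finset.mem_range.2 hi)

theorem exists_cyl {x : ℕ → ℕ} {U : Set (ℕ → ℕ)} (hU : U ∈ 𝓝 x) :
    ∃ n, ∀ v, pr v n = pr x n → v ∈ U := by
  rw [nhds_pi, Filter.mem_pi] at hU
  obtain ⟨I, hI, t, ht, hs⟩ := hU
  obtain ⟨n, hn⟩ := hI.bddAbove
  refine ⟨n + 1, fun v hv => hs ?_⟩
  intro i hi
  have h1 : v i = x i := pr_eq_iff.1 hv i (Nat.lt_succ_of_le (hn hi))
  rw [h1]
  exact mem_of_mem_nhds (ht i)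

theorem cont_at {g : (ℕ → ℕ) → (ℕ → ℕ)} {x : ℕ → ℕ}
    (h : ∀ m, ∃ n, ∀ v, pr v n = pr x n → pr (g v) m = pr (g x) m) : ContinuousAt g x := by
  rw [continuousAt_pi]
  intro i
  obtain ⟨n, hn⟩ := h (i + 1)
  unfold ContinuousAt
  rw [nhds_discrete ℕ]
  rw [tendsto_pure]
  filter_upwards [cyl_nhds x n] with v hv
  exact pr_eq_iff.1 (hn v hv) i (Nat.lt_succ_self i)

theorem cont_on {C : Set (ℕ → ℕ)} {f : (ℕ → ℕ) → (ℕ → ℕ)} {x : ℕ → ℕ} (h : ContinuousOn f C)
    (hx : x ∈ C) (m : ℕ) : ∃ n, ∀ y ∈ C, pr y n = pr x n → pr (f y) m = pr (f x) m := by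
  have h1 := (h x hx).eventually (cyl_nhds (f x) m)
  rw [eventually_nhdsWithin_iff] at h1
  obtain ⟨n, hn⟩ := exists_cyl h1
  exact ⟨n, fun y hy hyx => hn y hyx hy⟩

/-- `p` is the piece of `v` -/
def IsP {C : Set (ℕ → ℕ)} (v : ℕ → ℕ) (p : Pc C) : Prop :=
  pr v (p.1.1.length + 1) = p.1.1 ++ [p.1.2]

theorem exists_piece {C : Set (ℕ → ℕ)} (hC : IsClosed C) (hne : C.Nonempty) {v : ℕ → ℕ}
    (hv : v ∉ C) : ∃ p : Pc C, IsP v p := by
  classical
  have hex : ∃ n, pr v n ∉ Tr C := by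
    obtain ⟨n, hn⟩ := exists_cyl (hC.isOpen_compl.mem_nhds hv)
    refine ⟨n, ?_⟩
    rintro ⟨y, hy, hyn⟩
    rw [pr_length] at hyn
    exact hn y hyn hy
  obtain ⟨k, hk⟩ : ∃ k, Nat.find hex = k + 1 := by
    cases h : Nat.find hex with
    | zero =>
      exfalso
      have h1 := Nat.find_spec hex
      rw [h] at h1
      exact h1 (nil_mem_Tr hne)
    | succ k => exact ⟨k, rfl⟩
  have h1 : pr v k ∈ Tr C := by
    by_contra hcon
    have := Nat.find_min' hex hcon
    omega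
  have h2 : pr v k ++ [v k] ∉ Tr C := by
    rw [← pr_succ, ← hk]
    exact Nat.find_spec hex
  refine ⟨⟨(pr v k, v k), h1, h2⟩, ?_⟩
  unfold IsP
  simp only [pr_length]
  exact pr_succ v k

theorem le_of_piece {C : Set (ℕ → ℕ)} {v : ℕ → ℕ} {p : Pc C} (hp : IsP v p) {n : ℕ}
    (hn : pr v n ∈ Tr C) : n ≤ p.1.1.length := by
  by_contra hcon
  rw [not_le] at hcon
  apply p.2.2
  rw [← hp]
  have h1 : pr v n = pr v (p.1.1.length + 1) ++ (pr v n).drop (p.1.1.length + 1) := by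
    rw [← take_pr v hcon, List.take_append_drop]
  rw [h1] at hn
  exact mem_Tr_of_append hn

theorem pr_piece {C : Set (ℕ → ℕ)} {v : ℕ → ℕ} {p : Pc C} (hp : IsP v p) :
    pr v p.1.1.length = p.1.1 := by
  have h := congrArg (List.take p.1.1.length) hp
  rw [take_pr _ (Nat.le_succ _), List.take_left] at h
  exact h

theorem piece_unique {C : Set (ℕ → ℕ)} {v : ℕ → ℕ} {p q : Pc C} (hp : IsP v p) (hq : IsP v q) :
    p = q := by
  have h1 : q.1.1.length ≤ p.1.1.length := le_of_piece hp (by rw [pr_piece hq]; exact q.2.1)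
  have h2 : p.1.1.length ≤ q.1.1.length := le_of_piece hq (by rw [pr_piece hp]; exact p.2.1)
  have h3 := le_antisymm h2 h1
  have h4 : p.1.1 ++ [p.1.2] = q.1.1 ++ [q.1.2] := by
    rw [← hp, ← hq, h3]
  have h5 := List.append_inj h4 h3
  apply Subtype.ext
  apply Prod.ext
  · exact h5.1
  · simpa using h5.2

theorem not_mem_of_piece {C : Set (ℕ → ℕ)} {v : ℕ → ℕ} {p : Pc C} (hp : IsP v p) : v ∉ C := by
  intro hv
  apply p.2.2
  rw [← hp]
  exact pr_mem_Tr hv _

open Classical in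
/-- the extension -/
noncomputable def gg {C C' : Set (ℕ → ℕ)} (f : (ℕ → ℕ) → (ℕ → ℕ)) (β : Pc C → Pc C')
    (v : ℕ → ℕ) : ℕ → ℕ :=
  if h : ∃ p : Pc C, IsP v p then
    app ((β h.choose).1.1 ++ [(β h.choose).1.2]) (dr (h.choose.1.1.length + 1) v)
  else f v

theorem gg_piece {C C' : Set (ℕ → ℕ)} (f : (ℕ → ℕ) → (ℕ → ℕ)) (β : Pc C → Pc C')
    {v : ℕ → ℕ} {p : Pc C} (hp : IsP v p) :
    gg f β v = app ((β p).1.1 ++ [(β p).1.2]) (dr (p.1.1.length + 1) v) := by
  unfold gg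
  have h : ∃ p : Pc C, IsP v p := ⟨p, hp⟩
  rw [dif_pos h]
  have h1 : h.choose = p := piece_unique h.choose_spec hp
  rw [h1]

theorem gg_mem {C C' : Set (ℕ → ℕ)} (f : (ℕ → ℕ) → (ℕ → ℕ)) (β : Pc C → Pc C')
    {v : ℕ → ℕ} (hv : v ∈ C) : gg f β v = f v := by
  unfold gg
  rw [dif_neg]
  rintro ⟨p, hp⟩
  exact not_mem_of_piece hp hv

theorem IsP_gg {C C' : Set (ℕ → ℕ)} (f : (ℕ → ℕ) → (ℕ → ℕ)) (β : Pc C → Pc C')
    {v : ℕ → ℕ} {p : Pc C} (hp : IsP v p) : IsP (gg f β v) (β p) := by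
  unfold IsP
  rw [gg_piece f β hp]
  have h1 : (β p).1.1.length + 1 = ((β p).1.1 ++ [(β p).1.2]).length := by simp
  rw [h1, pr_app]

theorem gg_cont {C C' : Set (ℕ → ℕ)} {f : (ℕ → ℕ) → (ℕ → ℕ)} {β : Pc C → Pc C'}
    (hC : IsClosed C) (hne : C.Nonempty) (hf : ContinuousOn f C)
    (hβ : ∀ p : Pc C, ∃ y ∈ C, pr y p.1.1.length = p.1.1 ∧ pr (f y) p.1.1.length = (β p).1.1) :
    Continuous (gg f β) := by
  rw [continuous_iff_continuousAt]
  intro x
  apply cont_at
  intro m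
  by_cases hx : x ∈ C
  · obtain ⟨n₁, hn₁⟩ := cont_on hf hx m
    refine ⟨max n₁ m, fun v hv => ?_⟩
    rw [gg_mem f β hx]
    by_cases hvC : v ∈ C
    · rw [gg_mem f β hvC]
      apply hn₁ v hvC
      rw [← take_pr v (le_max_left n₁ m), hv, take_pr x (le_max_left n₁ m)]
    · obtain ⟨p, hp⟩ := exists_piece hC hne hvC
      have h1 : max n₁ m ≤ p.1.1.length := by
        apply le_of_piece hp
        rw [hv]
        exact pr_mem_Tr hx _
      obtain ⟨y, hy, hy1, hy2⟩ := hβ p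
      have h2 : pr (gg f β v) m = pr (f y) m := by
        have h3 := pr_piece (IsP_gg f β hp)
        have h4 : (β p).1.1.length = p.1.1.length := by
          rw [← hy2, pr_length]
        rw [h4] at h3
        have h5 : pr (gg f β v) p.1.1.length = pr (f y) p.1.1.length := by rw [h3, hy2]
        rw [← take_pr (gg f β v) (le_trans (le_max_right n₁ m) h1), h5,
          take_pr (f y) (le_trans (le_max_right n₁ m) h1)]
      rw [h2]
      apply hn₁ y hy
      have h6 : pr y p.1.1.length = pr v p.1.1.length := by rw [hy1, pr_piece hp]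
      rw [← take_pr y (le_trans (le_max_left n₁ m) h1), h6,
        take_pr v (le_trans (le_max_left n₁ m) h1), ← take_pr v (le_max_left n₁ m), hv,
        take_pr x (le_max_left n₁ m)]
  · obtain ⟨p, hp⟩ := exists_piece hC hne hx
    refine ⟨p.1.1.length + 1 + m, fun v hv => ?_⟩
    have hvp : IsP v p := by
      unfold IsP
      rw [← take_pr v (Nat.le_add_right (p.1.1.length + 1) m), hv,
        take_pr x (Nat.le_add_right (p.1.1.length + 1) m)]
      exact hp
    rw [gg_piece f β hp, gg_piece f β hvp, pr_eq_iff]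
    intro i hi
    unfold app dr
    split_ifs with h1
    · rfl
    · exact pr_eq_iff.1 hv _ (by omega)

theorem gg_inv {C C' : Set (ℕ → ℕ)} {f f' : (ℕ → ℕ) → (ℕ → ℕ)} {β : Pc C → Pc C'}
    {β' : Pc C' → Pc C} (hC : IsClosed C) (hne : C.Nonempty) (hm : Set.MapsTo f C C')
    (hff : ∀ y ∈ C, f' (f y) = y) (hb : ∀ p, β' (β p) = p) (v : ℕ → ℕ) :
    gg f' β' (gg f β v) = v := by
  by_cases hv : v ∈ C
  · rw [gg_mem f β hv, gg_mem f' β' (hm hv), hff v hv]
  · obtain ⟨p, hp⟩ := exists_piece hC hne hv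
    rw [gg_piece f' β' (IsP_gg f β hp), hb, gg_piece f β hp]
    have h1 : (β p).1.1.length + 1 = ((β p).1.1 ++ [(β p).1.2]).length := by simp
    rw [h1, dr_app]
    have h2 : p.1.1.length + 1 = (p.1.1 ++ [p.1.2]).length := by simp
    rw [h2]
    apply app_dr
    rw [← h2]
    exact hp

end EX2L

open EX2L in
theorem t_EX2 : S_EX2 := by
  intro D C C' f f' hC hC' hne hne' hm hm' hf hf' hff hff' β hβ
  have hβ' : ∀ q : Pc C', ∃ y ∈ C', pr y q.1.1.length = q.1.1 ∧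
      pr (f' y) q.1.1.length = (β.symm q).1.1 := by
    intro q
    obtain ⟨-, y, hy, h1, h2⟩ := hβ (β.symm q)
    rw [Equiv.apply_symm_apply] at h2
    have h3 : (β.symm q).1.1.length = q.1.1.length := by
      rw [← h2, pr_length]
    refine ⟨f y, hm hy, ?_, ?_⟩
    · rw [← h3]; exact h2
    · rw [hff y hy, ← h3]; exact h1
  have hβ1 : ∀ p : Pc C, ∃ y ∈ C, pr y p.1.1.length = p.1.1 ∧
      pr (f y) p.1.1.length = (β p).1.1 := fun p => (hβ p).2
  refine ⟨{ toFun := gg f β, invFun := gg f' β.symm,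
            left_inv := gg_inv hC hne hm hff (fun p => β.symm_apply_apply p),
            right_inv := gg_inv hC' hne' hm' hff' (fun p => β.apply_symm_apply p),
            continuous_toFun := gg_cont hC hne hf hβ1,
            continuous_invFun := gg_cont hC' hne' hf' hβ' }, ?_, ?_⟩
  · intro y hy
    exact gg_mem f β hy
  · intro v hv
    obtain ⟨p, hp⟩ := exists_piece hC hne hv
    have hg := IsP_gg f β hp
    have hlen : (β p).1.1.length = p.1.1.length := by
      obtain ⟨y, hy, -, h2⟩ := hβ1 p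
      rw [← h2, pr_length]
    refine ⟨not_mem_of_piece hg, p.1.1.length + 1, ?_, ?_⟩
    · change st D v (p.1.1.length + 1) = st D (gg f β v) (p.1.1.length + 1)
      rw [st_eq_stl, st_eq_stl, hp, (hβ p).1, ← hg, hlen]
    · intro i hi
      change gg f β v i = v i
      rw [gg_piece f β hp]
      obtain ⟨j, rfl⟩ := Nat.exists_eq_add_of_le hi
      have h1 : p.1.1.length + 1 = ((β p).1.1 ++ [(β p).1.2]).length := by simp [hlen]
      rw [h1, app_ge]
      rfl

end Pool.Agent.H634.TC
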