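import Pool.Agent.H634.TC.Stm

set_option autoImplicit false

namespace Pool.Agent.H634.TC

namespace GRPL

/-- The action of the free group. -/
@[reducible]
def act (gens : ℕ → Hm) : MulAction (FreeGroup ℕ) (ℕ → ℕ) where
  smul g v := (FreeGroup.lift gens g : Hm) v
  one_smul v := by
    change (FreeGroup.lift gens 1 : Hm) v = v
    rw [map_one]
    rfl
  mul_smul g h v := by
    change (FreeGroup.lift gens (g * h) : Hm) v =
      (FreeGroup.lift gens g : Hm) ((FreeGroup.lift gens h : Hm) v)
    rw [map_mul]
    rfl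

theorem rel {gens : ℕ → Hm} {R : (ℕ → ℕ) → (ℕ → ℕ) → Prop} (hR : Equivalence R)
    (h : ∀ n v, R v (gens n v)) (g : FreeGroup ℕ) :
    ∀ u, R u ((FreeGroup.lift gens g : Hm) u) := by
  refine FreeGroup.induction_on (C := fun g => ∀ u, R u ((FreeGroup.lift gens g : Hm) u)) g
    ?_ ?_ ?_ ?_
  · intro u
    rw [map_one]
    exact hR.refl u
  · intro n u
    rw [FreeGroup.lift_apply_of]
    exact h n u
  · intro n _ u
    rw [map_inv, FreeGroup.lift_apply_of]
    change R u ((gens n).symm u)
    have h1 := h n ((gens n).symm u)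
    rw [Homeomorph.apply_symm_apply] at h1
    exact hR.symm h1
  · intro x y hx hy u
    rw [map_mul]
    change R u ((FreeGroup.lift gens x : Hm) ((FreeGroup.lift gens y : Hm) u))
    exact hR.trans (hy u) (hx _)

end GRPL

theorem t_GRP : S_GRP := by
  intro gens R hR hgen hgen'
  refine ⟨FreeGroup ℕ, inferInstance, inferInstance, GRPL.act gens, ?_, ?_⟩
  · intro g
    exact (FreeGroup.lift gens g : Hm).continuous
  · intro v w
    constructor
    · rintro ⟨g, rfl⟩
      exact GRPL.rel hR hgen g v
    · intro h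
      change ∃ g : FreeGroup ℕ, (FreeGroup.lift gens g : Hm) v = w
      have h1 := hgen' v w h
      clear h
      induction h1 with
      | rel x y hxy =>
        obtain ⟨n, hn⟩ := hxy
        exact ⟨FreeGroup.of n, by rw [FreeGroup.lift_apply_of]; exact hn⟩
      | refl x => exact ⟨1, by rw [map_one]; rfl⟩
      | symm x y _ ih =>
        obtain ⟨g, hg⟩ := ih
        refine ⟨g⁻¹, ?_⟩
        rw [map_inv]
        change (FreeGroup.lift gens g : Hm).symm y = x
        rw [← hg, Homeomorph.symm_apply_apply]
      | trans x y z _ _ ih1 ih2 =>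
        obtain ⟨g, hg⟩ := ih1
        obtain ⟨g', hg'⟩ := ih2
        refine ⟨g' * g, ?_⟩
        rw [map_mul]
        change (FreeGroup.lift gens g' : Hm) ((FreeGroup.lift gens g : Hm) x) = z
        rw [hg, hg']

end Pool.Agent.H634.TC
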