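import Pool.Agent.H634.TC.Stm

set_option autoImplicit false

/-! The jump as a c.e. predicate (leaf JPS). -/

namespace Pool.Agent.H634.TC

open Pool.Agent.Helper227 (pre S1 chi length_pre take_pre)

theorem t_JPS : S_JPS := by
  refine ⟨fun z => ∃ k : ℕ, k.unpair.1 ≤ z.1.length ∧
    W k.unpair.2 z.2.unpair.1 (Encodable.encode (z.1.take k.unpair.1, z.2.unpair.2, 0)) = true, ?_, ?_⟩
  · have hk : Primrec fun p : (List Bool × ℕ) × ℕ => p.2.unpair := Primrec.unpair.comp Primrec.snd
    have hz : Primrec fun p : (List Bool × ℕ) × ℕ => p.1.1 := Primrec.fst.comp Primrec.fst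
    have hn : Primrec fun p : (List Bool × ℕ) × ℕ => p.1.2.unpair :=
      Primrec.unpair.comp (Primrec.snd.comp Primrec.fst)
    refine S1.ex (S1.and (S1.of_prim ?_) (S1.of_prim ?_))
    · exact Primrec.nat_le.comp (Primrec.fst.comp hk) (Primrec.list_length.comp hz)
    · exact Primrec.eq.comp (W_prim (Primrec.snd.comp hk) (Primrec.fst.comp hn)
        (Primrec.encode.comp ((Primrec.list_take.comp (Primrec.fst.comp hk) hz).pair
          ((Primrec.snd.comp hn).pair (Primrec.const 0))))) (Primrec.const true)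
  · intro x n
    constructor
    · rintro ⟨s, k, h1, h2⟩
      rw [length_pre] at h1
      refine ⟨k, ?_⟩
      unfold Cert
      rw [take_pre x s _ h1] at h2
      exact h2
    · rintro ⟨k, hk⟩
      refine ⟨k.unpair.1, k, ?_, ?_⟩
      · rw [length_pre]
      · rw [take_pre x _ _ le_rfl]
        exact hk

end Pool.Agent.H634.TC
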