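import Pool.Agent.H634.TC.Stm

set_option autoImplicit false

/-!
Project TJ, leaf JRE (helper400): the jump is c.e. and universal.
-/

namespace Pool.Agent.H634.TC

open Nat.Partrec (Code)
open Pool.Agent.Helper227 (pre S1 chi)

theorem t_JRE (h : S_JPS) : S_JRE := by
  intro x
  obtain ⟨H, hH, he⟩ := h
  refine ⟨fun n => Part.assert (∃ s, H (pre x s, n)) fun _ => Part.some 0, ?_, ?_⟩
  · refine Pool.Agent.Helper227.recIn_of_graph (G := fun z => H (z.1, z.2.1) ∧ z.2.2 = 0) ?_ ?_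
    · exact S1.and (S1.comp hH (Primrec.fst.pair (Primrec.fst.comp Primrec.snd)))
        (S1.of_prim (Primrec.eq.comp (Primrec.snd.comp Primrec.snd) (Primrec.const 0)))
    · intro n m
      rw [Part.mem_assert_iff]
      constructor
      · rintro ⟨⟨s, hs⟩, hm⟩
        exact ⟨s, hs, Part.mem_some_iff.1 hm⟩
      · rintro ⟨s, hs, hm⟩
        exact ⟨⟨s, hs⟩, Part.mem_some_iff.2 hm⟩
  · intro n
    rw [← he x n, Part.dom_iff_mem]
    constructor
    · intro hn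
      exact ⟨0, Part.mem_assert_iff.2 ⟨hn, Part.mem_some _⟩⟩
    · rintro ⟨m, hm⟩
      exact (Part.mem_assert_iff.1 hm).1

theorem t_JRU (h : S_ACC) : S_JRU := by
  rintro x B ⟨f, hf, hB⟩
  obtain ⟨G, hG, -, hg⟩ := Pool.Agent.Helper227.recIn_graph hf
  have hS : S1 fun z : List Bool × ℕ => ∃ m : ℕ, G (z.1, z.2, m) :=
    S1.ex (S1.comp hG ((Primrec.fst.comp Primrec.fst).pair
      ((Primrec.snd.comp Primrec.fst).pair Primrec.snd)))
  obtain ⟨e, he⟩ := h _ hS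
  refine ⟨e, fun n => ?_⟩
  rw [hB, ← he x n, Part.dom_iff_mem]
  constructor
  · rintro ⟨m, hm⟩
    obtain ⟨s, hs⟩ := (hg n m).1 hm
    exact ⟨s, m, hs⟩
  · rintro ⟨s, m, hs⟩
    exact ⟨m, (hg n m).2 ⟨s, hs⟩⟩

end Pool.Agent.H634.TC
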