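import Pool.Agent.H634.TC.Stm

set_option autoImplicit false

/-!
Leaf KCL.
-/

namespace Pool.Agent.H634.TC

open Nat.Partrec (Code)
open Pool.Agent.Helper227 (pre S1 chi)

namespace KCLL

theorem approx {a b : ℕ} {d : ℕ → ℕ} (hd : d ∈ closure (KK a b)) (J : Finset ℕ) :
    ∃ x y, Red a x y ∧ Red b y x ∧ ∀ j ∈ J, dx x j = d j := by
  have ho : IsOpen (Set.pi (J : Set ℕ) (fun j => ({d j} : Set ℕ))) :=
    isOpen_set_pi J.finite_toSet (fun _ _ => isOpen_discrete _)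
  obtain ⟨w, hw1, x, y, rfl, h1, h2⟩ := mem_closure_iff.1 hd _ ho (fun j _ => rfl)
  exact ⟨x, y, h1, h2, fun j hj => hw1 j hj⟩

theorem mem_of_agree {x x' : ℕ → Bool} {n : ℕ} (h : dx x' (2 * n + 1) = dx x (2 * n + 1)) :
    n ∈ Jp x' ↔ n ∈ Jp x := by
  rw [dx_odd, dx_odd] at h
  have h1 : cx x' n = cx x n := by omega
  rw [← not_iff_not, ← cx_eq_zero, ← cx_eq_zero, h1]

theorem even_of_agree {x x' : ℕ → Bool} {n : ℕ} (h : dx x' (2 * n) = dx x (2 * n)) :
    x' n = x n := by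
  rw [dx_even, dx_even] at h
  cases h2 : x' n <;> cases h3 : x n <;> simp_all

theorem S1_GE (a : ℕ) :
    S1 fun p : List Bool × ℕ => GE a p.1 p.2.unpair.1 p.2.unpair.2 := by
  have h := (GE_S1 a).comp (f := fun p : List Bool × ℕ => (p.1, p.2.unpair.1, p.2.unpair.2))
    (Primrec.fst.pair ((Primrec.fst.comp (Primrec.unpair.comp Primrec.snd)).pair
      (Primrec.snd.comp (Primrec.unpair.comp Primrec.snd))))
  exact h

theorem toNat_one (b : Bool) : 1 = b.toNat ↔ b = true := by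
  cases b <;> simp

end KCLL

theorem t_KCL (h0 : S_DCL) (h1 : S_ACC) (h2 : S_CMP) : S_KCL := by
  classical
  intro a b
  refine isClosed_of_closure_subset fun d hd => ?_
  have hsub : KK a b ⊆ DD := by
    rintro _ ⟨x, y, rfl, -, -⟩
    exact ⟨x, rfl⟩
  obtain ⟨x, rfl⟩ := closure_minimal hsub h0 hd
  obtain ⟨e, he⟩ := h1 _ (KCLL.S1_GE a)
  have he' : ∀ (z : ℕ → Bool) (n m : ℕ), Ev a z n m ↔ Nat.pair e (Nat.pair n m) ∈ Jp z := by
    intro z n m
    rw [← he z (Nat.pair n m)]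
    simp only [Nat.unpair_pair]
    exact Iff.rfl
  obtain ⟨e2, he2⟩ := h2 a _ (KCLL.S1_GE b)
  have he2' : ∀ (z y : ℕ → Bool) (n m : ℕ), Red a z y →
      (Ev b y n m ↔ Nat.pair e2 (Nat.pair n m) ∈ Jp z) := by
    intro z y n m hz
    rw [← he2 z y (Nat.pair n m) hz]
    simp only [Nat.unpair_pair]
    exact Iff.rfl
  have hA : Red a x (fun n => decide (Ev a x n 1)) := by
    intro n m
    obtain ⟨x', y', hx', -, hJ⟩ := KCLL.approx hd
      {2 * Nat.pair e (Nat.pair n m) + 1, 2 * Nat.pair e (Nat.pair n 1) + 1}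
    have e1 : Ev a x' n m ↔ Ev a x n m := by
      rw [he', he']
      exact KCLL.mem_of_agree (hJ _ (by simp))
    have e3 : Ev a x' n 1 ↔ Ev a x n 1 := by
      rw [he', he']
      exact KCLL.mem_of_agree (hJ _ (by simp))
    have e4 : (decide (Ev a x n 1) : Bool) = y' n := by
      rw [Bool.eq_iff_iff, decide_eq_true_iff, ← e3, hx' n 1, KCLL.toNat_one]
    rw [← e1, hx' n m, ← e4]
  refine ⟨x, fun n => decide (Ev a x n 1), rfl, hA, ?_⟩
  intro n m
  obtain ⟨x', y', hx', hy', hJ⟩ := KCLL.approx hd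
    {2 * Nat.pair e2 (Nat.pair n m) + 1, 2 * n}
  have e1 : Nat.pair e2 (Nat.pair n m) ∈ Jp x' ↔ Nat.pair e2 (Nat.pair n m) ∈ Jp x :=
    KCLL.mem_of_agree (hJ _ (by simp))
  have e3 : x' n = x n := KCLL.even_of_agree (hJ _ (by simp))
  rw [he2' x _ n m hA, ← e1, ← he2' x' y' n m hx', hy' n m, e3]

end Pool.Agent.H634.TC
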