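import Pool.Agent.H634.TC.Stm

set_option autoImplicit false

/-!
KCT: the functional `a` induces a continuous map on the codes (helper597 for helper634).
-/

namespace Pool.Agent.H634.TC

open Nat.Partrec (Code)
open Pool.Agent.Helper227 (pre S1 chi)

namespace KCTL

/-- the induced map on codes -/
noncomputable def ff (a : ℕ) (d : ℕ → ℕ) : ℕ → ℕ := by
  classical
  exact dx (fun n => decide (Ev a (fun i => decide (d (2 * i) = 2)) n 1))

theorem inner_dx (x : ℕ → Bool) : (fun i => decide (dx x (2 * i) = 2)) = x := by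
  funext i
  rw [dx_even]
  cases x i <;> simp

theorem ev_one {a : ℕ} {x y : ℕ → Bool} (h : Red a x y) (n : ℕ) : Ev a x n 1 ↔ y n = true := by
  rw [h n 1]
  cases y n <;> simp

theorem ff_dx {a : ℕ} {x y : ℕ → Bool} (h : Red a x y) : ff a (dx x) = dx y := by
  classical
  unfold ff
  rw [inner_dx]
  congr 1
  funext n
  rw [Bool.eq_iff_iff]
  simp only [decide_eq_true_eq]
  exact ev_one h n

theorem nhd (d0 : ℕ → ℕ) (N : ℕ) : {d : ℕ → ℕ | ∀ i < N, d i = d0 i} ∈ nhds d0 := by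
  have h1 : {d : ℕ → ℕ | ∀ i < N, d i = d0 i} =
      (Set.Iio N).pi (fun i => ({d0 i} : Set ℕ)) := by
    ext d
    simp [Set.mem_pi]
  rw [h1]
  exact (isOpen_set_pi (Set.finite_Iio N) (fun _ _ => isOpen_discrete _)).mem_nhds
    (fun i _ => rfl)

theorem mem_jp_iff (x : ℕ → Bool) (i : ℕ) : i ∈ Jp x ↔ dx x (2 * i + 1) ≠ 0 := by
  rw [dx_odd]
  have h := @cx_eq_zero x i
  constructor
  · intro h1 h2
    exact (h.1 (by omega)) h1
  · intro h1
    by_contra h2
    exact h1 (by rw [h.2 h2])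

theorem pre_congr {x y : ℕ → Bool} {s : ℕ} (h : ∀ i < s, x i = y i) : pre x s = pre y s := by
  unfold Pool.Agent.Helper227.pre
  exact List.map_congr_left fun i hi => h i (List.mem_range.1 hi)

theorem cert_congr {x y : ℕ → Bool} {n k : ℕ} (h : ∀ i < k, x i = y i) :
    Cert x n k ↔ Cert y n k := by
  unfold Cert
  rw [pre_congr fun i hi => h i (lt_of_lt_of_le hi (Nat.unpair_left_le k))]

/-- even coordinates -/
theorem even_coord (h1 : S_ACC) (a : ℕ) : ∃ e : ℕ, ∀ (x y x' y' : ℕ → Bool) (n : ℕ),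
    Red a x y → Red a x' y' →
    dx x' (2 * Nat.pair e n + 1) = dx x (2 * Nat.pair e n + 1) → y' n = y n := by
  have hS : S1 fun z : List Bool × ℕ => GE a z.1 z.2 1 :=
    (GE_S1 a).comp (f := fun z : List Bool × ℕ => (z.1, z.2, 1))
      (Primrec.fst.pair (Primrec.snd.pair (Primrec.const 1)))
  obtain ⟨e, he⟩ := h1 (fun z => GE a z.1 z.2 1) hS
  refine ⟨e, fun x y x' y' n hxy hxy' hd => ?_⟩
  have e1 : y n = true ↔ dx x (2 * Nat.pair e n + 1) ≠ 0 := by
    rw [← mem_jp_iff, ← he x n, ← ev_one hxy n]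
    rfl
  have e2 : y' n = true ↔ dx x' (2 * Nat.pair e n + 1) ≠ 0 := by
    rw [← mem_jp_iff, ← he x' n, ← ev_one hxy' n]
    rfl
  rw [Bool.eq_iff_iff, e1, e2, hd]

/-- odd coordinates -/
theorem odd_coord (h2 : S_CMP) (h3 : S_JPS) (a : ℕ) : ∃ e : ℕ, ∀ (x y : ℕ → Bool) (n : ℕ),
    Red a x y → (n ∈ Jp y ↔ dx x (2 * Nat.pair e n + 1) ≠ 0) := by
  obtain ⟨H, hH, hJ⟩ := h3
  obtain ⟨e, he⟩ := h2 a H hH
  refine ⟨e, fun x y n hxy => ?_⟩
  rw [← hJ y n, he x y n hxy, mem_jp_iff]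

theorem bound (e k : ℕ) : ∃ N : ℕ, ∀ i < k, 2 * Nat.pair e i + 1 < N := by
  induction k with
  | zero => exact ⟨0, fun i hi => absurd hi (Nat.not_lt_zero i)⟩
  | succ k ih =>
    obtain ⟨N, hN⟩ := ih
    refine ⟨N + (2 * Nat.pair e k + 2), fun i hi => ?_⟩
    rcases Nat.lt_succ_iff_lt_or_eq.1 hi with h | h
    · have := hN i h
      omega
    · subst h
      omega

/-- one coordinate of the map depends locally on finitely many coordinates -/
theorem coord (h1 : S_ACC) (h2 : S_CMP) (h3 : S_JPS) (a : ℕ) (x y : ℕ → Bool) (hxy : Red a x y)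
    (j : ℕ) : ∃ N : ℕ, ∀ x' y' : ℕ → Bool, Red a x' y' → (∀ i < N, dx x' i = dx x i) →
      dx y' j = dx y j := by
  obtain ⟨e, he⟩ := even_coord h1 a
  obtain ⟨e', he'⟩ := odd_coord h2 h3 a
  obtain ⟨n, hn | hn⟩ : ∃ n, j = 2 * n ∨ j = 2 * n + 1 := ⟨j / 2, by omega⟩
  · subst hn
    refine ⟨2 * Nat.pair e n + 2, fun x' y' hxy' hd => ?_⟩
    rw [dx_even, dx_even, he x y x' y' n hxy hxy' (hd _ (by omega))]
  · subst hn
    by_cases hJ : n ∈ Jp y
    · have hc : cx y n ≠ 0 := fun h => (cx_eq_zero.1 h) hJ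
      obtain ⟨k, hk⟩ : ∃ k, cx y n = 1 + k := ⟨cx y n - 1, by omega⟩
      obtain ⟨N, hN⟩ := bound e k
      refine ⟨N, fun x' y' hxy' hd => ?_⟩
      have hag : ∀ i < k, y' i = y i := fun i hi =>
        he x y x' y' i hxy hxy' (hd _ (hN i hi))
      have h4 := cx_eq_succ.1 hk
      have h5 : cx y' n = 1 + k := by
        rw [cx_eq_succ]
        refine ⟨(cert_congr hag).2 h4.1, fun k' hk' hcc => h4.2 k' hk' ?_⟩
        exact (cert_congr fun i hi => hag i (hi.trans hk')).1 hcc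
      rw [dx_odd, dx_odd, hk, h5]
    · refine ⟨2 * Nat.pair e' n + 2, fun x' y' hxy' hd => ?_⟩
      have hJ' : n ∉ Jp y' := by
        rw [he' x' y' n hxy', hd _ (by omega), ← he' x y n hxy]
        exact hJ
      rw [dx_odd, dx_odd, cx_eq_zero.2 hJ, cx_eq_zero.2 hJ']

end KCTL

open KCTL in
/-- The functional `a` induces a continuous map on the codes. -/
theorem t_KCT (h1 : S_ACC) (h2 : S_CMP) (h3 : S_JPS) : S_KCT := by
  intro a b
  refine ⟨ff a, ?_, fun x y hxy _ => ff_dx hxy⟩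
  rintro d ⟨x, y, rfl, hxy, hyx⟩
  refine tendsto_pi_nhds.2 fun j => ?_
  obtain ⟨N, hN⟩ := coord h1 h2 h3 a x y hxy j
  have hev : (fun _ : ℕ → ℕ => dx y j) =ᶠ[nhdsWithin (dx x) (KK a b)] fun d => ff a d j := by
    filter_upwards [mem_nhdsWithin_of_mem_nhds (nhd (dx x) N), self_mem_nhdsWithin]
    rintro d' hd' ⟨x', y', rfl, hxy', _⟩
    rw [ff_dx hxy']
    exact (hN x' y' hxy' hd').symm
  rw [ff_dx hxy]
  exact tendsto_const_nhds.congr' hev

end Pool.Agent.H634.TC
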