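import Pool.Agent.H634.TC.Stm

set_option autoImplicit false

/-!
Leaf KRN (helper286 for helper634): kernels are closed, nonempty and thin.
-/

namespace Pool.Agent.H634.TC

namespace KRNL

theorem pr_iff (v : ℕ → ℕ) (s : List ℕ) :
    pr v s.length = s ↔ ∀ i < s.length, v i = s.getD i 0 := by
  have h1 : pr (app s fun _ => 0) s.length = s := pr_app s _
  constructor
  · intro h i hi
    have h2 : pr v s.length = pr (app s fun _ => 0) s.length := h.trans h1.symm
    rw [pr_eq_iff.1 h2 i hi, app_lt hi]
  · intro h
    have h2 : pr v s.length = pr (app s fun _ => 0) s.length := by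
      rw [pr_eq_iff]
      intro i hi
      rw [h i hi, app_lt hi]
    exact h2.trans h1

theorem closed_pr (s : List ℕ) : IsClosed {v : ℕ → ℕ | pr v s.length = s} := by
  have h : {v : ℕ → ℕ | pr v s.length = s} =
      ⋂ i : ℕ, ⋂ _ : i < s.length, {v : ℕ → ℕ | v i = s.getD i 0} := by
    ext v
    simp only [Set.mem_iInter]
    exact pr_iff v s
  rw [h]
  exact isClosed_iInter fun i => isClosed_iInter fun _ =>
    isClosed_eq (continuous_apply i) continuous_const

theorem cont_app_dr (τ : List ℕ) (n : ℕ) : Continuous fun v : ℕ → ℕ => app τ (dr n v) := by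
  refine continuous_pi fun i => ?_
  by_cases hi : i < τ.length
  · have h : (fun v : ℕ → ℕ => app τ (dr n v) i) = fun _ => τ.getD i 0 := by
      funext v
      exact app_lt hi
    rw [h]
    exact continuous_const
  · have h : (fun v : ℕ → ℕ => app τ (dr n v) i) = fun v => v (n + (i - τ.length)) := by
      funext v
      unfold app dr
      rw [if_neg hi]
    rw [h]
    exact continuous_apply _

theorem last_letter {v : ℕ → ℕ} {σ : List ℕ} {a : ℕ}
    (h : pr v (σ ++ [a]).length = σ ++ [a]) : v σ.length = a := by
  have h1 := (pr_iff v (σ ++ [a])).1 h σ.length (by simp)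
  rw [h1]
  simp [List.getD]

end KRNL

theorem t_KRN : S_KRN := by
  intro D hcl hne hev s
  refine ⟨?_, ?_, ?_⟩
  · have h : Ker D s = {v : ℕ → ℕ | pr v s.length = s} ∩
        (fun v : ℕ → ℕ => app (stl D s) (dr s.length v)) ⁻¹' D := rfl
    rw [h]
    exact (KRNL.closed_pr s).inter (hcl.preimage (KRNL.cont_app_dr _ _))
  · obtain ⟨y, hy, hpr⟩ := stl_mem hne s
    refine ⟨app s (dr (stl D s).length y), pr_app _ _, ?_⟩
    rw [dr_app, app_dr hpr]
    exact hy
  · intro σ _
    refine (Set.finite_singleton (s.getD σ.length 0)).subset ?_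
    rintro a ⟨ha, v, ⟨hv1, hv2⟩, hv3⟩
    have h1 : v σ.length = a := KRNL.last_letter hv3
    by_cases hlt : σ.length < s.length
    · have h2 := (KRNL.pr_iff v s).1 hv1 σ.length hlt
      change a = _
      rw [← h1, h2]
    · exfalso
      have h2 := hev _ hv2 ((stl D s).length + (σ.length - s.length))
      rw [app_ge] at h2
      have h3 : dr s.length v (σ.length - s.length) = v σ.length := by
        unfold dr
        congr 1
        omega
      rw [h3, h1] at h2
      omega

end Pool.Agent.H634.TC
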