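import Pool.Agent.H634.TC.Stm

/-!
# Project TJ (helper634): two Borel measurability lemmas (leaf MD)
-/

set_option autoImplicit false

namespace Pool.Agent.H634.TC

open Pool.Agent.Helper227 (pre S1 chi)

namespace MDL

/-- The initial segments are measurable. -/
theorem meas_pre (s : ℕ) : @Measurable (ℕ → Bool) (List Bool) _ ⊤ (fun x => pre x s) := by
  let _ : MeasurableSpace (List Bool) := ⊤
  have _ : DiscreteMeasurableSpace (List Bool) := ⟨fun _ => trivial⟩
  induction s with
  | zero => exact measurable_const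
  | succ s ih =>
    have h1 : (fun x : ℕ → Bool => pre x (s + 1)) =
        (fun p : List Bool × Bool => p.1 ++ [p.2]) ∘ (fun x : ℕ → Bool => (pre x s, x s)) := by
      funext x
      exact Pool.Agent.Helper227.pre_succ x s
    rw [h1]
    exact (Measurable.of_discrete).comp (Measurable.prodMk ih (measurable_pi_apply s))

theorem meas_P (s : ℕ) (P : List Bool → Prop) : MeasurableSet {x : ℕ → Bool | P (pre x s)} :=
  meas_pre s (show @MeasurableSet (List Bool) ⊤ {l | P l} from trivial)

theorem meas_Cert (n k : ℕ) : MeasurableSet {x : ℕ → Bool | Cert x n k} :=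
  meas_P k.unpair.1 (fun l => W k.unpair.2 n.unpair.1 (Encodable.encode (l, n.unpair.2, 0)) = true)

theorem meas_cx (n : ℕ) : Measurable (fun x : ℕ → Bool => cx x n) := by
  refine measurable_to_countable' fun y => ?_
  cases y with
  | zero =>
    have h1 : (fun x : ℕ → Bool => cx x n) ⁻¹' {0} = ⋂ k, {x | Cert x n k}ᶜ := by
      ext x
      rw [Set.mem_preimage, Set.mem_singleton_iff, cx_eq_zero, Set.mem_iInter]
      exact not_exists
    rw [h1]
    exact MeasurableSet.iInter fun k => (meas_Cert n k).compl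
  | succ y =>
    have h1 : (fun x : ℕ → Bool => cx x n) ⁻¹' {y + 1} =
        {x | Cert x n y} ∩ ⋂ k, ⋂ (_ : k < y), {x | Cert x n k}ᶜ := by
      ext x
      rw [Set.mem_preimage, Set.mem_singleton_iff, add_comm y 1, cx_eq_succ, Set.mem_inter_iff,
        Set.mem_iInter₂]
      rfl
    rw [h1]
    exact (meas_Cert n y).inter
      (MeasurableSet.iInter fun k => MeasurableSet.iInter fun _ => (meas_Cert n k).compl)

end MDL

open MDL in
/-- `dx` is Borel. -/
theorem t_MD : S_MD := by
  unfold S_MD
  refine measurable_pi_iff.2 fun n => ?_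
  by_cases h : n % 2 = 0
  · have h1 : (fun x : ℕ → Bool => dx x n) = (fun b : Bool => 2 * b.toNat) ∘
        (fun x : ℕ → Bool => x (n / 2)) := by
      funext x
      change (if n % 2 = 0 then _ else _) = _
      rw [if_pos h]
      rfl
    rw [h1]
    exact (Measurable.of_discrete).comp (measurable_pi_apply _)
  · have h1 : (fun x : ℕ → Bool => dx x n) = (fun b : ℕ => 2 * b) ∘
        (fun x : ℕ → Bool => cx x (n / 2)) := by
      funext x
      change (if n % 2 = 0 then _ else _) = _
      rw [if_neg h]
      rfl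
    rw [h1]
    exact (Measurable.of_discrete).comp (meas_cx _)

open MDL in
/-- The graph of a functional is Borel. -/
theorem t_MRED : S_MRED := by
  intro e
  have h1 : {p : (ℕ → Bool) × (ℕ → Bool) | Red e p.1 p.2} =
      ⋂ n, ⋂ m, {p : (ℕ → Bool) × (ℕ → Bool) | Ev e p.1 n m ↔ m = (p.2 n).toNat} := by
    ext p
    rw [Set.mem_iInter]
    refine forall_congr' fun n => ?_
    rw [Set.mem_iInter]
    rfl
  rw [h1]
  refine MeasurableSet.iInter fun n => MeasurableSet.iInter fun m => ?_
  have h2 : MeasurableSet {p : (ℕ → Bool) × (ℕ → Bool) | Ev e p.1 n m} := by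
    have h3 : {p : (ℕ → Bool) × (ℕ → Bool) | Ev e p.1 n m} =
        ⋃ s, Prod.fst ⁻¹' {x : ℕ → Bool | GE e (pre x s) n m} := by
      ext p
      rw [Set.mem_iUnion]
      rfl
    rw [h3]
    exact MeasurableSet.iUnion fun s => measurable_fst (meas_P s (fun l => GE e l n m))
  have h4 : MeasurableSet {p : (ℕ → Bool) × (ℕ → Bool) | m = (p.2 n).toNat} := by
    have h5 : Measurable (fun p : (ℕ → Bool) × (ℕ → Bool) => (p.2 n).toNat) :=
      (Measurable.of_discrete (f := Bool.toNat)).comp
        ((measurable_pi_apply n).comp measurable_snd)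
    exact measurableSet_eq_fun measurable_const h5
  have h6 : {p : (ℕ → Bool) × (ℕ → Bool) | Ev e p.1 n m ↔ m = (p.2 n).toNat} =
      ({p | Ev e p.1 n m} ∩ {p | m = (p.2 n).toNat}) ∪
        ({p | Ev e p.1 n m}ᶜ ∩ {p | m = (p.2 n).toNat}ᶜ) := by
    ext p
    rw [Set.mem_union, Set.mem_inter_iff, Set.mem_inter_iff, Set.mem_compl_iff,
      Set.mem_compl_iff]
    exact iff_iff_and_or_not_and_not
  rw [h6]
  exact (h2.inter h4).union (h2.compl.inter h4.compl)

end Pool.Agent.H634.TC
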