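import Pool.Agent.H634.TC.Stm

set_option autoImplicit false

/-!
TJ-MZ: the set of sequences which read an element of `DD` is Borel; the real which is read.
-/

namespace Pool.Agent.H634.TC

open Nat.Partrec (Code)
open Pool.Agent.Helper227 (pre S1 chi)

namespace MZL

/-- a property of the first `n` letters is Borel -/
theorem meas_pr (P : List ℕ → Prop) (n : ℕ) : MeasurableSet {v : ℕ → ℕ | P (pr v n)} := by
  have h : {v : ℕ → ℕ | P (pr v n)} = ⋃ σ : {σ : List ℕ // P σ}, {v : ℕ → ℕ | pr v n = σ.1} := by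
    ext v
    rw [Set.mem_iUnion]
    constructor
    · intro hv
      exact ⟨⟨pr v n, hv⟩, rfl⟩
    · rintro ⟨⟨σ, hσ⟩, hv⟩
      have hv' : pr v n = σ := hv
      show P (pr v n)
      rw [hv']
      exact hσ
  rw [h]
  refine MeasurableSet.iUnion (fun σ => ?_)
  by_cases hσ : ∃ v0 : ℕ → ℕ, pr v0 n = σ.1
  · obtain ⟨v0, h0⟩ := hσ
    have h1 : {v : ℕ → ℕ | pr v n = σ.1} = ⋂ i : Fin n, {v : ℕ → ℕ | v i = v0 i} := by
      ext v
      rw [Set.mem_iInter]
      constructor
      · intro hv i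
        have hv' : pr v n = σ.1 := hv
        rw [← h0, pr_eq_iff] at hv'
        exact hv' i i.2
      · intro hv
        show pr v n = σ.1
        rw [← h0, pr_eq_iff]
        intro i hi
        exact hv ⟨i, hi⟩
    rw [h1]
    refine MeasurableSet.iInter (fun i => ?_)
    have h2 : {v : ℕ → ℕ | v i = v0 i} = (fun v : ℕ → ℕ => v i) ⁻¹' {v0 i} := rfl
    rw [h2]
    exact measurable_pi_apply (i : ℕ) (measurableSet_singleton _)
  · have h1 : {v : ℕ → ℕ | pr v n = σ.1} = ∅ := by
      rw [Set.eq_empty_iff_forall_notMem]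
      intro v hv
      exact hσ ⟨v, hv⟩
    rw [h1]
    exact MeasurableSet.empty

/-- a property of the state is Borel -/
theorem meas_st (P : List ℕ → Prop) (i : ℕ) : MeasurableSet {v : ℕ → ℕ | P (st DD v i)} := by
  have h := meas_pr (fun σ => P (stl DD σ)) i
  have e : {v : ℕ → ℕ | P (st DD v i)} = {v : ℕ → ℕ | P (stl DD (pr v i))} := by
    ext v
    show P (st DD v i) ↔ P (stl DD (pr v i))
    rw [st_eq_stl]
  rw [e]
  exact h

/-- a closed set is determined by its tree -/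
theorem mem_of_tree {C : Set (ℕ → ℕ)} (hC : IsClosed C) {y : ℕ → ℕ} {K : ℕ}
    (h : ∀ i, pr y (K + i) ∈ Tr C) : y ∈ C := by
  have h1 : ∀ i, ∃ z ∈ C, pr z (K + i) = pr y (K + i) := by
    intro i
    obtain ⟨z, hz, e⟩ := h i
    rw [pr_length] at e
    exact ⟨z, hz, e⟩
  choose z hz he using h1
  have hlim : Filter.Tendsto z Filter.atTop (nhds y) := by
    rw [tendsto_pi_nhds]
    intro k
    apply tendsto_nhds_of_eventually_eq
    filter_upwards [Filter.eventually_ge_atTop (k + 1)] with i hi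
    exact pr_eq_iff.1 (he i) k (by omega)
  exact hC.mem_of_tendsto hlim (Filter.Eventually.of_forall hz)

theorem InZ_iff (hC : IsClosed DD) (v : ℕ → ℕ) :
    InZ DD v ↔ ∃ N, ∀ i, N ≤ i → st DD v i ++ [v i] ∈ Tr DD := by
  constructor
  · rintro ⟨y, hy, N, K, h1, h2⟩
    refine ⟨N, fun i hi => ?_⟩
    obtain ⟨j, rfl⟩ : ∃ j, i = N + j := ⟨i - N, by omega⟩
    rw [st_of_val hy h1 h2, h2, ← pr_succ]
    exact pr_mem_Tr hy _
  · rintro ⟨N, h⟩
    obtain ⟨K, hK⟩ : ∃ K, K = (st DD v N).length := ⟨_, rfl⟩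
    obtain ⟨y, hy⟩ : ∃ y, y = app (st DD v N) (dr N v) := ⟨_, rfl⟩
    have h0 : pr y K = st DD v N := by
      rw [hy, hK, pr_app]
    have h2 : ∀ i, y (K + i) = v (N + i) := by
      intro i
      rw [hy, hK, app_ge]
      rfl
    have h1 : ∀ i, st DD v (N + i) = pr y (K + i) := by
      intro i
      induction i with
      | zero => exact h0.symm
      | succ i ih =>
        change dl DD (st DD v (N + i)) (v (N + i)) = _
        rw [dl_normal (h (N + i) (by omega)), ih, ← h2, ← pr_succ]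
        rfl
    have hyD : y ∈ DD := by
      apply mem_of_tree hC (K := K)
      intro i
      rw [← h1]
      exact st_mem DD_nonempty v _
    exact ⟨y, hyD, N, K, h0.symm, fun i => (h2 i).symm⟩

end MZL

open MZL in
theorem t_MZ : S_MZ := by
  intro hC
  have e : {v : ℕ → ℕ | InZ DD v} = ⋃ N : ℕ, ⋂ i : {i : ℕ // N ≤ i},
      {v : ℕ → ℕ | st DD v i.1 ++ [v i.1] ∈ Tr DD} := by
    ext v
    rw [Set.mem_iUnion]
    constructor
    · intro hv
      obtain ⟨N, hN⟩ := (InZ_iff hC v).1 hv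
      refine ⟨N, ?_⟩
      rw [Set.mem_iInter]
      intro i
      exact hN i.1 i.2
    · rintro ⟨N, hN⟩
      rw [Set.mem_iInter] at hN
      exact (InZ_iff hC v).2 ⟨N, fun i hi => hN ⟨i, hi⟩⟩
  rw [e]
  refine MeasurableSet.iUnion (fun N => MeasurableSet.iInter (fun i => ?_))
  obtain ⟨i, hi⟩ := i
  have h := meas_pr (fun σ => stl DD (σ.take i) ++ [σ.getD i 0] ∈ Tr DD) (i + 1)
  have e2 : {v : ℕ → ℕ | st DD v i ++ [v i] ∈ Tr DD} =
      {v : ℕ → ℕ | stl DD ((pr v (i + 1)).take i) ++ [(pr v (i + 1)).getD i 0] ∈ Tr DD} := by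
    ext v
    show st DD v i ++ [v i] ∈ Tr DD ↔
      stl DD ((pr v (i + 1)).take i) ++ [(pr v (i + 1)).getD i 0] ∈ Tr DD
    rw [take_pr v (Nat.le_succ i), pr_getD v (Nat.lt_succ_self i), st_eq_stl]
  show MeasurableSet {v : ℕ → ℕ | st DD v i ++ [v i] ∈ Tr DD}
  rw [e2]
  exact h

open MZL in
theorem t_MR : S_MR := by
  classical
  constructor
  · rw [measurable_pi_iff]
    intro n
    apply measurable_to_bool
    have e : (fun v : ℕ → ℕ => r0 v n) ⁻¹' {true} = ⋃ N : ℕ, ⋂ i : {i : ℕ // N ≤ i},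
        {v : ℕ → ℕ | (st DD v i.1)[2 * n]? = some 2} := by
      ext v
      rw [Set.mem_iUnion, Set.mem_preimage, Set.mem_singleton_iff]
      unfold r0
      rw [decide_eq_true_eq]
      constructor
      · rintro ⟨N, hN⟩
        refine ⟨N, ?_⟩
        rw [Set.mem_iInter]
        intro i
        exact hN i.1 i.2
      · rintro ⟨N, hN⟩
        rw [Set.mem_iInter] at hN
        exact ⟨N, fun i hi => hN ⟨i, hi⟩⟩
    rw [e]
    exact MeasurableSet.iUnion (fun N => MeasurableSet.iInter (fun i =>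
      meas_st (fun σ => σ[2 * n]? = some 2) i.1))
  · rintro v x ⟨hy, N, K, h1, h2⟩
    have key : ∀ n i, N + 2 * n + 1 ≤ i → (st DD v i)[2 * n]? = some (2 * (x n).toNat) := by
      intro n i hi
      obtain ⟨j, rfl⟩ : ∃ j, i = N + j := ⟨i - N, by omega⟩
      rw [st_of_val hy h1 h2, pr_getElem? (dx x) (by omega : 2 * n < K + j), dx_even]
    funext n
    unfold r0
    cases hx : x n
    · rw [decide_eq_false_iff_not]
      rintro ⟨M, hM⟩
      have h3 := hM (max M (N + 2 * n + 1)) (le_max_left _ _)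
      rw [key n _ (le_max_right _ _), hx] at h3
      simp at h3
    · rw [decide_eq_true_eq]
      refine ⟨N + 2 * n + 1, fun i hi => ?_⟩
      rw [key n i hi, hx]
      rfl

end Pool.Agent.H634.TC
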