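import Pool.Agent.H634.TC.Stm

set_option autoImplicit false

namespace Pool.Agent.H634.TC

open Pool.Agent.Helper227 (pre S1 chi)

namespace NDL

open Pool.Agent.Helper227

theorem pre_trunc {x x' : ℕ → Bool} {N s : ℕ} (h : pre x' N = pre x N) (hs : s ≤ N) :
    pre x' s = pre x s := by
  rw [← take_pre x' N s hs, ← take_pre x N s hs, h]

theorem pref_of {x : ℕ → Bool} {σ : List Bool} {N : ℕ} (h : pre x σ.length = σ)
    (hN : σ.length ≤ N) : σ <+: pre x N := by
  have h1 := pre_prefix x hN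
  rwa [h] at h1

/-- `c` is bad for `(a, σ)` -/
def Bad (a : ℕ) (σ : List Bool) (c : ℕ → Bool) : Prop :=
  ∀ σ', σ <+: σ' → ∃ x : ℕ → Bool, pre x σ'.length = σ' ∧ Red a x c

theorem bad_unique {a : ℕ} {σ : List Bool} {c c' : ℕ → Bool} (h : Bad a σ c) (h' : Bad a σ c') :
    c = c' := by
  funext n
  obtain ⟨x, hx, hr⟩ := h σ (List.prefix_refl σ)
  obtain ⟨s, hs⟩ := (hr n (c n).toNat).2 rfl
  obtain ⟨x', hx', hr'⟩ := h' (pre x (max s σ.length)) (pref_of hx (le_max_right _ _))
  rw [length_pre] at hx'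
  have h1 : pre x' s = pre x s := pre_trunc hx' (le_max_left _ _)
  have h2 : Ev a x' n (c n).toNat := ⟨s, by rw [h1]; exact hs⟩
  have h3 := (hr' n _).1 h2
  revert h3
  cases c n <;> cases c' n <;> simp

end NDL

open NDL in
theorem t_ND : S_ND := by
  intro a σ τ
  by_cases h : ∃ x y : ℕ → Bool, pre x σ.length = σ ∧ pre y τ.length = τ ∧ Red a x y
  · obtain ⟨x, y, hx, hy, hr⟩ := h
    obtain ⟨n, hn⟩ : ∃ n, n = τ.length := ⟨_, rfl⟩
    obtain ⟨s, hs⟩ := (hr n (y n).toNat).2 rfl
    refine ⟨pre x (max s σ.length), τ ++ [! y n], pref_of hx (le_max_right _ _),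
      List.prefix_append _ _, ?_⟩
    intro x' y' hx' hy' hr'
    rw [Pool.Agent.Helper227.length_pre] at hx'
    have h1 : pre x' s = pre x s := pre_trunc hx' (le_max_left _ _)
    have h2 : Ev a x' n (y n).toNat := ⟨s, by rw [h1]; exact hs⟩
    have h3 := (hr' n _).1 h2
    have h4 : (τ ++ [! y n]).length = n + 1 := by
      rw [List.length_append, List.length_singleton, hn]
    rw [h4, Pool.Agent.Helper227.pre_succ] at hy'
    have h5 := (List.append_inj' hy' rfl).2
    simp only [List.cons.injEq, and_true] at h5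
    rw [h5] at h3
    revert h3
    cases y n <;> simp
  · refine ⟨σ, τ, List.prefix_refl _, List.prefix_refl _, ?_⟩
    intro x y hx hy hr
    exact h ⟨x, y, hx, hy, hr⟩

open NDL in
theorem t_NC : S_NC := by
  have hcount : {c : ℕ → Bool | ∃ (a : ℕ) (σ : List Bool), Bad a σ c}.Countable := by
    have e : {c : ℕ → Bool | ∃ (a : ℕ) (σ : List Bool), Bad a σ c} =
        ⋃ (a : ℕ) (σ : List Bool), {c | Bad a σ c} := by
      ext c
      simp only [Set.mem_iUnion, Set.mem_ofPred_eq]
    rw [e]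
    refine Set.countable_iUnion fun a => Set.countable_iUnion fun σ => ?_
    refine Set.Subsingleton.countable ?_
    intro c hc c' hc'
    exact bad_unique hc hc'
  obtain ⟨f, hf⟩ := Set.countable_iff_exists_subset_range.1 hcount
  refine ⟨fun n => ! f n n, ?_⟩
  intro a σ
  by_contra hcon
  have hbad : Bad a σ (fun n => ! f n n) := by
    intro σ' hσ'
    by_contra h2
    refine hcon ⟨σ', hσ', ?_⟩
    intro x hx hr
    exact h2 ⟨x, hx, hr⟩
  obtain ⟨n, hn⟩ := hf (show (fun n => ! f n n) ∈ {c : ℕ → Bool | ∃ (a : ℕ) (σ : List Bool),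
    Bad a σ c} from ⟨a, σ, hbad⟩)
  have h3 := congrFun hn n
  revert h3
  cases f n n <;> simp

end Pool.Agent.H634.TC
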