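import Pool.Agent.H634.TC.Stm

set_option autoImplicit false

namespace Pool.Agent.H634.TC

open Nat.Partrec (Code)
open Pool.Agent.Helper227 (pre S1 chi recIn_graph recIn_of_graph)

namespace REDL

theorem mem_chi {y : ℕ → Bool} {n m : ℕ} : m ∈ chi y n ↔ m = (y n).toNat := Part.mem_some_iff

end REDL

/-- Turing reducibility in the sense of Mathlib is `TR`. -/
theorem t_RED : S_RED := by
  intro x y
  constructor
  · intro h
    obtain ⟨G, hG, -, hG2⟩ := recIn_graph h
    obtain ⟨e, he⟩ := exists_GE hG
    refine ⟨e, fun n m => ?_⟩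
    rw [← REDL.mem_chi, hG2]
    exact exists_congr fun s => he _ _ _
  · rintro ⟨e, he⟩
    refine recIn_of_graph (GE_S1 e) fun n m => ?_
    rw [REDL.mem_chi, ← he]
    exact Iff.rfl

end Pool.Agent.H634.TC
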