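import Pool.Agent.H634.TC.Stm

set_option autoImplicit false

namespace Pool.Agent.H634.TC

open Nat.Partrec (Code)
open Pool.Agent.Helper227 (pre S1 chi)

namespace RHOL

theorem meas_pre (P : List Bool → Prop) (s : ℕ) : MeasurableSet {x : ℕ → Bool | P (pre x s)} := by
  let _ : MeasurableSpace (List Bool) := ⊤
  have _ : DiscreteMeasurableSpace (List Bool) := ⟨fun _ => trivial⟩
  have h : Measurable fun x : ℕ → Bool => pre x s := by
    induction s with
    | zero =>
      have e : (fun x : ℕ → Bool => pre x 0) = fun _ => [] := by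
        ext1 x
        exact List.length_eq_zero_iff.mp (Pool.Agent.Helper227.length_pre x 0)
      rw [e]
      exact measurable_const
    | succ s ih =>
      have e : (fun x : ℕ → Bool => pre x (s + 1)) =
          (fun q : List Bool × Bool => q.1 ++ [q.2]) ∘ fun x => (pre x s, x s) := by
        ext1 x
        exact Pool.Agent.Helper227.pre_succ x s
      rw [e]
      have hs : Measurable fun x : ℕ → Bool => x s := measurable_pi_apply s
      refine Measurable.comp ?_ (ih.prodMk hs)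
      exact Measurable.of_discrete
  exact h (MeasurableSet.of_discrete (s := {σ | P σ}))

open Classical in
/-- the real computed by the c.e. set `a` from `x` -/
noncomputable def FF (a : ℕ) (x : ℕ → Bool) : ℕ → Bool := fun n =>
  decide (∃ s, GE a (pre x s) n 1)

theorem meas_FF (a : ℕ) : Measurable (FF a) := by
  classical
  rw [measurable_pi_iff]
  intro n
  refine measurable_to_bool ?_
  have e : (fun x => FF a x n) ⁻¹' {true} = ⋃ s, {x : ℕ → Bool | GE a (pre x s) n 1} := by
    ext x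
    rw [Set.mem_iUnion]
    unfold FF
    exact decide_eq_true_iff
  rw [e]
  exact MeasurableSet.iUnion fun s => meas_pre (fun σ => GE a σ n 1) s

theorem FF_eq {a : ℕ} {x y : ℕ → Bool} (h : Red a x y) : FF a x = y := by
  classical
  ext1 n
  have h1 := h n 1
  unfold FF
  unfold Ev at h1
  cases hy : y n with
  | true =>
    rw [hy] at h1
    exact decide_eq_true_iff.mpr (h1.mpr rfl)
  | false =>
    rw [hy] at h1
    refine decide_eq_false_iff_not.mpr fun h2 => ?_
    have := h1.mp h2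
    simp at this

end RHOL

open RHOL in
theorem t_RHO : S_RHO := by
  classical
  intro ψ hψ hinj hZ hR
  have hΨ : MeasurableEmbedding (fun q : ℕ × (ℕ → ℕ) => ψ q.1 q.2) := by
    refine hψ.measurableEmbedding ?_
    rintro ⟨n, v⟩ ⟨n', v'⟩ h
    obtain ⟨h1, h2⟩ := hinj n n' v v' h
    rw [h1, h2]
  obtain ⟨I, hI, hI2⟩ := hΨ.exists_measurable_extend (g := fun q : ℕ × (ℕ → ℕ) => q)
    measurable_id (fun _ => ⟨(0, fun _ => 0)⟩)
  have hIψ : ∀ n v, I (ψ n v) = (n, v) := fun n v => congrFun hI2 (n, v)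
  have hTE : MeasurableSet {p : (ℕ → Bool) × (ℕ → Bool) | TE p.1 p.2} := by
    have h1 : MeasurableSet (⋃ e : ℕ, {p : (ℕ → Bool) × (ℕ → Bool) | Red e p.1 p.2}) :=
      MeasurableSet.iUnion hR
    have h2 : MeasurableSet (Prod.swap ⁻¹' (⋃ e : ℕ,
        {p : (ℕ → Bool) × (ℕ → Bool) | Red e p.1 p.2})) := measurable_swap h1
    have e : {p : (ℕ → Bool) × (ℕ → Bool) | TE p.1 p.2} =
        (⋃ e : ℕ, {p : (ℕ → Bool) × (ℕ → Bool) | Red e p.1 p.2}) ∩
        (Prod.swap ⁻¹' (⋃ e : ℕ, {p : (ℕ → Bool) × (ℕ → Bool) | Red e p.1 p.2})) := by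
      ext p
      simp only [Set.mem_inter_iff, Set.mem_iUnion, Set.mem_preimage]
      rfl
    rw [e]
    exact h1.inter h2
  set Bs : ℕ → Set (ℕ → Bool) := fun a => {x | FF a x ∈ Set.range (fun q : ℕ × (ℕ → ℕ) => ψ q.1 q.2) ∧
    ¬ InZ DD (I (FF a x)).2 ∧ TE x (FF a x)} with hBs
  have hBm : ∀ a, MeasurableSet (Bs a) := by
    intro a
    have m1 : MeasurableSet (FF a ⁻¹' (Set.range (fun q : ℕ × (ℕ → ℕ) => ψ q.1 q.2))) :=
      meas_FF a hΨ.measurableSet_range
    have m2 : MeasurableSet ((fun x => (I (FF a x)).2) ⁻¹' {v : ℕ → ℕ | InZ DD v}) :=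
      (measurable_snd.comp (hI.comp (meas_FF a))) hZ
    have m3 : MeasurableSet ((fun x => (x, FF a x)) ⁻¹'
        {p : (ℕ → Bool) × (ℕ → Bool) | TE p.1 p.2}) :=
      (measurable_id.prodMk (meas_FF a)) hTE
    exact m1.inter (m2.compl.inter m3)
  have hWm : MeasurableSet (⋃ a, Bs a) := MeasurableSet.iUnion hBm
  have hex : ∀ x : ℕ → Bool, ∃ a, x ∈ Bs a ∨ x ∉ ⋃ a, Bs a := by
    intro x
    by_cases hx : x ∈ ⋃ a, Bs a
    · obtain ⟨a, ha⟩ := Set.mem_iUnion.mp hx
      exact ⟨a, Or.inl ha⟩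
    · exact ⟨0, Or.inr hx⟩
  have hN : Measurable fun x : ℕ → Bool => Nat.find (hex x) := by
    refine measurable_find hex fun k => ?_
    exact (hBm k).union hWm.compl
  have hρ : Measurable fun x : ℕ → Bool => I (FF (Nat.find (hex x)) x) := by
    have h1 : Measurable fun q : (ℕ → Bool) × ℕ => I (FF q.2 q.1) := by
      refine measurable_from_prod_countable_left fun a => ?_
      exact hI.comp (meas_FF a)
    exact h1.comp (measurable_id.prodMk hN)
  refine ⟨⋃ a, Bs a, fun x => (I (FF (Nat.find (hex x)) x)).1,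
    fun x => (I (FF (Nat.find (hex x)) x)).2, hWm, measurable_fst.comp hρ,
    measurable_snd.comp hρ, ?_, ?_⟩
  · intro x hx
    have h1 : x ∈ Bs (Nat.find (hex x)) := by
      rcases Nat.find_spec (hex x) with h | h
      · exact h
      · exact absurd hx h
    obtain ⟨⟨⟨n, v⟩, hq⟩, h2, h3⟩ := h1
    refine ⟨h2, ?_⟩
    have hq' : ψ n v = FF (Nat.find (hex x)) x := hq
    have h4 : ψ (I (FF (Nat.find (hex x)) x)).1 (I (FF (Nat.find (hex x)) x)).2 =
        FF (Nat.find (hex x)) x := by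
      rw [← hq', hIψ]
    show TE x (ψ (I (FF (Nat.find (hex x)) x)).1 (I (FF (Nat.find (hex x)) x)).2)
    rw [h4]
    exact h3
  · intro x hx n v hv hTEx
    apply hx
    obtain ⟨a, ha⟩ := hTEx.1
    have h1 := FF_eq ha
    refine Set.mem_iUnion.mpr ⟨a, ?_⟩
    refine ⟨?_, ?_, ?_⟩
    · rw [h1]
      exact ⟨(n, v), rfl⟩
    · rw [h1, hIψ]
      exact hv
    · rw [h1]
      exact hTEx

end Pool.Agent.H634.TC
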