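import Pool.Agent.H634.TC.Stm

set_option autoImplicit false

namespace Pool.Agent.H634.TC

open Set

theorem t_SB : S_SB := by
  intro R f g hf hg hfi hgi hRf hRg
  have ef := hf.measurableEmbedding hfi
  have eg := hg.measurableEmbedding hgi
  obtain ⟨g', hg'm, hg'⟩ : ∃ g' : (ℕ → Bool) → (ℕ → ℕ), Measurable g' ∧ g' ∘ g = id :=
    eg.exists_measurable_extend measurable_id (fun _ => inferInstance)
  have hg'' : ∀ b, g' (g b) = b := fun b => congrFun hg' b
  set k : (ℕ → Bool) → (ℕ → Bool) := g ∘ f with hk
  have ek : MeasurableEmbedding k := eg.comp ef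
  have hkn : ∀ n, MeasurableEmbedding (k^[n]) := by
    intro n
    induction n with
    | zero => simpa using MeasurableEmbedding.id
    | succ n ih => rw [Function.iterate_succ]; exact ih.comp ek
  set A : Set (ℕ → Bool) := ⋃ n, k^[n] '' (range g)ᶜ with hA
  have hAm : MeasurableSet A := by
    refine MeasurableSet.iUnion fun n => ?_
    exact (hkn n).measurableSet_image.2 eg.measurableSet_range.compl
  have hA0 : (range g)ᶜ ⊆ A := by
    intro x hx
    exact mem_iUnion.2 ⟨0, x, hx, rfl⟩
  have hA1 : ∀ x ∈ A, k x ∈ A := by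
    intro x hx
    obtain ⟨n, c, hc, rfl⟩ := mem_iUnion.1 hx
    refine mem_iUnion.2 ⟨n + 1, c, hc, ?_⟩
    rw [Function.iterate_succ_apply']
  classical
  let h : (ℕ → Bool) → (ℕ → ℕ) := fun x => if x ∈ A then f x else g' x
  have hpos : ∀ x, x ∈ A → h x = f x := fun x hx => if_pos hx
  have hneg : ∀ x, x ∉ A → ∃ b, g b = x ∧ h x = b := by
    intro x hx
    have hr : x ∈ range g := by
      by_contra hcon
      exact hx (hA0 hcon)
    obtain ⟨b, rfl⟩ := hr
    refine ⟨b, rfl, ?_⟩
    have : h (g b) = g' (g b) := if_neg hx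
    rw [this, hg'']
  have hhm : Measurable h := Measurable.ite hAm hf hg'm
  have hinj : Function.Injective h := by
    intro x y hxy
    by_cases hx : x ∈ A
    · by_cases hy : y ∈ A
      · rw [hpos x hx, hpos y hy] at hxy
        exact hfi hxy
      · obtain ⟨b, hb, hb'⟩ := hneg y hy
        exfalso
        apply hy
        rw [hpos x hx, hb'] at hxy
        have : k x = y := by rw [hk, Function.comp_apply, hxy, hb]
        rw [← this]
        exact hA1 x hx
    · obtain ⟨a, ha, ha'⟩ := hneg x hx
      by_cases hy : y ∈ A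
      · exfalso
        apply hx
        rw [hpos y hy, ha'] at hxy
        have : k y = x := by rw [hk, Function.comp_apply, ← hxy, ha]
        rw [← this]
        exact hA1 y hy
      · obtain ⟨b, hb, hb'⟩ := hneg y hy
        rw [ha', hb'] at hxy
        rw [← ha, ← hb, hxy]
  have hsurj : Function.Surjective h := by
    intro b
    by_cases hb : g b ∈ A
    · obtain ⟨n, c, hc, hcb⟩ := mem_iUnion.1 hb
      cases n with
      | zero =>
        exfalso
        apply hc
        rw [Function.iterate_zero, id] at hcb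
        exact ⟨b, hcb.symm⟩
      | succ n =>
        rw [Function.iterate_succ_apply'] at hcb
        have h1 : f (k^[n] c) = b := by
          apply hgi
          exact hcb
        refine ⟨k^[n] c, ?_⟩
        rw [hpos _ (mem_iUnion.2 ⟨n, c, hc, rfl⟩), h1]
    · obtain ⟨a, ha, ha'⟩ := hneg (g b) hb
      exact ⟨g b, by rw [ha']; exact hgi ha⟩
  have eh := hhm.measurableEmbedding hinj
  let E : (ℕ → Bool) ≃ (ℕ → ℕ) := Equiv.ofBijective h ⟨hinj, hsurj⟩
  have hEs : Measurable E.symm := by
    intro s hs
    have : E.symm ⁻¹' s = E '' s := by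
      rw [Equiv.image_eq_preimage_symm]
    rw [this]
    exact eh.measurableSet_image.2 hs
  refine ⟨⟨E, hhm, hEs⟩, ?_⟩
  intro a
  show R a (h a)
  by_cases ha : a ∈ A
  · rw [hpos a ha]
    exact hRf a
  · obtain ⟨b, hb, hb'⟩ := hneg a ha
    rw [hb', ← hb]
    exact hRg b

end Pool.Agent.H634.TC
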