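import Pool.Agent.H634.TC.Stm

set_option autoImplicit false

/-!
Shifts and finite modifications of reals are Turing reducible.
-/

namespace Pool.Agent.H634.TC

open Nat.Partrec (Code)
open Pool.Agent.Helper227 (pre S1 chi)

namespace SHFL

/-- the graph -/
def G (L : List Bool) (N K : ℕ) (z : List Bool × ℕ × ℕ) : Prop :=
  (z.2.1 < N ∧ z.2.2 = (L.getD z.2.1 false).toNat) ∨
    (¬ z.2.1 < N ∧ z.2.1 - N + K < z.1.length ∧
      z.2.2 = (z.1.getD (z.2.1 - N + K) false).toNat)

theorem toNat_prim : Primrec Bool.toNat := Primrec.dom_bool _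

theorem G_prim (L : List Bool) (N K : ℕ) : PrimrecPred (G L N K) := by
  have hn : Primrec fun z : List Bool × ℕ × ℕ => z.2.1 := Primrec.fst.comp Primrec.snd
  have hm : Primrec fun z : List Bool × ℕ × ℕ => z.2.2 := Primrec.snd.comp Primrec.snd
  have hk : Primrec fun z : List Bool × ℕ × ℕ => z.2.1 - N + K :=
    Primrec.nat_add.comp (Primrec.nat_sub.comp hn (Primrec.const N)) (Primrec.const K)
  have h1 : PrimrecPred fun z : List Bool × ℕ × ℕ => z.2.1 < N :=
    Primrec.nat_lt.comp hn (Primrec.const N)
  have h2 : PrimrecPred fun z : List Bool × ℕ × ℕ => z.2.2 = (L.getD z.2.1 false).toNat :=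
    Primrec.eq.comp hm (toNat_prim.comp ((Primrec.list_getD false).comp (Primrec.const L) hn))
  have h3 : PrimrecPred fun z : List Bool × ℕ × ℕ => z.2.1 - N + K < z.1.length :=
    Primrec.nat_lt.comp hk (Primrec.list_length.comp Primrec.fst)
  have h4 : PrimrecPred fun z : List Bool × ℕ × ℕ =>
      z.2.2 = (z.1.getD (z.2.1 - N + K) false).toNat :=
    Primrec.eq.comp hm (toNat_prim.comp ((Primrec.list_getD false).comp Primrec.fst hk))
  exact (h1.and h2).or (h1.not.and (h3.and h4))

end SHFL

theorem t_SHF : S_SHF := by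
  intro x y N K h
  obtain ⟨e, he⟩ := exists_GE (S1.of_prim (SHFL.G_prim (pre y N) N K))
  refine ⟨e, fun n m => ?_⟩
  unfold Ev
  simp only [he]
  unfold SHFL.G
  by_cases hn : n < N
  · constructor
    · rintro ⟨s, h1 | h1⟩
      · have h2 := h1.2
        simp only at h2
        rw [Pool.Agent.Helper227.pre_getD y N n false hn] at h2
        exact h2
      · exact absurd hn h1.1
    · intro h1
      refine ⟨0, Or.inl ⟨hn, ?_⟩⟩
      show m = _
      rw [Pool.Agent.Helper227.pre_getD y N n false hn]
      exact h1
  · have hy : y n = x (n - N + K) := by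
      have h1 := h (n - N)
      rw [show N + (n - N) = n by omega, show K + (n - N) = n - N + K by omega] at h1
      exact h1
    constructor
    · rintro ⟨s, h1 | h1⟩
      · exact absurd h1.1 hn
      · obtain ⟨-, h2, h3⟩ := h1
        simp only at h2 h3
        have h4 : n - N + K < s := by
          have h5 : (pre x s).length = s := by simp [pre]
          omega
        rw [Pool.Agent.Helper227.pre_getD x s _ false h4] at h3
        rw [hy]
        exact h3
    · intro h1
      refine ⟨n - N + K + 1, Or.inr ⟨hn, ?_, ?_⟩⟩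
      · show n - N + K < (pre x (n - N + K + 1)).length
        simp [pre]
      · show m = ((pre x (n - N + K + 1)).getD (n - N + K) false).toNat
        rw [Pool.Agent.Helper227.pre_getD x _ _ false (Nat.lt_succ_self _), h1, hy]

end Pool.Agent.H634.TC
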