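import Pool.Agent.H634.TC.Stm

set_option autoImplicit false

/-!
Turing equivalence as an orbit equivalence relation: the swap homeomorphism of two cylinders.
-/

namespace Pool.Agent.H634.TC

namespace SWPL

open Classical in
/-- the swap of the cylinders of `s` and `t` -/
noncomputable def sw (s t : List ℕ) (v : ℕ → ℕ) : ℕ → ℕ :=
  if pr v s.length = s then app t (dr s.length v)
  else if pr v t.length = t then app s (dr t.length v) else v

theorem sw_1 {s t : List ℕ} {v : ℕ → ℕ} (h : pr v s.length = s) :
    sw s t v = app t (dr s.length v) := if_pos h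

theorem sw_2 {s t : List ℕ} {v : ℕ → ℕ} (h : ¬ pr v s.length = s) (h' : pr v t.length = t) :
    sw s t v = app s (dr t.length v) := by
  unfold sw
  rw [if_neg h, if_pos h']

theorem sw_3 {s t : List ℕ} {v : ℕ → ℕ} (h : ¬ pr v s.length = s) (h' : ¬ pr v t.length = t) :
    sw s t v = v := by
  unfold sw
  rw [if_neg h, if_neg h']

theorem sw_sw {s t : List ℕ} (hl : s.length = t.length) (hst : s ≠ t) (v : ℕ → ℕ) :
    sw s t (sw s t v) = v := by
  by_cases h : pr v s.length = s
  · rw [sw_1 h]
    have h1 : pr (app t (dr s.length v)) t.length = t := pr_app _ _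
    have h2 : ¬ pr (app t (dr s.length v)) s.length = s := by
      rw [hl, pr_app]
      exact fun h => hst h.symm
    rw [sw_2 h2 h1, dr_app]
    exact app_dr h
  · by_cases h' : pr v t.length = t
    · rw [sw_2 h h', sw_1 (pr_app _ _), dr_app]
      exact app_dr h'
    · rw [sw_3 h h', sw_3 h h']

theorem clopen (s : List ℕ) : IsClopen {v : ℕ → ℕ | pr v s.length = s} := by
  have e : {v : ℕ → ℕ | pr v s.length = s} =
      ⋂ i ∈ Finset.range s.length, {v : ℕ → ℕ | v i = s.getD i 0} := by
    ext v
    simp only [Set.mem_ofPred_eq, Set.mem_iInter, Finset.mem_range]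
    constructor
    · intro h i hi
      have h4 := pr_getD v hi
      rw [h] at h4
      exact h4.symm
    · intro h
      apply List.ext_getElem
      · simp
      · intro i h1 h2
        have h3 := h i h2
        rw [List.getD_eq_getElem _ _ h2] at h3
        rw [← h3]
        simp [pr]
  rw [e]
  refine isClopen_biInter_finset fun i _ => ?_
  exact (isClopen_discrete {a : ℕ | a = s.getD i 0}).preimage (continuous_apply i)

theorem cont_app (t : List ℕ) (n : ℕ) : Continuous fun v : ℕ → ℕ => app t (dr n v) := by
  refine continuous_pi fun i => ?_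
  unfold app dr
  by_cases h : i < t.length
  · simp only [h, if_true]
    exact continuous_const
  · simp only [h, if_false]
    exact continuous_apply _

theorem cont (s t : List ℕ) : Continuous (sw s t) := by
  classical
  unfold sw
  refine Continuous.if ?_ (cont_app _ _) (Continuous.if ?_ (cont_app _ _) continuous_id)
  · intro a ha
    rw [(clopen s).frontier_eq] at ha
    exact ha.elim
  · intro a ha
    rw [(clopen t).frontier_eq] at ha
    exact ha.elim

end SWPL

open SWPL in
theorem t_SWP : S_SWP := by
  intro D s t hl hD
  by_cases hst : s = t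
  · subst hst
    exact ⟨Homeomorph.refl _, fun u => rfl, fun v => ⟨0, rfl, fun i _ => rfl⟩⟩
  · refine ⟨⟨⟨sw s t, sw s t, sw_sw hl hst, sw_sw hl hst⟩, cont s t, cont s t⟩, ?_, ?_⟩
    · intro u
      change sw s t (app s u) = app t u
      rw [sw_1 (pr_app _ _), dr_app]
    · intro v
      change ∃ n, st D v n = st D (sw s t v) n ∧ ∀ i, n ≤ i → sw s t v i = v i
      by_cases h : pr v s.length = s
      · refine ⟨s.length, ?_, ?_⟩
        · rw [sw_1 h, st_eq_stl, st_eq_stl, h, hD]
          conv_rhs => rw [hl, pr_app]
        · intro i hi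
          obtain ⟨j, rfl⟩ := Nat.exists_eq_add_of_le hi
          rw [sw_1 h]
          conv_lhs => rw [hl, app_ge]
          rw [← hl]
          rfl
      · by_cases h' : pr v t.length = t
        · refine ⟨t.length, ?_, ?_⟩
          · rw [sw_2 h h', st_eq_stl, st_eq_stl, h', ← hD]
            conv_rhs => rw [← hl, pr_app]
          · intro i hi
            obtain ⟨j, rfl⟩ := Nat.exists_eq_add_of_le hi
            rw [sw_2 h h']
            conv_lhs => rw [← hl, app_ge]
            rw [hl]
            rfl
        · rw [sw_3 h h']
          exact ⟨0, rfl, fun i _ => rfl⟩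

end Pool.Agent.H634.TC
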