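import Pool.Agent.H634.TC.Basic

set_option autoImplicit false

/-!
The lemmas. Each `S_XXX` is the statement of one lemma; its docstring is the complete proof.
`pre x s` is the string of the first `s` bits of `x : ℕ → Bool`, `S1` are the c.e. predicates
(`Pool.Graph.R_seed8.Helper227.SOne`: `S1.of_prim, S1.comp, S1.and, S1.or, S1.ex, S1.all_lt,
S1.all_mem`), and `recIn_graph`, `recIn_of_graph` (`Pool.Graph.R_seed8.Helper227.Use`) translate
between `Nat.RecursiveIn {chi x} f` and c.e. graphs.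
-/

namespace Pool.Agent.H634.TC

open Nat.Partrec (Code)
open Pool.Agent.Helper227 (pre S1 chi)

/-! ### Further definitions -/

open Classical in
/-- characteristic sequence of the jump -/
noncomputable def jb (x : ℕ → Bool) : ℕ → Bool := fun n => decide (n ∈ Jp x)

/-- codes of the reals `x` which compute some `y` by `a` such that `y` computes `x` by `b` -/
def KK (a b : ℕ) : Set (ℕ → ℕ) := {d | ∃ x y, d = dx x ∧ Red a x y ∧ Red b y x}

/-- `(σ, a)` with `σ` in the tree of `C` and `σ a` not in the tree of `C` -/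
def Pc (C : Set (ℕ → ℕ)) : Type := {p : List ℕ × ℕ // p.1 ∈ Tr C ∧ p.1 ++ [p.2] ∉ Tr C}

/-- the code of `n` and the run of `v` -/
noncomputable def cd (n : ℕ) (v : ℕ → ℕ) : ℕ → Bool := fun k =>
  decide (k.unpair.2 = Nat.pair n (Nat.pair (v k.unpair.1) (Encodable.encode (st DD v k.unpair.1))))

/-- homeomorphisms of Baire space -/
abbrev Hm : Type := (ℕ → ℕ) ≃ₜ (ℕ → ℕ)

/-! ### Recursion theory -/

/-- Turing reducibility in the sense of Mathlib is `TR`.

Proof. Let `y` be recursive in `x`. `recIn_graph` gives a c.e. `G` with `m ∈ chi y n ↔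
∃ s, G (pre x s, n, m)`; take `e` from `exists_GE`; then `Ev e x n m ↔ m ∈ chi y n ↔
m = (y n).toNat` (`Part.mem_some_iff`). Conversely use `recIn_of_graph` with
`G z = GE e z.1 z.2.1 z.2.2`, which is c.e. by `GE_S1`. -/
def S_RED : Prop := ∀ x y : ℕ → Bool, Nat.RecursiveIn {chi x} (chi y) ↔ TR x y

/-- Every family of sets uniformly c.e. in `x` is a column of the jump.

Proof. `exists_GE` for the c.e. graph `G (σ, i, m) = H (σ, i) ∧ m = 0` gives `e` with
`GE e σ i 0 ↔ H (σ, i)`. Now `Nat.pair e i ∈ Jp x` says: there is `k` with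
`W k.unpair.2 e (encode (pre x k.unpair.1, i, 0)) = true`; with `k = Nat.pair s r` this is
`∃ s r, W r e (encode (pre x s, i, 0)) = true`, that is `∃ s, GE e (pre x s) i 0`. -/
def S_ACC : Prop := ∀ H : List Bool × ℕ → Prop, S1 H →
  ∃ e, ∀ (x : ℕ → Bool) (i : ℕ), (∃ s, H (pre x s, i)) ↔ Nat.pair e i ∈ Jp x

/-- The jump is uniformly c.e. in `x`.

Proof. `H (σ, n) = ∃ k, k.unpair.1 ≤ σ.length ∧
W k.unpair.2 n.unpair.1 (encode (σ.take k.unpair.1, n.unpair.2, 0)) = true` is c.e.
(`S1.ex (S1.of_prim ..)` with `W_prim`), and `(pre x s).take j = pre x j` for `j ≤ s`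
(`Pool.Agent.Helper227.take_pre`). -/
def S_JPS : Prop := ∃ H : List Bool × ℕ → Prop, S1 H ∧
  ∀ (x : ℕ → Bool) (n : ℕ), (∃ s, H (pre x s, n)) ↔ n ∈ Jp x

/-- If `x` computes `y` by the functional `a`, then families uniformly c.e. in `y` are columns of the
jump of `x`.

Proof. Let `H' (σ, i) = ∃ τ : List Bool, H (τ, i) ∧ ∀ j < τ.length, ∃ s', s' ≤ σ.length ∧
GE a (σ.take s') j (τ.getD j false).toNat`. It is c.e. (`S1.ex`, `S1.and`, `S1.all_lt`). Suppose
`Red a x y`. If `H (pre y t, i)`, take `τ = pre y t`: for each `j < t` there is `s_j` with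
`GE a (pre x s_j) j (y j).toNat`, and `s = max s_j` works. Conversely if `H' (pre x s, i)` with `τ`,
then `Ev a x j (τ.getD j false).toNat` for all `j < τ.length`, so `τ_j = y j`, and
`τ = pre y τ.length`. Hence `(∃ s, H (pre y s, i)) ↔ ∃ s, H' (pre x s, i)`; apply the statement
`S_ACC` to `H'`. -/
def S_CMP : Prop := ∀ (a : ℕ) (H : List Bool × ℕ → Prop), S1 H →
  ∃ e, ∀ (x y : ℕ → Bool) (i : ℕ), Red a x y →
    ((∃ s, H (pre y s, i)) ↔ Nat.pair e i ∈ Jp x)

/-- The set of codes of jumps is closed.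

Proof. Let `d` be in the closure. Every neighbourhood of `d` contains points `dx x`, so all
`d (2 * n) ∈ {0, 2}`; put `x n = decide (d (2 * n) = 2)`. Claim `d = dx x`. Even places are clear.
Let `n` be given. All `dx x'` have even values so `d (2 * n + 1) = 2 * c`. Case `c = 0`: for each
`k` choose `x'` such that `dx x'` agrees with `d` at `2 * n + 1` and at all `2 * i`,
`i < k.unpair.1`; then `pre x' k.unpair.1 = pre x k.unpair.1`, and `cx x' n = 0` so
`¬ Cert x' n k`, so `¬ Cert x n k`; hence `cx x n = 0`. Case `c = 1 + k`: choose `x'` such that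
`dx x'` agrees with `d` at `2 * n + 1` and at all `2 * i`, `i ≤ k` (`k'.unpair.1 ≤ k' ≤ k`); then
`Cert x' n k` and `¬ Cert x' n k'` for `k' < k` (`cx_eq_succ`), and the same holds for `x`, so
`cx x n = 1 + k`. -/
def S_DCL : Prop := IsClosed DD

/-- Codes of reals which compute some `y` by `a` such that `y` computes `x` by `b` form a closed
set.

Proof. Let `d` be in the closure of `KK a b`. `DD` is closed and contains `KK a b`, so `d = dx x`.
For each finite set of coordinates there is `x' y'` with `Red a x' y'`, `Red b y' x'` such that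
`dx x'` agrees with `dx x` on these coordinates (call `x'` close to `x`). By `S_ACC` for
`H (σ, i) = GE a σ i.unpair.1 i.unpair.2` there is `e` such that `Ev a x' n m ↔
Nat.pair e (Nat.pair n m) ∈ Jp x'` for all `x'`; if `x'` is close to `x` (agrees at
`2 * Nat.pair e (Nat.pair n m) + 1`) then `Ev a x' n m ↔ Ev a x n m` (`cx_eq_zero`). Put
`y n = decide (Ev a x n 1)`. Then `Red a x y`: given `n, m`, choose `x'` close to `x` for the three
pairs `(n, m), (n, 1), (n, 0)`: `Ev a x n m ↔ Ev a x' n m ↔ m = (y' n).toNat`, and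
`y' n = true ↔ Ev a x' n 1 ↔ Ev a x n 1 ↔ y n = true`. `Red b y x`: apply `S_CMP` to `a` and
`H (σ, i) = GE b σ i.unpair.1 i.unpair.2` to get `e'` with `Ev b y' n m ↔
Nat.pair e' (Nat.pair n m) ∈ Jp x'` whenever `Red a x' y'`; so for `x'` close to `x` (at
`2 * Nat.pair e' (Nat.pair n m) + 1` and at `2 * n`), `Ev b y n m ↔ Ev b y' n m ↔
m = (x' n).toNat ↔ m = (x n).toNat`. -/
def S_KCL : Prop := ∀ a b : ℕ, IsClosed (KK a b)

/-- The functional `a` induces a continuous map on the codes.

Proof. `f d = dx (fun n => decide (Ev a (fun i => decide (d (2 * i) = 2)) n 1))`. For `d = dx x`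
the inner real is `x`, and if `Red a x y` then `Ev a x n 1 ↔ 1 = (y n).toNat ↔ y n = true`, so
`f (dx x) = dx y`. Continuity on `KK a b` at `dx x` (with `y`): it is enough to show for each
coordinate `j` that `dx y' j = dx y j` for all `x', y'` (as in `KK a b`) such that `dx x'` agrees
with `dx x` on a suitable finite set of coordinates. Even coordinates `j = 2 * n`: by `S_ACC` for
`H (σ, i) = GE a σ i 1` there is `e` with `y' n = true ↔ Ev a x' n 1 ↔ Nat.pair e n ∈ Jp x' ↔
dx x' (2 * Nat.pair e n + 1) ≠ 0`. Odd coordinates `j = 2 * n + 1`: by `S_CMP` (with `H` from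
`S_JPS`) there is `e'` with `n ∈ Jp y' ↔ Nat.pair e' n ∈ Jp x'` (`Red a x' y'`). If `n ∉ Jp y`, then
agreement at `2 * Nat.pair e' n + 1` gives `n ∉ Jp y'`, so both are `0`. If `cx y n = 1 + k`: if
`y'` agrees with `y` at all places `≤ k` (a finite set of even coordinates), then
`Cert y' n k' ↔ Cert y n k'` for `k' ≤ k` (`k'.unpair.1 ≤ k'`), so `cx y' n = 1 + k` (`cx_eq_succ`).
-/
def S_KCT : Prop := ∀ a b : ℕ, ∃ f : (ℕ → ℕ) → (ℕ → ℕ), ContinuousOn f (KK a b) ∧
  ∀ x y, Red a x y → Red b y x → f (dx x) = dx y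

/-- The code of the jump of `x` is recursive in the jump of `x`.

Proof. First `x` is recursive in `jb x`: by `S_ACC` for `H (σ, i) = (σ[i]? = some true)` there is
`e` with `x i = true ↔ Nat.pair e i ∈ Jp x`, that is `chi x = fun i => chi (jb x) (Nat.pair e i)`.
Let `z = fun n => if n % 2 = 0 then x (n / 2) else jb x (n / 2)`; then `chi z` is recursive in
`{chi (jb x)}` (for instance by `recIn_of_graph`, `A = jb x`, with the primitive recursive graph
`G (σ, n, m)`: (`n % 2 = 0` and `σ[Nat.pair e (n / 2)]?.map Bool.toNat = some m`) or (`n % 2 = 1` and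
`σ[n / 2]?.map Bool.toNat = some m`)). By `Nat.RecursiveIn.subst` it is enough that
`PFun.lift (dx x)` is recursive in `{chi z}`, by `recIn_of_graph` with `G (σ, n, m)`, `h = n / 2`:
`σ' = ((List.range (σ.length / 2)).map fun i => σ.getD (2 * i) false)` (the known part of `x`) and
(`n % 2 = 0`, `h < σ'.length`, `m = 2 * (σ'.getD h false).toNat`) or (`n % 2 = 1`,
`2 * h + 1 < σ.length`, `σ.getD (2 * h + 1) false = false`, `m = 0`) or (`n % 2 = 1`,
`2 * h + 1 < σ.length`, `σ.getD (2 * h + 1) false = true`, and there is `k` with `m = 2 * (1 + k)`,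
`k ≤ σ'.length`, `C σ' h k` and `∀ k' < k, ¬ C σ' h k'`), where `C σ' h k` is
`W k.unpair.2 h.unpair.1 (encode (σ'.take k.unpair.1, h.unpair.2, 0)) = true`; everything is
primitive recursive. (Any other proof is welcome.) -/
def S_DGA : Prop := ∀ x : ℕ → Bool, Nat.RecursiveIn {chi (jb x)} (PFun.lift (dx x))

/-- Shifts and finite modifications are recursive.

Proof. `v n = (L.getD n 0)` for `n < N` where `L = pr v N`, and `v n = y (n - N + K)` for `n ≥ N`.
`F (n, m) = if n < N then L.getD n 0 else m` is primitive recursive, and `n ↦ F (n, y (n - N + K))`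
is recursive in `PFun.lift y` (`Nat.RecursiveIn.oracle`, `.comp`, `.pair`,
`Nat.Primrec.recursiveIn`; compare the proof of `recIn_pre` in
`Pool.Graph.R_seed8.Helper227.Use`). -/
def S_DGB : Prop := ∀ (v y : ℕ → ℕ) (N K : ℕ), (∀ i, v (N + i) = y (K + i)) →
  Nat.RecursiveIn {(PFun.lift y : ℕ →. ℕ)} (PFun.lift v)

/-- The jump is recursive in its code.

Proof. `(jb x n).toNat = if dx x (2 * n + 1) = 0 then 0 else 1` by `dx_odd`, `cx_eq_zero`; compose
the oracle with primitive recursive functions. -/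
def S_DGC : Prop := ∀ x : ℕ → Bool, Nat.RecursiveIn {(PFun.lift (dx x) : ℕ →. ℕ)} (chi (jb x))

/-- The jump is c.e. in `x`.

Proof. With `H` from `S_JPS` let `f n = 0` if `∃ s, H (pre x s, n)`, undefined otherwise
(`fun n => Part.assert (∃ s, H (pre x s, n)) fun _ => Part.some 0`). Use `recIn_of_graph` with
`G (σ, n, m) = H (σ, n) ∧ m = 0`. -/
def S_JRE : Prop := ∀ x : ℕ → Bool, ∃ f : ℕ →. ℕ, Nat.RecursiveIn {chi x} f ∧
  ∀ n, n ∈ Jp x ↔ (f n).Dom

/-- Sets c.e. in `x` are columns of the jump.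

Proof. `recIn_graph` for `f` gives a c.e. `G` with `m ∈ f n ↔ ∃ s, G (pre x s, n, m)`; apply `S_ACC`
to `H (σ, n) = ∃ m, G (σ, n, m)`. -/
def S_JRU : Prop := ∀ (x : ℕ → Bool) (B : Set ℕ),
  (∃ f : ℕ →. ℕ, Nat.RecursiveIn {chi x} f ∧ ∀ n, n ∈ B ↔ (f n).Dom) →
  ∃ e, ∀ n, n ∈ B ↔ Nat.pair e n ∈ Jp x

/-- Columns of a set are recursive in it.

Proof. `n ↦ z (Nat.pair e n)` composes the oracle with a primitive recursive function. -/
def S_COL : Prop := ∀ (z w : ℕ → Bool) (e : ℕ), (∀ n, w n = z (Nat.pair e n)) →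
  Nat.RecursiveIn {chi z} (chi w)

/-- Shifts and finite modifications of reals are Turing reducible.

Proof. `y n` is `L.getD n false` (`L = pre y N`) for `n < N` and `x (n - N + K)` for `n ≥ N`. Use
`exists_GE` for the primitive recursive graph `G (σ, n, m)`: (`n < N` and
`m = (L.getD n false).toNat`) or (`N ≤ n` and `σ[n - N + K]?.map Bool.toNat = some m`). -/
def S_SHF : Prop := ∀ (x y : ℕ → Bool) (N K : ℕ), (∀ i, y (N + i) = x (K + i)) → TR x y

/-! ### Reals of different degrees -/

/-- The graph of a functional is nowhere dense.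

Proof. If there are no `x, y` extending `σ, τ` with `Red a x y`, take `σ' = σ`, `τ' = τ`. Otherwise
fix such `x, y`, let `n = τ.length`; `Ev a x n (y n).toNat` gives `s` with
`GE a (pre x s) n (y n).toNat`. Let `σ' = pre x (max s σ.length)` and `τ' = τ ++ [! y n]`. If `x'`
extends `σ'` and `y'` extends `τ'` then `pre x' s = pre x s`, so `Ev a x' n (y n).toNat`; if
`Red a x' y'` then `(y n).toNat = (y' n).toNat`, but `y' n = ! y n`. -/
def S_ND : Prop := ∀ (a : ℕ) (σ τ : List Bool), ∃ σ' τ', σ <+: σ' ∧ τ <+: τ' ∧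
  ∀ x y : ℕ → Bool, pre x σ'.length = σ' → pre y τ'.length = τ' → ¬ Red a x y

/-- There is a real which is not computed on any cylinder.

Proof. Call `c` bad for `(a, σ)` if for every `σ'` extending `σ` there is `x` extending `σ'` with
`Red a x c`. For each `(a, σ)` at most one `c` is bad: let `c, c'` be bad and `n` arbitrary. Take
`x` extending `σ` with `Red a x c` and `s` with `GE a (pre x s) n (c n).toNat`; let
`σ' = pre x (max s σ.length)`; take `x'` extending `σ'` with `Red a x' c'`. Then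
`pre x' s = pre x s`, so `Ev a x' n (c n).toNat`, so `(c n).toNat = (c' n).toNat`. Hence the set of
all `c` which are bad for some `(a, σ)` is countable (`ℕ × List Bool` is countable), and `ℕ → Bool`
is uncountable; take `c` outside. -/
def S_NC : Prop := ∃ c : ℕ → Bool, ∀ (a : ℕ) (σ : List Bool), ∃ σ', σ <+: σ' ∧
  ∀ x : ℕ → Bool, pre x σ'.length = σ' → ¬ Red a x c

/-- Block construction.

Proof. Replacing `P n σ τ` by `∀ a ≤ n, P a σ τ` (still monotone and dense, by extending `n + 1`
times) and similarly `Q`, we may assume that `P, Q` are decreasing in `n`. By recursion on `n` we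
choose a pair `(s_n^0, s_n^1)` of strings of the same length `l_n ≥ 1` such that, writing
`S_u = s_0^{u_0} ⌢ ... ⌢ s_{n-1}^{u_{n-1}}` for `u ∈ Bool^n` (a list of length `n`), for all
`u, v ∈ Bool^n`: `P n (S_u ⌢ s_n^0) (S_v ⌢ s_n^1)`, and `Q n (S_u ⌢ s_n^0)`, `Q n (S_u ⌢ s_n^1)`,
and `s_n^0` starts with `false`, `s_n^1` starts with `true`. To get it start with
`p = [false], q = [true]` and go through the finitely many requirements; for the requirement
`P n (S_u ⌢ p') (S_v ⌢ q')` density gives extensions of `S_u ⌢ p` and `S_v ⌢ q`, which have the form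
`S_u ⌢ p'`, `S_v ⌢ q'` with `p <+: p'`, `q <+: q'`; monotonicity keeps the earlier requirements;
finally pad the shorter one with `false`. Let `ψ z` be the concatenation of all `s_n^{z n}`; the
position of block `n` does not depend on `z`. `ψ` is continuous (bits of `ψ z` before the end of
block `n` depend only on `z 0, ..., z n`), injective (first bits of blocks). If `z n = false`,
`z' n = true`, then with `k` the end of block `n`, `pre (ψ z) k = S_u ⌢ s_n^0`,
`pre (ψ z') k = S_v ⌢ s_n^1` where `u, v` are the initial segments of `z, z'`. If `z, z'` agree from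
`N` on then `ψ z, ψ z'` agree from the beginning of block `N` on. -/
def S_BLK : Prop := ∀ (P : ℕ → List Bool → List Bool → Prop) (Q : ℕ → List Bool → Prop),
  (∀ n σ τ, ∃ σ' τ', σ <+: σ' ∧ τ <+: τ' ∧ P n σ' τ') →
  (∀ n σ τ σ' τ', P n σ τ → σ <+: σ' → τ <+: τ' → P n σ' τ') →
  (∀ n σ, ∃ σ', σ <+: σ' ∧ Q n σ') →
  (∀ n σ σ', Q n σ → σ <+: σ' → Q n σ') →
  ∃ ψ : (ℕ → Bool) → (ℕ → Bool), Continuous ψ ∧ Function.Injective ψ ∧
    (∀ z z' n, z n = false → z' n = true → ∀ a ≤ n, ∃ k, P a (pre (ψ z) k) (pre (ψ z') k)) ∧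
    (∀ z n, ∃ k, Q n (pre (ψ z) k)) ∧
    (∀ z z', (∃ N, ∀ n, N ≤ n → z n = z' n) → ∃ N, ∀ n, N ≤ n → ψ z n = ψ z' n)

/-! ### Topology -/

/-- Matching of the pieces.

Proof. All `stl D s` are in `Tr D` (`stl_mem`). For `σ ∈ Tr C'` and `ρ ∈ Tr D` the set
`L' (σ, ρ) = {a | a % 2 = 1 ∧ dec D a = ρ ∧ σ ++ [a] ∉ Tr C'}` is infinite: it contains all but
finitely many of the numbers `2 * Nat.pair (encode ρ) n + 1` (`dec_code`, `Thin C'`). So there is an
injection `e' (σ, ρ) : ℕ → ℕ` with values in `L' (σ, ρ)` (`Set.Infinite.natEmbedding`). For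
`p = (σ, a) : Pc C` choose `y ∈ C` with `pr y σ.length = σ` and put
`j p = (σ', e' (σ', ρ) (encode (σ, a)))` where `σ' = pr (f y) σ.length ∈ Tr C'` and
`ρ = stl D (σ ++ [a])`. Letters `a'` in `L' (σ', ρ)` have `stl D (σ' ++ [a']) = dl D _ a' = dec D a' =
ρ` (`stl_append_singleton`, `dl_odd`). `j` is injective: if `j p = j q` then the `σ'` agree, the
`ρ = stl D (σ' ++ [a'])` agree, so the codes `encode (σ, a)` agree. Similarly
`j' : Pc C' → Pc C`: for `q = (σ', a')` choose `y' ∈ C'` with `pr y' σ'.length = σ'`, put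
`σ = pr (f' y') σ'.length`, `ρ = stl D (σ' ++ [a'])`, `j' q = (σ, e (σ, ρ) (encode (σ', a')))`. Let
`R p q` be the relation in the conclusion. `R p (j p)` with `y`, and `R (j' q) q` with
`y = f' y'` (`f y = y'`). Now `Function.Embedding.schroeder_bernstein_of_rel` gives a bijection
respecting `R` (`Equiv.ofBijective`). -/
def S_EX1 : Prop := ∀ (D C C' : Set (ℕ → ℕ)) (f f' : (ℕ → ℕ) → (ℕ → ℕ)),
  D.Nonempty → Evn D → Thin C → Thin C' → Set.MapsTo f C C' → Set.MapsTo f' C' C →
  (∀ y ∈ C, f' (f y) = y) → (∀ y ∈ C', f (f' y) = y) →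
  ∃ β : Pc C ≃ Pc C', ∀ p : Pc C,
    stl D (p.1.1 ++ [p.1.2]) = stl D ((β p).1.1 ++ [(β p).1.2]) ∧
    ∃ y ∈ C, pr y p.1.1.length = p.1.1 ∧ pr (f y) p.1.1.length = (β p).1.1

/-- The homeomorphism.

Proof. Let `v ∉ C`. As `C` is closed there is `n` with `pr v n ∉ Tr C` (otherwise every neighbourhood
of `v` meets `C`); the least such `n` is positive since `[] ∈ Tr C` (`nil_mem_Tr`); so there is
exactly one `p = (σ, a) : Pc C` with `pr v (σ.length + 1) = σ ++ [a]` (`mem_Tr_of_append`: two such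
`p` of different lengths are impossible). Put `g v = app (σ' ++ [a']) (dr (σ.length + 1) v)` where
`β p = (σ', a')`; `σ'.length = σ.length` by the last clause of the hypothesis (`pr_length`). For
`v ∈ C` put `g v = f v`. For `v ∉ C`: `pr (g v) (σ'.length + 1) = σ' ++ [a'] ∉ Tr C'`, so
`g v ∉ C'`, and its piece is `β p`; `n = σ.length + 1` has `g v i = v i` for `i ≥ n`, and
`st D v n = stl D (σ ++ [a]) = stl D (σ' ++ [a']) = st D (g v) n` (`st_eq_stl`). In the same way
define `g'` with `β.symm`, `f'`; `g' (g v) = v`, `g (g' v) = v` (use `app_dr`, `dr_app`), so we have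
an `Equiv`.
Continuity of `g`. At `v ∉ C`: on the clopen set of `w` with `pr w (σ.length + 1) = σ ++ [a]`,
`g w = app (σ' ++ [a']) (dr (σ.length + 1) w)` which is continuous. At `x ∈ C`: claim: for all `n` and
all `v` with `pr v n = pr x n` there is `y ∈ C` with `pr y n = pr x n` and `pr (g v) n = pr (f y) n`.
If `v ∈ C` take `y = v`. If `v ∉ C` has piece `p = (σ, a)`, then `n ≤ σ.length` (for `j ≤ n`,
`pr v j = pr x j ∈ Tr C`, while `pr v (σ.length + 1) ∉ Tr C`); take `y` from the hypothesis: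
`pr y σ.length = σ = pr v σ.length` so `pr y n = pr v n = pr x n`, and
`pr (f y) σ.length = σ' = pr (g v) σ.length` (`g v` begins with `σ'`) so
`pr (g v) n = pr (f y) n`. Given `m`, by continuity of `f` on `C` at `x` there is `n ≥ m` such that
`y ∈ C`, `pr y n = pr x n` imply `pr (f y) m = pr (f x) m`; hence `pr v n = pr x n` implies
`pr (g v) m = pr (f y) m = pr (f x) m = pr (g x) m`. The inverse `g'` is continuous by the same
argument: the hypothesis is symmetric, for `q : Pc C'`, `p = β.symm q`, `y' = f y ∈ C'` has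
`pr y' q.1.1.length = q.1.1` and `pr (f' y') _ = pr y _ = (β.symm q).1.1`. (Prove one lemma for
`g` and apply it twice.) -/
def S_EX2 : Prop := ∀ (D C C' : Set (ℕ → ℕ)) (f f' : (ℕ → ℕ) → (ℕ → ℕ)),
  IsClosed C → IsClosed C' → C.Nonempty → C'.Nonempty →
  Set.MapsTo f C C' → Set.MapsTo f' C' C → ContinuousOn f C → ContinuousOn f' C' →
  (∀ y ∈ C, f' (f y) = y) → (∀ y ∈ C', f (f' y) = y) →
  ∀ β : Pc C ≃ Pc C', (∀ p : Pc C,
    stl D (p.1.1 ++ [p.1.2]) = stl D ((β p).1.1 ++ [(β p).1.2]) ∧
    ∃ y ∈ C, pr y p.1.1.length = p.1.1 ∧ pr (f y) p.1.1.length = (β p).1.1) →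
  ∃ g : Hm, (∀ y ∈ C, g y = f y) ∧
    ∀ v, v ∉ C → g v ∉ C' ∧ ∃ n, st D v n = st D (g v) n ∧ ∀ i, n ≤ i → g v i = v i

/-- Kernels are closed, nonempty and thin.

Proof. Let `τ = stl D s ∈ Tr D` (`stl_mem`). Closed: `v ↦ pr v s.length` is locally constant (or use
`pr v s.length = s ↔ ∀ i < s.length, v i = s.getD i 0`) and `v ↦ app τ (dr s.length v)` is
continuous. Nonempty: `y ∈ D` with `pr y τ.length = τ`; take `v = app s (dr τ.length y)`
(`pr_app`, `dr_app`, `app_dr`). Thin: let `σ ++ [a] ∈ Tr (Ker D s)`, `a` odd, witnessed by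
`v ∈ Ker D s`, `v σ.length = a`. If `σ.length ≥ s.length` then `a` is the entry of
`app τ (dr s.length v) ∈ D` at the place `τ.length + (σ.length - s.length)`, so it is even, a
contradiction. If `σ.length < s.length` then `a = s.getD σ.length 0`, one value. -/
def S_KRN : Prop := ∀ D : Set (ℕ → ℕ), IsClosed D → D.Nonempty → Evn D → ∀ s : List ℕ,
  IsClosed (Ker D s) ∧ (Ker D s).Nonempty ∧ Thin (Ker D s)

/-- Swaps.

Proof. If `s = t` take the identity. Otherwise `s, t` are incompatible (equal length); put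
`g v = app t (dr s.length v)` if `pr v s.length = s`, `g v = app s (dr t.length v)` if
`pr v t.length = t`, and `g v = v` otherwise. `g` is an involution, continuous as the three sets are
clopen. In the first case take `n = s.length`: `st D v n = stl D s = stl D t = st D (g v) n`
(`st_eq_stl`, `pr_app`) and `g v i = v i` for `i ≥ n` (`app_ge`). -/
def S_SWP : Prop := ∀ (D : Set (ℕ → ℕ)) (s t : List ℕ), s.length = t.length → stl D s = stl D t →
  ∃ g : Hm, (∀ u, g (app s u) = app t u) ∧
    ∀ v, ∃ n, st D v n = st D (g v) n ∧ ∀ i, n ≤ i → g v i = v i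

/-- Countable group generated by homeomorphisms.

Proof. Let `G = FreeGroup ℕ` (countable) act on `ℕ → ℕ` by `MulAction.compHom` of
`FreeGroup.lift (fun n => (gens n).toEquiv : ℕ → Equiv.Perm (ℕ → ℕ))`; or let `G` be the subgroup of
`Equiv.Perm (ℕ → ℕ)` generated by the `gens n`. Each element acts continuously, by induction
(inverses of homeomorphisms are continuous). Each element preserves `R`: `R v (g • v)`, by induction,
since `R` is an equivalence relation. Conversely if `R v w`, the chain in `EqvGen` gives a group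
element: the relation `∃ g, g • v = w` is an equivalence relation which contains the generating
relation. -/
def S_GRP : Prop := ∀ (gens : ℕ → Hm) (R : (ℕ → ℕ) → (ℕ → ℕ) → Prop), Equivalence R →
  (∀ n v, R v (gens n v)) →
  (∀ v w, R v w → Relation.EqvGen (fun a b => ∃ n, gens n a = b) v w) →
  ∃ (G : Type) (_ : Group G) (_ : Countable G) (_ : MulAction G (ℕ → ℕ)),
    (∀ g : G, Continuous (fun y : ℕ → ℕ => g • y)) ∧ ∀ v w, (∃ g : G, g • v = w) ↔ R v w

/-! ### Measurability -/

/-- The set of sequences which read an element of `DD` is Borel.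

Proof. `InZ DD v ↔ ∃ N, ∀ i ≥ N, st DD v i ++ [v i] ∈ Tr DD`. (⇒) `st_of_val` and `pr_succ`. (⇐) Let
`K = (st DD v N).length` and let `y` be the limit: `y = app (st DD v N) (dr N v)`. By induction
`st DD v (N + i) = pr y (K + i) ∈ Tr DD` (`dl_normal`, `st_mem`), so every `pr y (K + i)` is in
`Tr DD` and `y ∈ DD` since `DD` is closed; so `Val DD v y`. The set on the right is Borel:
`v ↦ (st DD v i, v i)` is measurable into a countable discrete space (`st DD v i = stl DD (pr v i)`;
or prove by induction that `v ↦ st DD v i` is continuous into `List ℕ` with the discrete topology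
`⊥`; or: the set `{v | P (pr v (i + 1))}` is open for every `P` because it contains with `v` all `w`
with `pr w (i + 1) = pr v (i + 1)`, see `pr_eq_iff`). -/
def S_MZ : Prop := IsClosed DD → MeasurableSet {v : ℕ → ℕ | InZ DD v}

/-- The real read by `v`, as a Borel function.

Proof. Measurable: for each `n` the set of `v` with `∃ N, ∀ i ≥ N, (st DD v i)[2 * n]? = some 2` is
Borel (see `S_MZ`), so `v ↦ r0 v n` is measurable (`measurable_pi_iff`,
`measurable_to_bool`). If `Val DD v (dx x)` with `N, K` then for `i ≥ N + 2 * n + 1`, by `st_of_val`,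
`st DD v i = pr (dx x) (K + (i - N))` and `(st DD v i)[2 * n]? = some (dx x (2 * n)) =
some (2 * (x n).toNat)`, which is `some 2` iff `x n = true`. -/
def S_MR : Prop := Measurable r0 ∧ ∀ v x, Val DD v (dx x) → r0 v = x

/-- `dx` is Borel.

Proof. `measurable_pi_iff`; coordinate `n` even: `2 * (x (n / 2)).toNat` is continuous. Odd: the
preimage of each value is a Borel set: `cx x n = 0 ↔ ∀ k, ¬ Cert x n k`,
`cx x n = 1 + k ↔ Cert x n k ∧ ∀ k' < k, ¬ Cert x n k'` (`cx_eq_succ`), and `{x | Cert x n k}` is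
open (it depends only on `pre x k.unpair.1`). -/
def S_MD : Prop := Measurable dx

/-- The graph of a functional is Borel.

Proof. `Red e x y ↔ ∀ n m, ((∃ s, GE e (pre x s) n m) ↔ m = (y n).toNat)`: countable Boolean
combination of the sets `{p | GE e (pre p.1 s) n m}` and `{p | m = (p.2 n).toNat}`, which are clopen
(depend on finitely many bits). -/
def S_MRED : Prop := ∀ e : ℕ, MeasurableSet {p : (ℕ → Bool) × (ℕ → Bool) | Red e p.1 p.2}

/-- The codes `cd n v`.

Proof. Measurable: for each `k` the set of `(n, v)` with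
`k.unpair.2 = Nat.pair n (Nat.pair (v i) (encode (st DD v i)))`, `i = k.unpair.1`, is Borel
(`v ↦ st DD v i` depends only on `pr v i`). Write `u_i = Nat.pair n (Nat.pair (v i)
(encode (st DD v i)))`; so `cd n v (Nat.pair i j) = true ↔ j = u_i`. If `cd n v = cd n' v'` then
`u_i = u'_i` for all `i`, so `n = n'`, `v = v'`. If `cd n v k = cd n' v' k` for all `k ≥ N` then for
`i ≥ N` (`Nat.pair i j ≥ i`, `Nat.left_le_pair`) `u_i = u'_i`, so `n = n'` and `E0st DD v v'`
(`Nat.pair_eq_pair`, `Encodable.encode_injective`). Conversely if `n = n'` and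
`v i = v' i`, `st DD v i = st DD v' i` for `i ≥ N`, then `cd n v k ≠ cd n' v' k` implies
`k.unpair.1 < N` and `k.unpair.2 = u_i` or `= u'_i`, `i = k.unpair.1`; that is a finite set of `k`, so
they agree for all large `k`. -/
def S_CD : Prop := Measurable (fun q : ℕ × (ℕ → ℕ) => cd q.1 q.2) ∧
  (∀ n n' v v', cd n v = cd n' v' → n = n' ∧ v = v') ∧
  ∀ n n' v v', (∃ N, ∀ k, N ≤ k → cd n v k = cd n' v' k) ↔ (n = n' ∧ E0st DD v v')

/-- Borel representatives.

Proof. `Ψ (n, v) = ψ n v` is measurable and injective from `ℕ × (ℕ → ℕ)` to `ℕ → Bool` (standard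
Borel spaces), so it is a measurable embedding (`Measurable.measurableEmbedding`). Let
`I : (ℕ → Bool) → ℕ × (ℕ → ℕ)` be a measurable left inverse (`MeasurableEmbedding.invFun` or
`MeasurableEmbedding.exists_measurable_extend`-like: `(hΨ.measurable_extend ..)`), so
`I (Ψ q) = q`. For `a : ℕ` let `F_a x n = decide (∃ s, GE a (pre x s) n 1)`: measurable and
`Red a x y → F_a x = y`. Let `B_a` be the set of `x` such that `F_a x ∈ Set.range Ψ`,
`¬ InZ DD (I (F_a x)).2`, and `TE x (F_a x)`; it is Borel (`TE x y ↔ (∃ e, Red e x y) ∧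
∃ e, Red e y x`, `hR`, and `hZ`). Put `Ws = ⋃ a, B_a`, and for `x ∈ Ws` let `a` be the least index
with `x ∈ B_a` and `(ρ1 x, ρ2 x) = I (F_a x)`; `0` outside `Ws`. These are measurable functions
(countable partition; `measurable_find` or `Measurable.find`). If `x ∉ Ws`, `¬ InZ DD v`,
`TE x (ψ n v)`, then with `Red a x (ψ n v)` we get `F_a x = ψ n v`, `I (F_a x) = (n, v)`, so
`x ∈ B_a`, a contradiction. -/
def S_RHO : Prop := ∀ ψ : ℕ → (ℕ → ℕ) → (ℕ → Bool),
  Measurable (fun q : ℕ × (ℕ → ℕ) => ψ q.1 q.2) →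
  (∀ n n' v v', ψ n v = ψ n' v' → n = n' ∧ v = v') →
  MeasurableSet {v : ℕ → ℕ | InZ DD v} →
  (∀ e : ℕ, MeasurableSet {p : (ℕ → Bool) × (ℕ → Bool) | Red e p.1 p.2}) →
  ∃ (Ws : Set (ℕ → Bool)) (ρ1 : (ℕ → Bool) → ℕ) (ρ2 : (ℕ → Bool) → (ℕ → ℕ)),
    MeasurableSet Ws ∧ Measurable ρ1 ∧ Measurable ρ2 ∧
    (∀ x ∈ Ws, ¬ InZ DD (ρ2 x) ∧ TE x (ψ (ρ1 x) (ρ2 x))) ∧
    ∀ x, x ∉ Ws → ∀ n v, ¬ InZ DD v → ¬ TE x (ψ n v)

/-- Borel Schröder–Bernstein theorem with a relation.

Proof. `f, g` are measurable embeddings (`Measurable.measurableEmbedding`). Let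
`A = ⋃ n, (g ∘ f)^[n] '' (Set.range g)ᶜ`, a measurable set with `(Set.range g)ᶜ ⊆ A` and
`(g ∘ f) '' A ⊆ A`. Let `h x = f x` for `x ∈ A` and `h x = ` the preimage of `x` under `g` for
`x ∉ A` (`x ∈ Set.range g`). `h` is measurable (piecewise, the inverse of a measurable embedding on
its range is measurable). Injective: if `x ∈ A`, `x' ∉ A`, `f x = h x'` then `x' = g (f x) ∈ A`.
Surjective: let `b` be given; if `g b ∉ A` then `h (g b) = b`; if `g b ∈ A`, then since
`g b ∈ Set.range g`, `g b = (g ∘ f)^[n + 1] c` so `b = f ((g ∘ f)^[n] c)` with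
`(g ∘ f)^[n] c ∈ A`. `R x (h x)` in both cases. A bijective measurable function between standard
Borel spaces is a measurable equivalence (`MeasurableEmbedding.equivRange`, or
`Measurable.measurableEmbedding` and `MeasurableEquiv.ofBijective`-like). -/
def S_SB : Prop := ∀ (R : (ℕ → Bool) → (ℕ → ℕ) → Prop) (f : (ℕ → Bool) → (ℕ → ℕ))
  (g : (ℕ → ℕ) → (ℕ → Bool)), Measurable f → Measurable g → Function.Injective f →
  Function.Injective g → (∀ a, R a (f a)) → (∀ b, R (g b) b) →
  ∃ Φ : (ℕ → Bool) ≃ᵐ (ℕ → ℕ), ∀ a, R a (Φ a)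

end Pool.Agent.H634.TC
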